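import Pool.Agent.Lib.MP_ae5b4e_an_SVC.Defs
import Pool.Agent.Lib.MP_ae5b4e_an_MERO.ExtBasic
import Pool.Agent.Lib.MP_ae5b4e_an_NBT.Reg1

/-!
# MP_ae5b4e_an, project SV: the limit curve of a conic datum
-/

noncomputable section

namespace Pool.Agent.MP_ae5b4e_an_SVC

open Complex Set Filter Topology Metric
open Pool.Agent.MP_ae5b4e_an_NBT

variable {k : ℂ → ℂ} {F G : ℂ × ℂ → ℂ} {c h : ℝ}

private theorem mem_base (hc : 0 < c) {t : ℂ} (ht : |t.im| < c) :
    ((t, 0) : ℂ × ℂ) ∈ St (-c) c ×ˢ ball (0:ℂ) c :=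
  ⟨⟨(abs_lt.1 ht).1, (abs_lt.1 ht).2⟩, mem_ball_self hc⟩

private theorem real_im (hc : 0 < c) (t : ℝ) : |(t : ℂ).im| < c := by
  simpa using hc

private theorem an_base (hC : Con k F c) {t : ℂ} (ht : |t.im| < c) :
    AnalyticAt ℂ (fun s => F (s, 0)) t :=
  AnalyticAt.fun_comp (g := F) (f := fun s : ℂ => (s, (0:ℂ))) (hC.an _ (mem_base hC.pos ht))
    (analyticAt_id.prod analyticAt_const)

theorem crv_of_con (hC : Con k F c) : Crv (fun t => F (t, 0)) c where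
  pos := hC.pos
  mer := fun t ht => (an_base hC (abs_lt.2 ⟨ht.1, ht.2⟩)).meromorphicAt
  an := fun t => an_base hC (real_im hC.pos t)
  dr := fun t => hC.dt _ (mem_base hC.pos (real_im hC.pos t))
  circ := by
    intro t
    have h1 := hC.refl _ (mem_base hC.pos (real_im hC.pos t))
    simp only [conj_ofReal, map_zero] at h1
    rw [mul_conj] at h1
    have h2 : Complex.normSq (F ((t : ℂ), 0)) = 1 := by exact_mod_cast h1
    rw [Complex.normSq_eq_norm_sq] at h2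
    show ‖F ((t : ℂ), 0)‖ = 1
    nlinarith [norm_nonneg (F ((t : ℂ), 0))]
  inj := hC.inj
  per := fun t => hC.per _ (mem_base hC.pos (real_im hC.pos t))

theorem ode_of_con (hC : Con k F c) {t : ℂ} (ht : |t.im| < c) :
    AnalyticAt ℂ k (F (t, 0)) ∧ Rg (fun s => F (s, 0)) t ∧ Ode k (fun s => F (s, 0)) t := by
  have hc : 0 < c := hC.pos
  refine ⟨hC.reg _ (mem_base hc ht), ⟨an_base hC ht, hC.dt _ (mem_base hc ht)⟩, ?_⟩
  have h1 : t ∈ St (-c) c := ⟨(abs_lt.1 ht).1, (abs_lt.1 ht).2⟩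
  unfold Ode
  filter_upwards [nhdsWithin_le_nhds ((isOpen_St (-c) c).mem_nhds h1)] with s hs
  exact (hC.toDat.ode hs).2

private theorem sl_base (hE : ConE k F c h G) {t : ℂ} (ht : |t.im| < c) :
    sl G 0 =ᶠ[𝓝 t] fun s => F (s, 0) := by
  have hc : 0 < c := hE.pos
  have h1 : t ∈ St (-c) c := ⟨(abs_lt.1 ht).1, (abs_lt.1 ht).2⟩
  have h2 : EqM G F (t, 0) := hE.eqG _ ⟨h1, mem_ball_self (by linarith)⟩
  filter_upwards [sl_congr h2, (isOpen_St (-c) c).mem_nhds h1] with s hs1 hs2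
  rw [hs1]
  exact sl_of_analyticAt (hE.an _ (mem_base hc (abs_lt.2 ⟨hs2.1, hs2.2⟩)))

private theorem mem_DF_zero' (hE : ConE k F c h G) {t : ℂ} (ht : |t.im| < h) :
    ((t, 0) : ℂ × ℂ) ∈ DF F c (c / 4) :=
  (DK_shift hE.toCon (mem_DK_zero hE ht)).1

/-- the slice of the extended family is an extension of the limit curve -/
theorem crv_of_conE (hE : ConE k F c h G) :
    Crv (sl G 0) h ∧ ∀ t : ℂ, |t.im| < c → sl G 0 t = F (t, 0) := by
  have hc : 0 < c := hE.pos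
  have h0 : ∀ t : ℂ, |t.im| < c → sl G 0 t = F (t, 0) := fun t ht => (sl_base hE ht).self_of_nhds
  have hB := crv_of_con hE.toCon
  refine ⟨?_, h0⟩
  refine ⟨hc.trans hE.hc, ?_, ?_, ?_, ?_, ?_, ?_⟩
  · intro t ht
    exact (slAt_G hE (mem_DF_zero' hE (abs_lt.2 ⟨ht.1, ht.2⟩))).meromorphicAt
  · intro t
    exact (hB.an t).congr (sl_base hE (real_im hc t)).symm
  · intro t
    rw [(sl_base hE (real_im hc t)).deriv_eq]
    exact hB.dr t
  · intro t
    rw [h0 _ (real_im hc t)]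
    exact hB.circ t
  · intro s t hst
    rw [h0 _ (real_im hc s), h0 _ (real_im hc t)] at hst
    exact hB.inj s t hst
  · intro t
    have h1 : |((t : ℂ) + 1).im| < c := by simpa using hc
    rw [h0 _ (real_im hc t), h0 _ h1]
    exact hB.per t

private theorem isOpen_abs_im' (h : ℝ) : IsOpen {t : ℂ | |t.im| < h} :=
  isOpen_lt (continuous_abs.comp continuous_im) continuous_const

private theorem convex_abs_im' (h : ℝ) : Convex ℝ {t : ℂ | |t.im| < h} := by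
  have : {t : ℂ | |t.im| < h} = St (-h) h := by
    ext t
    simp only [mem_ofPred_eq, mem_St, abs_lt]
  rw [this]
  exact convex_St _ _

/-- points of the open strip close to a boundary point -/
private theorem exists_strip' {b : ℂ} {h ε : ℝ} (hh : 0 < h) (hb : |b.im| = h) (hε : 0 < ε) :
    ∃ t ∈ ball b ε, |t.im| < h := by
  set η : ℝ := min (1 / 2) (ε / (2 * h)) with hη
  have hη0 : 0 < η := lt_min (by norm_num) (by positivity)
  have hη1 : η ≤ 1 / 2 := min_le_left _ _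
  have hη2 : η ≤ ε / (2 * h) := min_le_right _ _
  refine ⟨b - (η * b.im : ℝ) * I, ?_, ?_⟩
  · rw [mem_ball, dist_eq_norm]
    have : b - (η * b.im : ℝ) * I - b = -((η * b.im : ℝ) * I) := by ring
    rw [this, norm_neg, norm_mul, Complex.norm_I, mul_one, Complex.norm_real, Real.norm_eq_abs,
      abs_mul, hb, abs_of_pos hη0]
    calc η * h ≤ ε / (2 * h) * h := mul_le_mul_of_nonneg_right hη2 hh.le
      _ = ε / 2 := by field_simp
      _ < ε := by linarith
  · have : (b - (η * b.im : ℝ) * I).im = (1 - η) * b.im := by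
      simp
      ring
    rw [this, abs_mul, hb, abs_of_pos (by linarith)]
    nlinarith

/-- a boundary point across which the limit curve extends as a locally univalent curve is regular -/
theorem reg_of_lu (hE : ConE k F c h G) {b : ℂ} (hb : |b.im| = h) {δ : ℝ} (hδ : 0 < δ)
    {g : ℂ → ℂ} (hg : LU g (ball b δ))
    (heq : ∀ z ∈ ball b δ, |z.im| < h → g =ᶠ[𝓝[≠] z] sl G 0) : RegAt G h b := by
  have hc : 0 < c := hE.pos
  have hh : 0 < h := hc.trans hE.hc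
  have hfam : ∀ z ∈ ball b δ, |z.im| < h → FamAt G z ∧ ∀ᶠ s in 𝓝[≠] z, sl G 0 s = g s := by
    intro z hz hzh
    have hev : ∀ᶠ s in 𝓝[≠] z, sl G 0 s = g s := by
      filter_upwards [heq z hz hzh] with s hs
      exact hs.symm
    refine ⟨fam_of_lu hE hzh (f := g) ?_ hev, hev⟩
    intro w hw
    rw [mem_singleton_iff] at hw
    rw [hw]
    exact hg z hz
  have hgb : LU g {b} := by
    intro w hw
    rw [mem_singleton_iff] at hw
    rw [hw]
    exact hg b (mem_ball_self hδ)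
  obtain ⟨δ1, hδ1, hstep⟩ := reg_step hgb
  obtain ⟨t₁, ht₁, ht₁h⟩ := exists_strip' hh hb (lt_min hδ hδ1)
  have ht₁δ : t₁ ∈ ball b δ := ball_subset_ball (min_le_left _ _) ht₁
  have ht₁δ1 : t₁ ∈ ball b δ1 := ball_subset_ball (min_le_right _ _) ht₁
  obtain ⟨δ', hδ', H, hH, -, hHG⟩ := hstep G t₁ ht₁δ1 (hfam t₁ ht₁δ ht₁h).1
    (hfam t₁ ht₁δ ht₁h).2
  obtain ⟨t₂, ht₂, ht₂h⟩ := exists_strip' hh hb (lt_min hδ1 hδ')
  have ht₂δ1 : t₂ ∈ ball b δ1 := ball_subset_ball (min_le_left _ _) ht₂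
  have hpre : IsPreconnected ((ball b δ1 ∩ {t : ℂ | |t.im| < h}) ×ˢ ({0} : Set ℂ)) :=
    ((convex_ball b δ1).inter (convex_abs_im' h)).isPreconnected.prod isPreconnected_singleton
  have hmH : Mer H ((ball b δ1 ∩ {t : ℂ | |t.im| < h}) ×ˢ ({0} : Set ℂ)) := by
    rintro ⟨x, y⟩ ⟨hx, hy⟩
    simp only [mem_singleton_iff] at hy
    subst hy
    exact hH _ ⟨hx.1, mem_ball_self hδ'⟩
  have hmG : Mer G ((ball b δ1 ∩ {t : ℂ | |t.im| < h}) ×ˢ ({0} : Set ℂ)) := by
    rintro ⟨x, y⟩ ⟨hx, hy⟩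
    simp only [mem_singleton_iff] at hy
    subst hy
    exact hE.merG _ (mem_DF_zero' hE hx.2)
  have hid := Mer.eqM hpre hmH hmG (p := (t₁, 0)) ⟨⟨ht₁δ1, ht₁h⟩, rfl⟩ hHG (t₂, 0)
    ⟨⟨ht₂δ1, ht₂h⟩, rfl⟩
  refine ⟨min δ1 δ', lt_min hδ1 hδ', H, ?_, t₂, ht₂, ht₂h, hid⟩
  exact hH.mono (prod_mono (ball_subset_ball (min_le_left _ _))
    (ball_subset_ball (min_le_right _ _)))

end Pool.Agent.MP_ae5b4e_an_SVC
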