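import Pool.Agent.Lib.MP_ae5b4e_an_SVC.Defs
import Pool.Agent.Lib.MP_ae5b4e_an_MERO.Countable

/-!
# MP_ae5b4e_an, project SV: consequences of the identity theorem for curves
-/

noncomputable section

namespace Pool.Agent.MP_ae5b4e_an_SVC

open Complex Set Filter Topology Metric
open Pool.Agent.MP_ae5b4e_an_NBT (St isOpen_St convex_St)
open scoped ComplexConjugate

variable {f : ℂ → ℂ} {h : ℝ}

theorem isOpen_rg (f : ℂ → ℂ) : IsOpen {t | Rg f t} := by
  rw [isOpen_iff_mem_nhds]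
  rintro t ⟨h1, h2⟩
  filter_upwards [h1.eventually_analyticAt, h1.deriv.continuousAt.eventually_ne h2] with s hs1 hs2
  exact ⟨hs1, hs2⟩

/-- the identity theorem -/
theorem Crv.ident (H : Crv f h) {g : ℂ → ℂ} (hg : MeromorphicOn g (St (-h) h)) {t₀ : ℂ}
    (ht₀ : t₀ ∈ St (-h) h) (hfg : ∃ᶠ s in 𝓝[≠] t₀, g s = f s) {t : ℂ} (ht : t ∈ St (-h) h) :
    g =ᶠ[𝓝[≠] t] f :=
  Pool.Agent.MP_ae5b4e_an_MERO.mero_ident (isOpen_St (-h) h) (convex_St (-h) h).isPreconnected
    hg H.mer ht₀ hfg ht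

private theorem strip_zero (h0 : 0 < h) : (0 : ℂ) ∈ St (-h) h := by
  constructor
  · show -h < (0 : ℂ).im
    simpa using h0
  · show (0 : ℂ).im < h
    simpa using h0

private theorem strip_real (h0 : 0 < h) (t : ℝ) : (t : ℂ) ∈ St (-h) h := by
  constructor
  · show -h < (t : ℂ).im
    simpa using h0
  · show (t : ℂ).im < h
    simpa using h0

/-- real points are frequent near a real point -/
private theorem strip_freq {p : ℂ → Prop} (t : ℝ) (hp : ∀ s : ℝ, p s) :
    ∃ᶠ s in 𝓝[≠] (t : ℂ), p s := by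
  intro h1
  have h2 : Tendsto (fun s : ℝ => (s : ℂ)) (𝓝[≠] t) (𝓝[≠] (t : ℂ)) := by
    refine tendsto_nhdsWithin_of_tendsto_nhds_of_eventually_within _
      (continuous_ofReal.continuousAt.tendsto.mono_left nhdsWithin_le_nhds) ?_
    filter_upwards [self_mem_nhdsWithin] with s hs
    intro h3
    exact hs (ofReal_injective h3)
  have h3 : ∀ᶠ s : ℝ in 𝓝[≠] t, ¬ p (s : ℂ) := h2.eventually h1
  obtain ⟨s, hs⟩ := h3.exists
  exact hs (hp s)

theorem Crv.not_const (H : Crv f h) {t : ℂ} (ht : t ∈ St (-h) h) (x : ℂ) :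
    ¬ ∀ᶠ s in 𝓝[≠] t, f s = x := by
  intro hc
  have h1 : (fun _ : ℂ => x) =ᶠ[𝓝[≠] (0 : ℂ)] f := by
    refine H.ident (fun s _ => (analyticAt_const (v := x)).meromorphicAt) ht ?_
      (strip_zero H.pos)
    exact (hc.mono fun s hs => hs.symm).frequently
  have han : AnalyticAt ℂ f 0 := by
    have := H.an 0
    rwa [ofReal_zero] at this
  have h2 : ∀ᶠ z in 𝓝 (0 : ℂ), f z = x := by
    refine (han.frequently_eq_iff_eventually_eq analyticAt_const).1 ?_
    exact (h1.mono fun s hs => hs.symm).frequently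
  have h3 : f =ᶠ[𝓝 (0 : ℂ)] fun _ => x := h2
  have h4 := h3.deriv_eq
  rw [deriv_const] at h4
  have h5 := H.dr 0
  rw [ofReal_zero] at h5
  exact h5 h4

/-- a meromorphic function which is not locally constant is locally univalent near the point -/
private theorem strip_near {f : ℂ → ℂ} {t : ℂ} (hf : MeromorphicAt f t)
    (hnc : ∀ x, ¬ ∀ᶠ s in 𝓝[≠] t, f s = x) : ∀ᶠ s in 𝓝[≠] t, AnalyticAt ℂ f s ∧ deriv f s ≠ 0 := by
  have h1 : ∀ᶠ s in 𝓝[≠] t, AnalyticAt ℂ f s := hf.eventually_analyticAt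
  rcases hf.deriv.eventually_eq_zero_or_eventually_ne_zero with h2 | h2
  · exfalso
    have h3 : ∀ᶠ s in 𝓝[≠] t, AnalyticAt ℂ f s ∧ deriv f s = 0 := h1.and h2
    rw [eventually_nhdsWithin_iff] at h3
    obtain ⟨r, hr, h4⟩ := Metric.eventually_nhds_iff_ball.1 h3
    have hpre : IsPreconnected (ball t r \ {t}) :=
      Pool.Agent.MP_ae5b4e_an_MERO.isPreconnected_diff isOpen_ball (convex_ball t r)
        (countable_singleton t)
    have hop : IsOpen (ball t r \ {t}) := isOpen_ball.sdiff isClosed_singleton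
    have hmem : ∀ᶠ s in 𝓝[≠] t, s ∈ ball t r \ {t} := by
      filter_upwards [self_mem_nhdsWithin, nhdsWithin_le_nhds (ball_mem_nhds t hr)] with s hs1 hs2
      exact ⟨hs2, hs1⟩
    obtain ⟨s₀, hs₀⟩ := hmem.exists
    apply hnc (f s₀)
    filter_upwards [hmem] with s hs
    refine hop.is_const_of_deriv_eq_zero hpre ?_ ?_ hs hs₀
    · intro x hx
      exact (h4 x hx.1 hx.2).1.differentiableAt.differentiableWithinAt
    · intro x hx
      exact (h4 x hx.1 hx.2).2
  · exact h1.and h2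

theorem Crv.reg (H : Crv f h) {t : ℂ} (ht : t ∈ St (-h) h) : ∀ᶠ s in 𝓝[≠] t, Rg f s :=
  strip_near (H.mer t ht) fun x => H.not_const ht x

private theorem strip_per (H : Crv f h) (n : ℤ) : ∀ t : ℝ, f ((t : ℂ) + n) = f t := by
  induction n using Int.induction_on with
  | zero =>
    intro t
    simp
  | succ n ih =>
    intro t
    have h1 := H.per (t + n)
    have h2 := ih t
    push_cast at h1 h2 ⊢
    rw [← add_assoc, h1, h2]
  | pred n ih =>
    intro t
    have h1 := H.per (t + (-(n : ℝ) - 1))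
    have h2 := ih t
    push_cast at h1 h2 ⊢
    rw [← h2, ← h1]
    congr 1
    ring

theorem Crv.per' (H : Crv f h) (n : ℤ) {t : ℂ} (ht : t ∈ St (-h) h) :
    (fun s => f (s + n)) =ᶠ[𝓝[≠] t] f := by
  refine H.ident ?_ (strip_real H.pos 0) (strip_freq 0 (strip_per H n)) ht
  intro s hs
  have h1 : s + (n : ℂ) ∈ St (-h) h := by
    obtain ⟨h2, h3⟩ := hs
    constructor
    · show -h < (s + (n : ℂ)).im
      simpa using h2
    · show (s + (n : ℂ)).im < h
      simpa using h3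
  exact (H.mer _ h1).comp_analyticAt (g := fun s => s + (n : ℂ)) (by fun_prop)

private theorem strip_conj_an {g : ℂ → ℂ} {s : ℂ} (hg : AnalyticAt ℂ g (conj s)) :
    AnalyticAt ℂ (fun z => conj (g (conj z))) s := by
  rw [Complex.analyticAt_iff_eventually_differentiableAt] at hg ⊢
  have h1 : Tendsto (fun z : ℂ => conj z) (𝓝 s) (𝓝 (conj s)) :=
    continuous_conj.continuousAt.tendsto
  filter_upwards [h1.eventually hg] with z hz
  have h2 := hz.conj_conj
  rw [conj_conj] at h2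
  exact h2

private theorem strip_conj_mer {g : ℂ → ℂ} {s : ℂ} (hg : MeromorphicAt g (conj s)) :
    MeromorphicAt (fun z => conj (g (conj z))) s := by
  obtain ⟨n, hn⟩ := hg
  refine ⟨n, ?_⟩
  have h1 := strip_conj_an hn
  have h2 : (fun z => (z - s) ^ n • (fun z => conj (g (conj z))) z) =
      fun z => conj ((conj z - conj s) ^ n • g (conj z)) := by
    funext z
    simp [smul_eq_mul]
  rw [h2]
  exact h1

/-- the reflection principle -/
theorem Crv.refl' (H : Crv f h) {t : ℂ} (ht : t ∈ St (-h) h) :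
    ∀ᶠ s in 𝓝[≠] t, conj (f (conj s)) * f s = 1 := by
  have h1 : MeromorphicOn (fun s => conj (f (conj s)) * f s) (St (-h) h) := by
    intro s hs
    have h2 : conj s ∈ St (-h) h := by
      obtain ⟨h3, h4⟩ := hs
      constructor
      · show -h < (conj s).im
        rw [conj_im]
        linarith
      · show (conj s).im < h
        rw [conj_im]
        linarith
    exact (strip_conj_mer (H.mer _ h2)).mul (H.mer s hs)
  have h3 : MeromorphicOn (fun _ : ℂ => (1 : ℂ)) (St (-h) h) := fun s _ =>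
    (analyticAt_const (v := (1 : ℂ))).meromorphicAt
  refine Pool.Agent.MP_ae5b4e_an_MERO.mero_ident (isOpen_St (-h) h)
    (convex_St (-h) h).isPreconnected h1 h3 (strip_real H.pos 0) (strip_freq 0 fun s => ?_) ht
  simp only [conj_ofReal]
  rw [mul_comm, mul_conj, normSq_eq_norm_sq, H.circ]
  norm_num

theorem Crv.isPreconnected_rg (H : Crv f h) : IsPreconnected {t | t ∈ St (-h) h ∧ Rg f t} := by
  obtain ⟨C, hC⟩ : ∃ C : Set ℂ, C = {t | t ∈ St (-h) h ∧ ¬ Rg f t} := ⟨_, rfl⟩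
  have hcount : C.Countable := by
    refine Pool.Agent.MP_ae5b4e_an_MERO.CN.countable_of_eventually (D := St (-h) h) ?_ ?_
    · rw [hC]
      exact fun t ht => ht.1
    · intro t ht
      filter_upwards [H.reg ht] with s hs
      rw [hC]
      exact fun h1 => h1.2 hs
  have h1 := Pool.Agent.MP_ae5b4e_an_MERO.isPreconnected_diff (isOpen_St (-h) h)
    (convex_St (-h) h) hcount
  have h2 : St (-h) h \ C = {t | t ∈ St (-h) h ∧ Rg f t} := by
    ext t
    rw [hC]
    constructor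
    · rintro ⟨h3, h4⟩
      refine ⟨h3, ?_⟩
      by_contra h5
      exact h4 ⟨h3, h5⟩
    · rintro ⟨h3, h4⟩
      exact ⟨h3, fun h5 => h5.2 h4⟩
  rwa [h2] at h1

theorem Crv.mono (H : Crv f h) {h' : ℝ} (h0 : 0 < h') (hh : h' ≤ h) : Crv f h' :=
  ⟨h0, fun s hs => H.mer s ⟨lt_of_le_of_lt (by linarith) hs.1, lt_of_lt_of_le hs.2 hh⟩,
    H.an, H.dr, H.circ, H.inj, H.per⟩

/-- two curves which agree near `0` agree on the common strip -/
theorem Crv.unique {g : ℂ → ℂ} {h' : ℝ} (H : Crv f h) (H' : Crv g h')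
    (he : f =ᶠ[𝓝 (0:ℂ)] g) :
    (∀ t : ℝ, f t = g t) ∧ ∀ t ∈ St (-(min h h')) (min h h'), f =ᶠ[𝓝[≠] t] g := by
  have hm : 0 < min h h' := lt_min H.pos H'.pos
  have h1 := H.mono hm (min_le_left _ _)
  have h2 := H'.mono hm (min_le_right _ _)
  have key : ∀ t ∈ St (-(min h h')) (min h h'), f =ᶠ[𝓝[≠] t] g := by
    intro t ht
    have h3 : ∀ᶠ s in 𝓝[≠] (0 : ℂ), g s = f s :=
      (he.filter_mono nhdsWithin_le_nhds).mono fun s hs => hs.symm
    exact (h1.ident h2.mer (strip_zero hm) h3.frequently ht).symm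
  refine ⟨fun t => ?_, key⟩
  have h3 := key t (strip_real hm t)
  have h4 : ∀ᶠ z in 𝓝 (t : ℂ), f z = g z :=
    ((H.an t).frequently_eq_iff_eventually_eq (H'.an t)).1 h3.frequently
  exact h4.self_of_nhds

end Pool.Agent.MP_ae5b4e_an_SVC
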