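import Pool.Agent.Lib.MP_ae5b4e_an_SVC.Defs

/-!
# MP_ae5b4e_an, project SV: two solutions through the same point differ by an affine map
-/

noncomputable section

namespace Pool.Agent.MP_ae5b4e_an_SVC

open Complex Set Filter Topology Metric

private lemma exists_lift {f : ℂ → ℂ} {t₂ : ℂ} (r2 : Rg f t₂) :
    ∃ g : ℂ → ℂ, AnalyticAt ℂ g (f t₂) ∧ g (f t₂) = t₂ ∧ ∀ᶠ y in 𝓝 (f t₂), f (g y) = y := by
  obtain ⟨a2, d2⟩ := r2
  have hf' : HasStrictDerivAt f (deriv f t₂) t₂ := a2.hasStrictDerivAt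
  have hF := hf'.hasStrictFDerivAt_equiv d2
  have hc : ContDiffAt ℂ ⊤ f t₂ := a2.contDiffAt
  refine ⟨hc.localInverse hF.hasFDerivAt (by simp), ?_, hc.localInverse_apply_image _ _, ?_⟩
  · exact (hc.to_localInverse hF.hasFDerivAt (by simp)).analyticAt
  · have := HasStrictFDerivAt.eventually_right_inverse hF
    exact this

theorem aff_local {K f : ℂ → ℂ} {t₁ t₂ : ℂ} (r1 : Rg f t₁) (r2 : Rg f t₂) (o1 : Ode K f t₁)
    (o2 : Ode K f t₂) (heq : f t₁ = f t₂) :
    ∃ A B : ℂ, A ≠ 0 ∧ A * t₁ + B = t₂ ∧ ∀ᶠ s in 𝓝 t₁, f (A * s + B) = f s := by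
  obtain ⟨g, hga, hg2, hgr⟩ := exists_lift r2
  rw [← heq] at hga hg2 hgr
  set φ : ℂ → ℂ := fun s => g (f s) with hφ
  have hφa : AnalyticAt ℂ φ t₁ := hga.comp r1.1
  have hφ1 : φ t₁ = t₂ := hg2
  have hfφ : ∀ᶠ s in 𝓝 t₁, f (φ s) = f s := r1.1.continuousAt.tendsto.eventually hgr
  have hφc : Tendsto φ (𝓝 t₁) (𝓝 t₂) := by
    have := hφa.continuousAt.tendsto
    rwa [hφ1] at this
  have e1 : ∀ᶠ s in 𝓝 t₁, AnalyticAt ℂ φ s := hφa.eventually_analyticAt
  have e2 : ∀ᶠ s in 𝓝 t₁, AnalyticAt ℂ f (φ s) := hφc.eventually r2.1.eventually_analyticAt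
  have e3 : ∀ᶠ s in 𝓝 t₁, AnalyticAt ℂ f s := r1.1.eventually_analyticAt
  have e4 : ∀ᶠ s in 𝓝 t₁, deriv f s ≠ 0 := r1.1.deriv.continuousAt.eventually_ne r1.2
  have e5 : ∀ᶠ s in 𝓝 t₁, deriv f (φ s) ≠ 0 :=
    hφc.eventually (r2.1.deriv.continuousAt.eventually_ne r2.2)
  have e6 : ∀ᶠ s in 𝓝 t₁, ∀ᶠ w in 𝓝 s, f (φ w) = f w := hfφ.eventually_nhds
  -- the first derivative
  have d1 : ∀ᶠ s in 𝓝 t₁, deriv f (φ s) * deriv φ s = deriv f s := by
    filter_upwards [e1, e2, e6] with s h1 h2 h3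
    have h4 : HasDerivAt (fun w => f (φ w)) (deriv f (φ s) * deriv φ s) s :=
      h2.differentiableAt.hasDerivAt.comp s h1.differentiableAt.hasDerivAt
    rw [← h4.deriv]
    exact EventuallyEq.deriv_eq h3
  have hd1 : deriv φ t₁ ≠ 0 := by
    intro h
    have := d1.self_of_nhds
    rw [h, mul_zero] at this
    exact r1.2 this.symm
  have d2 : ∀ᶠ s in 𝓝 t₁, deriv (deriv f) (φ s) * deriv φ s * deriv φ s +
      deriv f (φ s) * deriv (deriv φ) s = deriv (deriv f) s := by
    filter_upwards [e1, e2, d1.eventually_nhds] with s h1 h2 h3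
    have h4 : HasDerivAt (fun w => deriv f (φ w) * deriv φ w)
        (deriv (deriv f) (φ s) * deriv φ s * deriv φ s + deriv f (φ s) * deriv (deriv φ) s) s :=
      (h2.deriv.differentiableAt.hasDerivAt.comp s h1.differentiableAt.hasDerivAt).mul
        h1.deriv.differentiableAt.hasDerivAt
    rw [← h4.deriv]
    exact EventuallyEq.deriv_eq h3
  have hφne : Tendsto φ (𝓝[≠] t₁) (𝓝[≠] t₂) := by
    have := hφa.differentiableAt.hasDerivAt.tendsto_nhdsNE hd1
    rwa [hφ1] at this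
  have hz : ∀ᶠ s in 𝓝[≠] t₁, deriv (deriv φ) s = 0 := by
    filter_upwards [o1, hφne.eventually o2, d1.filter_mono nhdsWithin_le_nhds,
      d2.filter_mono nhdsWithin_le_nhds, e4.filter_mono nhdsWithin_le_nhds,
      e5.filter_mono nhdsWithin_le_nhds, hfφ.filter_mono nhdsWithin_le_nhds]
      with s h1 h2 h3 h4 h5 h6 h7
    rw [h7] at h2
    rw [h2, ← h3] at h1
    have h8 : deriv φ s ≠ 0 := by
      intro h
      rw [h, mul_zero] at h3
      exact h5 h3.symm
    rw [← h4] at h1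
    rw [div_eq_div_iff (pow_ne_zero 2 h6) (pow_ne_zero 2 (mul_ne_zero h6 h8))] at h1
    have h9 : deriv f (φ s) ^ 2 * (deriv f (φ s) * deriv (deriv φ) s) = 0 := by
      linear_combination h1
    rcases mul_eq_zero.1 h9 with h | h
    · exact absurd h (pow_ne_zero 2 h6)
    · rcases mul_eq_zero.1 h with h | h
      · exact absurd h h6
      · exact h
  have hz' : ∀ᶠ s in 𝓝 t₁, deriv (deriv φ) s = 0 :=
    (hφa.deriv.deriv.frequently_zero_iff_eventually_zero).1 hz.frequently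
  obtain ⟨r, hr, hb⟩ := Metric.eventually_nhds_iff_ball.1 (e1.and hz')
  -- the derivative is constant, so the map is affine
  have hconst : ∀ s ∈ ball t₁ r, deriv φ s = deriv φ t₁ := by
    intro s hs
    refine (convex_ball t₁ r).is_const_of_fderivWithin_eq_zero (𝕜 := ℂ)
      (f := deriv φ) ?_ ?_ hs (mem_ball_self hr)
    · intro w hw
      exact (hb w hw).1.deriv.differentiableAt.differentiableWithinAt
    · intro w hw
      rw [fderivWithin_eq_fderiv (isOpen_ball.uniqueDiffWithinAt hw)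
        (hb w hw).1.deriv.differentiableAt]
      ext
      simp [(hb w hw).2]
  set A := deriv φ t₁ with hA
  have haff : ∀ s ∈ ball t₁ r, φ s = A * s + (t₂ - A * t₁) := by
    intro s hs
    have h1 : (fun s => φ s - A * s) s = (fun s => φ s - A * s) t₁ := by
      refine (convex_ball t₁ r).is_const_of_fderivWithin_eq_zero (𝕜 := ℂ)
        (f := fun s => φ s - A * s) ?_ ?_ hs (mem_ball_self hr)
      · intro w hw
        exact ((hb w hw).1.differentiableAt.sub
          (differentiableAt_id.const_mul A)).differentiableWithinAt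
      · intro w hw
        have h2 : HasDerivAt (fun s => φ s - A * s) (deriv φ w - A * 1) w :=
          (hb w hw).1.differentiableAt.hasDerivAt.sub ((hasDerivAt_id w).const_mul A)
        rw [fderivWithin_eq_fderiv (isOpen_ball.uniqueDiffWithinAt hw) h2.differentiableAt]
        ext
        simp only [fderiv_eq_smul_deriv, h2.deriv, hconst w hw]
        simp
    have h1' : φ s - A * s = φ t₁ - A * t₁ := h1
    rw [hφ1] at h1'
    linear_combination h1'
  refine ⟨A, t₂ - A * t₁, hd1, by ring, ?_⟩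
  filter_upwards [hfφ, ball_mem_nhds t₁ hr] with s h1 h2
  rw [← haff s h2]
  exact h1

end Pool.Agent.MP_ae5b4e_an_SVC
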