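import Pool.Agent.Lib.MP_ae5b4e_an_SVC.Defs
import Pool.Agent.Lib.MP_ae5b4e_an_MERO.Countable

/-!
# MP_ae5b4e_an, project SV: single valued kernels, normalisation and the unit circle
-/

noncomputable section

namespace Pool.Agent.MP_ae5b4e_an_SVC

open Complex Set Filter Topology Metric

variable {K : ℂ → ℂ} {Ω : Set ℂ}

private theorem ev_ne_zero (w : ℂ) : ∀ᶠ x in 𝓝[≠] w, x ≠ 0 := by
  rcases eq_or_ne w 0 with h | h
  · rw [h]
    exact self_mem_nhdsWithin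
  · exact eventually_nhdsWithin_of_eventually_nhds (isOpen_ne.mem_nhds h)

/-- the kernel in the coordinate `x` of the conic -/
theorem SVal.kern (hK : SVal K Ω) : SVal (fun x => -x⁻¹ + K x / (2 * I * x)) Ω := by
  refine ⟨hK.op, fun x hx => ?_, fun z r g hr hg => ?_⟩
  · have hid : MeromorphicAt (fun x : ℂ => x) x := MeromorphicAt.id x
    exact hid.inv.neg.add ((hK.mer x hx).div ((MeromorphicAt.const (2 * I) x).mul hid))
  · rintro ⟨w, hw, he⟩
    have hg1 : MeromorphicOn (fun x => (g x + x⁻¹) * (2 * I * x)) (ball z r) := by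
      intro x hx
      have hid : MeromorphicAt (fun x : ℂ => x) x := MeromorphicAt.id x
      exact ((hg x hx).add hid.inv).mul ((MeromorphicAt.const (2 * I) x).mul hid)
    have he1 : (fun x => (g x + x⁻¹) * (2 * I * x)) =ᶠ[𝓝[≠] w] K := by
      filter_upwards [he, ev_ne_zero w] with x hx hx0
      rw [hx]
      field_simp
      ring
    obtain ⟨h1, h2⟩ := hK.max z r _ hr hg1 ⟨w, hw, he1⟩
    refine ⟨h1, fun v hv => ?_⟩
    filter_upwards [h2 v hv, ev_ne_zero v] with x hx hx0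
    rw [← hx]
    field_simp
    ring

/-- a kernel which agrees with `K` on an arc of the circle agrees with it near the circle -/
theorem circle_all (hK : SVal K Ω) {k : ℂ → ℂ} (hk : ∀ θ : ℝ, AnalyticAt ℂ k (exp (θ * I)))
    {θ₀ : ℝ} (h0 : exp (θ₀ * I) ∈ Ω)
    (he : ∃ᶠ θ : ℝ in 𝓝[≠] θ₀, k (exp (θ * I)) = K (exp (θ * I))) (θ : ℝ) :
    exp (θ * I) ∈ Ω ∧ k =ᶠ[𝓝[≠] exp (θ * I)] K := by
  have hcont : Continuous fun θ : ℝ => exp (θ * I) := by fun_prop
  have hop : IsOpen {θ : ℝ | exp (θ * I) ∈ Ω ∧ ∀ᶠ y in 𝓝[≠] exp (θ * I), k y = K y} := by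
    have h1 : IsOpen {x : ℂ | ∀ᶠ y in 𝓝[≠] x, k y = K y} :=
      isOpen_setOfPred_eventually_nhdsWithin
    exact (hK.op.inter h1).preimage hcont
  have hcl : IsClosed {θ : ℝ | exp (θ * I) ∈ Ω ∧ ∀ᶠ y in 𝓝[≠] exp (θ * I), k y = K y} := by
    refine isClosed_of_closure_subset fun t ht => ?_
    obtain ⟨r, hr, hb⟩ := Metric.eventually_nhds_iff_ball.1 (hk t).eventually_analyticAt
    have hV : (fun θ : ℝ => exp (θ * I)) ⁻¹' ball (exp (t * I)) r ∈ 𝓝 t :=
      hcont.continuousAt.preimage_mem_nhds (ball_mem_nhds _ hr)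
    obtain ⟨t', ht1, ht2⟩ := mem_closure_iff_nhds.1 ht _ hV
    obtain ⟨h1, h2⟩ := hK.max (exp (t * I)) r k hr (fun w hw => (hb w hw).meromorphicAt)
      ⟨exp (t' * I), ⟨ht1, ht2.1⟩, ht2.2⟩
    exact ⟨h1 (mem_ball_self hr), h2 _ (mem_ball_self hr)⟩
  have hne : {θ : ℝ | exp (θ * I) ∈ Ω ∧ ∀ᶠ y in 𝓝[≠] exp (θ * I), k y = K y}.Nonempty := by
    refine ⟨θ₀, h0, ?_⟩
    have hd1 : HasDerivAt (fun θ : ℝ => (θ : ℂ) * I) (1 * I) θ₀ :=
      (Complex.ofRealCLM.hasDerivAt).mul_const I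
    have hd2 : HasDerivAt (fun θ : ℝ => exp (θ * I)) (exp (θ₀ * I) * (1 * I)) θ₀ := hd1.cexp
    have ht : Tendsto (fun θ : ℝ => exp (θ * I)) (𝓝[≠] θ₀) (𝓝[≠] (exp (θ₀ * I))) :=
      hd2.tendsto_nhdsNE (mul_ne_zero (exp_ne_zero _) (by simp))
    have hf : ∃ᶠ y in 𝓝[≠] exp (θ₀ * I), k y = K y := ht.frequently he
    exact (MeromorphicAt.frequently_eq_iff_eventuallyEq (hk θ₀).meromorphicAt
      (hK.mer _ h0)).1 hf
  have huniv := IsClopen.eq_univ ⟨hcl, hop⟩ hne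
  have hθ : θ ∈ {θ : ℝ | exp (θ * I) ∈ Ω ∧ ∀ᶠ y in 𝓝[≠] exp (θ * I), k y = K y} := by
    rw [huniv]
    exact mem_univ θ
  exact hθ

/-- the set of the points where `K` is not analytic is countable if the complement of `Ω` is -/
theorem SVal.countable (hK : SVal K Ω) (h : Ωᶜ.Countable) :
    {z | ¬ AnalyticAt ℂ K z}.Countable := by
  have h1 : (Ω ∩ {z | ¬ AnalyticAt ℂ K z}).Countable :=
    Pool.Agent.MP_ae5b4e_an_MERO.CN.countable_of_eventually (D := Ω) inter_subset_left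
      fun t ht => by
        filter_upwards [(hK.mer t ht).eventually_analyticAt] with y hy hy2
        exact hy2.2 hy
  refine (h.union h1).mono fun z hz => ?_
  by_cases hzo : z ∈ Ω
  · exact Or.inr ⟨hzo, hz⟩
  · exact Or.inl hzo

end Pool.Agent.MP_ae5b4e_an_SVC
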