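import Pool.Agent.Lib.MP_ae5b4e_an_SVC.Defs
import Pool.Agent.Lib.MP_ae5b4e_an_NBT.Reg1

/-!
# MP_ae5b4e_an, project SV: extension of the family if all points of the boundary line are regular
-/

noncomputable section

namespace Pool.Agent.MP_ae5b4e_an_SVC

open Complex Set Filter Topology Metric
open Pool.Agent.MP_ae5b4e_an_NBT

variable {k : ℂ → ℂ} {F G : ℂ × ℂ → ℂ} {c h : ℝ}

private theorem extR_mem (hE : ConE k F c h G) {t : ℂ} (ht : |t.im| < h) :
    ((t, 0) : ℂ × ℂ) ∈ DF F c (c / 4) :=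
  (DK_shift hE.toCon (mem_DK_zero hE ht)).1

private theorem extR_strip (h : ℝ) : {t : ℂ | |t.im| < h} = St (-h) h := by
  ext t
  simp only [mem_ofPred_eq, mem_St, abs_lt]

/-- `G` has all integers as periods. -/
private theorem extR_per_nat (hE : ConE k F c h G) (n : ℕ) : ∀ {t : ℂ}, |t.im| < h →
    EqM (fun q => G (q.1 + n, q.2)) G (t, 0) := by
  induction n with
  | zero =>
    intro t ht
    simp only [Nat.cast_zero, add_zero, Prod.mk.eta]
    exact EqM.refl _ _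
  | succ n ih =>
    intro t ht
    have h1 : |(t + 1).im| < h := by simpa using ht
    have h2 : EqM (fun q => G (q.1 + n, q.2)) G ((t, (0 : ℂ)).1 + (fun _ => (1 : ℂ)) (t, (0 : ℂ)).2,
      (t, (0 : ℂ)).2) := ih h1
    have h3 := EqM.shift (h := fun _ => (1 : ℂ)) (differentiable_const _) h2
    have h4 := h3.trans (hE.perG _ (extR_mem hE ht))
    have h5 : (fun q : ℂ × ℂ => G (q.1 + ((n + 1 : ℕ) : ℂ), q.2)) =
        fun q => G (q.1 + 1 + n, q.2) := by
      funext q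
      push_cast
      congr 2
      ring
    rw [h5]
    exact h4

private theorem extR_per_neg (hE : ConE k F c h G) (n : ℕ) : ∀ {t : ℂ}, |t.im| < h →
    EqM (fun q => G (q.1 + -n, q.2)) G (t, 0) := by
  intro t ht
  have h1 : |(t + -n).im| < h := by simpa using ht
  have h2 : EqM (fun q => G (q.1 + n, q.2)) G
    ((t, (0 : ℂ)).1 + (fun _ => (-n : ℂ)) (t, (0 : ℂ)).2, (t, (0 : ℂ)).2) :=
      extR_per_nat hE n h1
  have h3 := EqM.shift (h := fun _ => (-n : ℂ)) (differentiable_const _) h2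
  have h5 : (fun q : ℂ × ℂ => G (q.1 + (-n : ℂ) + n, q.2)) = G := by
    funext q
    simp
  simp only at h3
  rw [h5] at h3
  exact h3.symm

private theorem extR_per (hE : ConE k F c h G) (n : ℤ) {t : ℂ} (ht : |t.im| < h) :
    EqM (fun q => G (q.1 + n, q.2)) G (t, 0) := by
  obtain ⟨m, rfl | rfl⟩ := n.eq_nat_or_neg
  · simpa using extR_per_nat hE m ht
  · simpa using extR_per_neg hE m ht

/-- Local extensions with a uniform radius. -/
private theorem extR_unif (hE : ConE k F c h G) (hR : ∀ b : ℂ, b.im = h → RegAt G h b) :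
    ∃ ε > 0, ∀ x : ℝ, x ∈ Icc (0 : ℝ) 1 → ∃ g : ℂ × ℂ → ℂ,
      Mer g (ball ((x : ℂ) + h * I) ε ×ˢ ball 0 ε) ∧
        ∀ t ∈ ball ((x : ℂ) + h * I) ε, |t.im| < h → EqM g G (t, 0) := by
  have h1 : ∀ x : ℝ, ∃ δ > 0, ∃ g : ℂ × ℂ → ℂ, Mer g (ball ((x : ℂ) + h * I) δ ×ˢ ball 0 δ) ∧
      ∀ t ∈ ball ((x : ℂ) + h * I) δ, |t.im| < h → EqM g G (t, 0) := by
    intro x
    obtain ⟨δ, hδ, g, hg, t₁, ht₁, ht₁h, heq⟩ := hR ((x : ℂ) + h * I) (by simp)
    refine ⟨δ, hδ, g, hg, fun t ht hth => ?_⟩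
    set S : Set ℂ := ball ((x : ℂ) + h * I) δ ∩ {t : ℂ | |t.im| < h} with hS
    have hSc : Convex ℝ S := by
      rw [hS, extR_strip]
      exact (convex_ball _ _).inter (convex_St _ _)
    have hpre : IsPreconnected (S ×ˢ ({0} : Set ℂ)) :=
      hSc.isPreconnected.prod isPreconnected_singleton
    have hm1 : Mer g (S ×ˢ ({0} : Set ℂ)) := by
      rintro ⟨u, v⟩ ⟨hu, hv⟩
      simp only [mem_singleton_iff] at hv
      subst hv
      exact hg _ ⟨hu.1, mem_ball_self hδ⟩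
    have hm2 : Mer G (S ×ˢ ({0} : Set ℂ)) := by
      rintro ⟨u, v⟩ ⟨hu, hv⟩
      simp only [mem_singleton_iff] at hv
      subst hv
      exact hE.merG _ (extR_mem hE hu.2)
    exact Mer.eqM hpre hm1 hm2 (p := (t₁, 0)) ⟨⟨ht₁, ht₁h⟩, rfl⟩ heq (t, 0) ⟨⟨ht, hth⟩, rfl⟩
  choose δ hδ g hg1 hg2 using h1
  obtain ⟨T, -, hT⟩ := isCompact_Icc (a := (0 : ℝ)) (b := 1) |>.elim_nhds_subcover
    (fun x => ball x (δ x / 2)) (fun x _ => ball_mem_nhds x (half_pos (hδ x)))
  obtain ⟨ε, hε, hεT⟩ : ∃ ε > 0, ∀ x ∈ T, ε ≤ δ x / 2 := by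
    clear hT
    induction T using Finset.induction_on with
    | empty => exact ⟨1, one_pos, by simp⟩
    | insert a s ha ih =>
      obtain ⟨ε, hε, h2⟩ := ih
      refine ⟨min ε (δ a / 2), lt_min hε (half_pos (hδ a)), fun x hx => ?_⟩
      rcases Finset.mem_insert.1 hx with rfl | hx
      · exact min_le_right _ _
      · exact (min_le_left _ _).trans (h2 x hx)
  refine ⟨ε, hε, fun x hx => ?_⟩
  obtain ⟨y, hy, hxy⟩ := mem_iUnion₂.1 (hT hx)
  have h3 := hεT y hy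
  have hsub : ball ((x : ℂ) + h * I) ε ⊆ ball ((y : ℂ) + h * I) (δ y) := by
    intro z hz
    rw [mem_ball] at hz hxy ⊢
    have h4 : dist ((x : ℂ) + h * I) ((y : ℂ) + h * I) = dist x y := by
      rw [dist_add_right, Complex.dist_eq, ← ofReal_sub, Complex.norm_real, Real.dist_eq,
        Real.norm_eq_abs]
    have h5 := dist_triangle z ((x : ℂ) + h * I) ((y : ℂ) + h * I)
    rw [h4] at h5
    linarith
  have hε' : ε ≤ δ y := by
    have := hδ y
    linarith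
  exact ⟨g y, (hg1 y).mono (prod_mono hsub (ball_subset_ball hε')),
    fun t ht => hg2 y t (hsub ht)⟩

/-- The same for all real points. -/
private theorem extR_all (hE : ConE k F c h G) (hR : ∀ b : ℂ, b.im = h → RegAt G h b) :
    ∃ ε > 0, ∀ x : ℝ, ∃ g : ℂ × ℂ → ℂ,
      Mer g (ball ((x : ℂ) + h * I) ε ×ˢ ball 0 ε) ∧
        ∀ t ∈ ball ((x : ℂ) + h * I) ε, |t.im| < h → EqM g G (t, 0) := by
  obtain ⟨ε, hε, h1⟩ := extR_unif hE hR
  refine ⟨ε, hε, fun x => ?_⟩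
  obtain ⟨g, hg1, hg2⟩ := h1 (Int.fract x) ⟨Int.fract_nonneg x, (Int.fract_lt_one x).le⟩
  set n : ℤ := ⌊x⌋ with hn
  have hx : (x : ℂ) = ((Int.fract x : ℝ) : ℂ) + n := by
    have : x = Int.fract x + n := (Int.fract_add_floor x).symm
    conv_lhs => rw [this]
    push_cast
    ring
  have hmem : ∀ t, t ∈ ball ((x : ℂ) + h * I) ε →
      t + -(n : ℂ) ∈ ball (((Int.fract x : ℝ) : ℂ) + h * I) ε := by
    intro t ht
    rw [mem_ball, Complex.dist_eq] at ht ⊢
    rw [hx] at ht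
    convert ht using 2
    ring
  refine ⟨fun q => g (q.1 + -(n : ℂ), q.2), ?_, fun t ht hth => ?_⟩
  · rintro ⟨t, ρ⟩ ⟨ht, hρ⟩
    have h2 : MerAt g ((t, ρ).1 + (fun _ => -(n : ℂ)) (t, ρ).2, (t, ρ).2) :=
      hg1 _ ⟨hmem t ht, hρ⟩
    exact MerAt.shift (h := fun _ => -(n : ℂ)) (differentiable_const _) h2
  · have h3 : |(t + -(n : ℂ)).im| < h := by simpa using hth
    have h2 : EqM g G ((t, (0 : ℂ)).1 + (fun _ => -(n : ℂ)) (t, (0 : ℂ)).2, (t, (0 : ℂ)).2) :=
      hg2 _ (hmem t ht) h3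
    have h4 := EqM.shift (h := fun _ => -(n : ℂ)) (differentiable_const _) h2
    have h5 := extR_per hE (-n) hth
    refine h4.trans ?_
    simpa using h5

theorem ext_of_reg (hE : ConE k F c h G) (hR : ∀ b : ℂ, b.im = h → RegAt G h b) :
    ∃ y > h, ExtM F c (c / 4) y 0 := by
  obtain ⟨ε₀, hε₀, hloc₀⟩ := extR_all hE hR
  have hc : 0 < c := hE.pos
  have hch : c < h := hE.hc
  set ε : ℝ := min ε₀ (h - c) with hεd
  have hε : 0 < ε := lt_min hε₀ (by linarith)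
  have hεc : ε ≤ h - c := min_le_right _ _
  have hεε : ε ≤ ε₀ := min_le_left _ _
  set y₀ : ℝ := h - ε / 8 with hy₀
  have hy₀h : y₀ < h := by linarith
  have hcy : c < y₀ := by linarith
  obtain ⟨δ, hδ, hδc, G', hG'm, hG'e⟩ := hE.ext y₀ hy₀h
  have hExt : ∀ ρ ∈ ball (0 : ℂ) δ, ExtM F c (c / 4) y₀ ρ := by
    intro ρ hρ
    rw [mem_ball] at hρ
    have hsub : ball ρ (δ - dist ρ 0) ⊆ ball 0 δ := by
      intro z hz
      rw [mem_ball] at hz ⊢
      have := dist_triangle z ρ 0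
      linarith
    refine ⟨δ - dist ρ 0, by linarith, hsub.trans hδc, G', ?_, ?_⟩
    · exact hG'm.mono (prod_mono_right hsub)
    · exact fun p hp => hG'e p ⟨hp.1, hsub hp.2⟩
  have hDF : St (-c) y₀ ×ˢ ball (0 : ℂ) δ ⊆ DF F c (c / 4) := by
    rintro ⟨t, ρ⟩ ⟨ht, hρ⟩
    refine ⟨hδc hρ, ⟨y₀, ht.2, hExt ρ hρ⟩, ⟨y₀, ?_, hExt _ ?_⟩⟩
    · have := ht.1
      show -t.im < y₀
      linarith
    · rw [mem_ball, dist_zero_right] at hρ ⊢
      simpa using hρ
  choose g hg1 hg2 using hloc₀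
  set r : ℝ := min δ ε with hr
  have hr0 : 0 < r := lt_min hδ hε
  have hrδ : ball (0 : ℂ) r ⊆ ball 0 δ := ball_subset_ball (min_le_left _ _)
  have hrε : ball (0 : ℂ) r ⊆ ball 0 ε₀ := ball_subset_ball ((min_le_right _ _).trans hεε)
  -- the pieces
  let S : Option ℝ → Set ℂ := fun i => i.elim (St (-c) y₀) fun x => ball ((x : ℂ) + h * I) ε
  let H : Option ℝ → ℂ × ℂ → ℂ := fun i => i.elim G g
  have hSo : ∀ i, IsOpen (S i) := by
    rintro (_ | x)
    · exact isOpen_St _ _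
    · exact isOpen_ball
  have hSc : ∀ i, Convex ℝ (S i) := by
    rintro (_ | x)
    · exact convex_St _ _
    · exact convex_ball _ _
  have hSb : ∀ x : ℝ, S (some x) ⊆ ball ((x : ℂ) + h * I) ε₀ := fun x =>
    ball_subset_ball hεε
  have hHm : ∀ i, Mer (H i) (S i ×ˢ ball 0 r) := by
    rintro (_ | x)
    · exact hE.merG.mono ((prod_mono_right hrδ).trans hDF)
    · exact (hg1 x).mono (prod_mono (hSb x) hrε)
  have hHe : ∀ i, ∀ t ∈ S i, |t.im| < h → EqM (H i) G (t, 0) := by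
    rintro (_ | x) t ht hth
    · exact EqM.refl _ _
    · exact hg2 x t (hSb x ht) hth
  have hpt : ∀ i j, (S i ∩ S j).Nonempty → ∃ t ∈ S i ∩ S j, |t.im| < h := by
    have hnone : ∀ t ∈ S none, |t.im| < h := by
      intro t ht
      have h1 : -c < t.im := ht.1
      have h2 : t.im < y₀ := ht.2
      rw [abs_lt]
      constructor <;> linarith
    have hdist : ∀ (x : ℝ) (q : ℂ), |q.re - x| ≤ dist q ((x : ℂ) + h * I) := by
      intro x q
      rw [Complex.dist_eq]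
      have := abs_re_le_norm (q - ((x : ℂ) + h * I))
      simpa using this
    rintro (_ | x) (_ | x') ⟨q, hq1, hq2⟩
    · exact ⟨q, ⟨hq1, hq2⟩, hnone q hq1⟩
    · exact ⟨q, ⟨hq1, hq2⟩, hnone q hq1⟩
    · exact ⟨q, ⟨hq1, hq2⟩, hnone q hq2⟩
    · have h1 : |q.re - x| < ε := (hdist x q).trans_lt hq1
      have h2 : |q.re - x'| < ε := (hdist x' q).trans_lt hq2
      obtain ⟨η, hη0, hη1, hη2, hη3⟩ : ∃ η > 0, |q.re - x| + η < ε ∧ |q.re - x'| + η < ε ∧
          η < h := by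
        refine ⟨min (min ((ε - |q.re - x|) / 2) ((ε - |q.re - x'|) / 2)) (h / 2), ?_, ?_, ?_, ?_⟩
        · refine lt_min (lt_min ?_ ?_) ?_ <;> linarith
        · have := (min_le_left (min ((ε - |q.re - x|) / 2) ((ε - |q.re - x'|) / 2)) (h / 2)).trans
            (min_le_left _ _)
          linarith
        · have := (min_le_left (min ((ε - |q.re - x|) / 2) ((ε - |q.re - x'|) / 2)) (h / 2)).trans
            (min_le_right _ _)
          linarith
        · have := min_le_right (min ((ε - |q.re - x|) / 2) ((ε - |q.re - x'|) / 2)) (h / 2)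
          linarith
      have hball : ∀ x : ℝ, |q.re - x| + η < ε →
          (((q.re : ℝ) : ℂ) + ((h - η : ℝ) : ℂ) * I) ∈ ball ((x : ℂ) + h * I) ε := by
        intro x hx
        rw [mem_ball, Complex.dist_eq]
        have h3 : ((q.re : ℝ) : ℂ) + ((h - η : ℝ) : ℂ) * I - ((x : ℂ) + h * I) =
            ((q.re - x : ℝ) : ℂ) + ((-η : ℝ) : ℂ) * I := by
          push_cast
          ring
        rw [h3]
        refine (norm_add_le _ _).trans_lt ?_
        rw [norm_mul, norm_I, mul_one, Complex.norm_real, Complex.norm_real, Real.norm_eq_abs,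
          Real.norm_eq_abs, abs_neg, abs_of_pos hη0]
        exact hx
      refine ⟨((q.re : ℝ) : ℂ) + ((h - η : ℝ) : ℂ) * I, ⟨hball x hη1, hball x' hη2⟩, ?_⟩
      have h4 : (((q.re : ℝ) : ℂ) + ((h - η : ℝ) : ℂ) * I).im = h - η := by simp
      rw [h4, abs_lt]
      constructor <;> linarith
  obtain ⟨F', hF'm, hF'e⟩ := exists_glue (fun i => S i ×ˢ ball (0 : ℂ) r)
    (fun i => (hSo i).prod isOpen_ball) H hHm (by
      intro i j q hq
      obtain ⟨t, ht, hth⟩ := hpt i j ⟨q.1, hq.1.1, hq.2.1⟩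
      have hpre : IsPreconnected ((S i ∩ S j) ×ˢ ball (0 : ℂ) r) :=
        ((hSc i).inter (hSc j)).isPreconnected.prod (convex_ball _ _).isPreconnected
      refine Mer.eqM hpre ((hHm i).mono (prod_mono_left inter_subset_left))
        ((hHm j).mono (prod_mono_left inter_subset_right)) (p := (t, 0))
        ⟨ht, mem_ball_self hr0⟩ ?_ q ⟨⟨hq.1.1, hq.2.1⟩, hq.1.2⟩
      exact (hHe i t ht.1 hth).trans (hHe j t ht.2 hth).symm)
  refine ⟨h + ε / 2, by linarith, r, hr0, hrδ.trans hδc, F', hF'm.mono ?_, ?_⟩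
  · rintro ⟨t, ρ⟩ ⟨ht, hρ⟩
    by_cases hty : t.im < y₀
    · exact mem_iUnion.2 ⟨none, ⟨ht.1, hty⟩, hρ⟩
    · push Not at hty
      refine mem_iUnion.2 ⟨some t.re, ?_, hρ⟩
      show t ∈ ball ((t.re : ℂ) + h * I) ε
      have h1 : t.im < h + ε / 2 := ht.2
      rw [mem_ball, Complex.dist_eq]
      have h3 : t - ((t.re : ℂ) + h * I) = ((t.im - h : ℝ) : ℂ) * I := by
        conv_lhs => rw [← re_add_im t]
        push_cast
        simp only [add_re, ofReal_re, mul_re, I_re, mul_zero, ofReal_im, I_im, mul_one, sub_self,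
          add_zero]
        ring
      rw [h3, norm_mul, norm_I, mul_one, Complex.norm_real, Real.norm_eq_abs, abs_lt]
      constructor <;> linarith
  · rintro ⟨t, ρ⟩ ⟨ht, hρ⟩
    have h1 : t.im < c := ht.2.trans_le (min_le_left _ _)
    have h2 : ((t, ρ) : ℂ × ℂ) ∈ S none ×ˢ ball (0 : ℂ) r := ⟨⟨ht.1, h1.trans hcy⟩, hρ⟩
    have h3 : EqM F' G (t, ρ) := hF'e none (t, ρ) h2
    exact h3.trans (hE.eqG _ ⟨⟨ht.1, h1⟩, hδc (hrδ hρ)⟩)

end Pool.Agent.MP_ae5b4e_an_SVC
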