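import Pool.Agent.Lib.MP_ae5b4e_an_SVC.Strip
import Pool.Agent.Lib.MP_ae5b4e_an_NBT.LabD

/-!
# MP_ae5b4e_an, project SV: a curve which is injective modulo one is locally univalent
-/

noncomputable section

namespace Pool.Agent.MP_ae5b4e_an_SVC

open Complex Set Filter Topology Metric
open Pool.Agent.MP_ae5b4e_an_NBT (St isOpen_St convex_St LU)

variable {f : ℂ → ℂ} {h : ℝ}

/-- an analytic root of a function without zeros -/
private theorem luf_root {v : ℂ → ℂ} {t : ℂ} (hv : AnalyticAt ℂ v t) (h0 : v t ≠ 0) {m : ℕ}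
    (hm : m ≠ 0) :
    ∃ w : ℂ → ℂ, AnalyticAt ℂ w t ∧ w t ≠ 0 ∧ ∀ᶠ s in 𝓝 t, w s ^ m = v s := by
  obtain ⟨c, hc⟩ := IsAlgClosed.exists_pow_nat_eq (v t) (Nat.pos_of_ne_zero hm)
  have hc0 : c ≠ 0 := by
    rintro rfl
    rw [zero_pow hm] at hc
    exact h0 hc.symm
  have hm' : (m : ℂ) ≠ 0 := Nat.cast_ne_zero.mpr hm
  refine ⟨fun s => c * cexp (Complex.log (v s / v t) / m), ?_, ?_, ?_⟩
  · have h1 : AnalyticAt ℂ (fun s => v s / v t) t := hv.div analyticAt_const h0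
    have h2 : AnalyticAt ℂ (fun s => Complex.log (v s / v t)) t := by
      refine h1.clog ?_
      rw [div_self h0]
      exact one_mem_slitPlane
    exact analyticAt_const.mul ((h2.div analyticAt_const hm').cexp)
  · exact mul_ne_zero hc0 (Complex.exp_ne_zero _)
  · filter_upwards [hv.continuousAt.eventually_ne h0] with s hs
    rw [mul_pow, ← Complex.exp_nat_mul, mul_div_cancel₀ _ hm',
      Complex.exp_log (div_ne_zero hs h0), hc, mul_div_cancel₀ _ h0]

/-- a function with a multiple zero takes some value twice -/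
private theorem luf_two {φ v : ℂ → ℂ} {t : ℂ} (hv : AnalyticAt ℂ v t) (h0 : v t ≠ 0) {m : ℕ}
    (hm : 2 ≤ m) (hφ : ∀ᶠ s in 𝓝 t, φ s = (s - t) ^ m * v s) {P : ℂ → Prop}
    (hP : ∀ᶠ s in 𝓝[≠] t, P s) :
    ∃ t₁ t₂, t₁ ≠ t₂ ∧ P t₁ ∧ P t₂ ∧ φ t₁ = φ t₂ := by
  have hm0 : m ≠ 0 := by omega
  obtain ⟨w, hw, hw0, hwm⟩ := luf_root hv h0 hm0
  obtain ⟨ψ, hψ⟩ : ∃ ψ : ℂ → ℂ, ψ = fun s => (s - t) * w s := ⟨_, rfl⟩
  have hψ0 : ψ t = 0 := by
    rw [hψ]
    simp
  have hd : HasStrictDerivAt ψ (w t) t := by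
    have h0 : HasStrictDerivAt (fun s : ℂ => s - t) 1 t := (hasStrictDerivAt_id t).sub_const t
    have h1 := HasStrictDerivAt.mul h0 hw.hasStrictDerivAt
    rw [hψ]
    refine h1.congr_deriv ?_
    simp
  have hmap := hd.map_nhds_eq hw0
  rw [hψ0] at hmap
  have hS : ∀ᶠ s in 𝓝 t, (s ≠ t → P s) ∧ φ s = ψ s ^ m := by
    have h1 := eventually_nhdsWithin_iff.mp hP
    filter_upwards [h1, hφ, hwm] with s h1 h2 h3
    refine ⟨h1, ?_⟩
    rw [h2, ← h3, hψ, mul_pow]
  have hS1 : ∀ᶠ ε in 𝓝 (0:ℂ), ∃ s, ((s ≠ t → P s) ∧ φ s = ψ s ^ m) ∧ ψ s = ε := by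
    rw [← hmap, eventually_map]
    filter_upwards [hS] with s hs
    exact ⟨s, hs, rfl⟩
  have hζ := Complex.isPrimitiveRoot_exp m hm0
  generalize cexp (2 * Real.pi * I / m) = ζ at hζ
  have hζm : ζ ^ m = 1 := hζ.pow_eq_one
  have hζ1 : ζ ≠ 1 := hζ.ne_one (by omega)
  have hζ0 : ζ ≠ 0 := hζ.ne_zero hm0
  have hS2 : ∀ᶠ ε in 𝓝 (0:ℂ), ∃ s, ((s ≠ t → P s) ∧ φ s = ψ s ^ m) ∧ ψ s = ζ * ε := by
    have h1 : Tendsto (fun ε : ℂ => ζ * ε) (𝓝 0) (𝓝 0) := by
      have h2 : Continuous fun ε : ℂ => ζ * ε := by fun_prop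
      have h3 := h2.tendsto 0
      rwa [mul_zero] at h3
    exact h1.eventually hS1
  have hS3 : ∃ ε : ℂ, ((∃ s, ((s ≠ t → P s) ∧ φ s = ψ s ^ m) ∧ ψ s = ε) ∧
      ∃ s, ((s ≠ t → P s) ∧ φ s = ψ s ^ m) ∧ ψ s = ζ * ε) ∧ ε ≠ 0 := by
    have h1 : ∀ᶠ ε : ℂ in 𝓝[≠] (0:ℂ), ((∃ s, ((s ≠ t → P s) ∧ φ s = ψ s ^ m) ∧ ψ s = ε) ∧
      ∃ s, ((s ≠ t → P s) ∧ φ s = ψ s ^ m) ∧ ψ s = ζ * ε) :=
      (hS1.and hS2).filter_mono nhdsWithin_le_nhds
    have h2 : ∀ᶠ ε : ℂ in 𝓝[≠] (0:ℂ), ε ≠ 0 := self_mem_nhdsWithin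
    exact (h1.and h2).exists
  obtain ⟨ε, ⟨⟨t₁, ⟨h11, h12⟩, h13⟩, ⟨t₂, ⟨h21, h22⟩, h23⟩⟩, hε⟩ := hS3
  refine ⟨t₁, t₂, ?_, ?_, ?_, ?_⟩
  · rintro rfl
    rw [h13] at h23
    apply hζ1
    have h3 : (ζ - 1) * ε = 0 := by
      rw [sub_mul, one_mul, ← h23, sub_self]
    rcases mul_eq_zero.mp h3 with h4 | h4
    · exact sub_eq_zero.mp h4
    · exact absurd h4 hε
  · apply h11
    rintro rfl
    exact hε (h13.symm.trans hψ0)
  · apply h21
    rintro rfl
    rw [hψ0] at h23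
    exact mul_ne_zero hζ0 hε h23.symm
  · rw [h12, h22, h13, h23, mul_pow, hζm, one_mul]

theorem lu_of_inj (H : Crv f h) (hi : InjR f h) :
    ∃ g : ℂ → ℂ, LU g (St (-h) h) ∧ (∀ t ∈ St (-h) h, g =ᶠ[𝓝[≠] t] f) ∧ ∀ t : ℝ, g t = f t := by
  obtain ⟨g, hg⟩ : ∃ g : ℂ → ℂ, g = toMeromorphicNFOn f (St (-h) h) := ⟨_, rfl⟩
  have hreal : ∀ t : ℝ, (t : ℂ) ∈ St (-h) h := by
    intro t
    have := H.pos
    constructor
    · rw [ofReal_im]
      linarith
    · rw [ofReal_im]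
      exact this
  have hgf : ∀ t ∈ St (-h) h, g =ᶠ[𝓝[≠] t] f := by
    intro t ht
    rw [hg]
    exact H.mer.toMeromorphicNFOn_eq_self_on_nhdsNE ht
  refine ⟨g, ?_, hgf, ?_⟩
  · intro t ht
    have hP : ∀ᶠ s in 𝓝[≠] t, (s ∈ St (-h) h ∧ Rg f s ∧ g s = f s) ∧ dist s t < 1 / 2 := by
      have h1 : ∀ᶠ s in 𝓝[≠] t, s ∈ St (-h) h :=
        ((isOpen_St _ _).mem_nhds ht : St (-h) h ∈ 𝓝 t) |> mem_nhdsWithin_of_mem_nhds
      have h2 : ∀ᶠ s in 𝓝[≠] t, dist s t < 1 / 2 :=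
        mem_nhdsWithin_of_mem_nhds (ball_mem_nhds t (by norm_num))
      filter_upwards [h1, H.reg ht, hgf t ht, h2] with s h1 h3 h4 h5
      exact ⟨⟨h1, h3, h4⟩, h5⟩
    have hkey : ∀ t₁ t₂, t₁ ≠ t₂ →
        ((t₁ ∈ St (-h) h ∧ Rg f t₁ ∧ g t₁ = f t₁) ∧ dist t₁ t < 1 / 2) →
        ((t₂ ∈ St (-h) h ∧ Rg f t₂ ∧ g t₂ = f t₂) ∧ dist t₂ t < 1 / 2) →
        g t₁ = g t₂ → False := by
      rintro t₁ t₂ hne ⟨⟨a1, a2, a3⟩, a4⟩ ⟨⟨b1, b2, b3⟩, b4⟩ hgg
      obtain ⟨n, hn⟩ := hi t₁ a1 t₂ b1 a2 b2 (by rw [← a3, ← b3, hgg])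
      have h1 : dist t₂ t₁ < 1 := by
        have h2 := dist_triangle_right t₂ t₁ t
        linarith
      rw [hn, dist_eq_norm, add_sub_cancel_left, Complex.norm_intCast] at h1
      have h3 : n = 0 := by
        rw [← Int.cast_abs] at h1
        have h4 : |n| < 1 := by exact_mod_cast h1
        exact Int.abs_lt_one_iff.mp h4
      rw [h3] at hn
      apply hne
      rw [hn]
      simp
    have hnf : MeromorphicNFAt g t := by
      rw [hg]
      exact meromorphicNFOn_toMeromorphicNFOn f (St (-h) h) ht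
    have hnc : ∀ x : ℂ, ¬ ∀ᶠ s in 𝓝[≠] t, g s = x := by
      intro x hx
      apply H.not_const ht x
      filter_upwards [hx, hgf t ht] with s h1 h2
      rw [← h2, h1]
    rcases hnf with h0 | ⟨n, u, hu, hu0, hgu⟩
    · exact absurd (h0.filter_mono nhdsWithin_le_nhds) (hnc 0)
    · rcases le_or_gt 0 n with hn | hn
      · -- analytic
        have han : AnalyticAt ℂ g t := by
          rw [analyticAt_congr hgu]
          exact (AnalyticAt.zpow_nonneg (by fun_prop) hn).smul hu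
        left
        refine ⟨han, ?_⟩
        intro hd
        have h1 : AnalyticAt ℂ (fun s => g s - g t) t := han.sub analyticAt_const
        have h2 : analyticOrderAt (fun s => g s - g t) t ≠ ⊤ := by
          intro h3
          rw [analyticOrderAt_eq_top] at h3
          apply hnc (g t)
          filter_upwards [h3.filter_mono nhdsWithin_le_nhds] with s hs
          exact sub_eq_zero.mp hs
        obtain ⟨m, hm⟩ := ENat.ne_top_iff_exists.mp h2
        obtain ⟨v, hv, hv0, hgv⟩ := (h1.analyticOrderAt_eq_natCast).mp hm.symm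
        have hm2 : 2 ≤ m := by
          by_contra hc
          have hm01 : m = 0 ∨ m = 1 := by omega
          rcases hm01 with rfl | rfl
          · have h4 := hgv.self_of_nhds
            simp at h4
            exact hv0 h4.symm
          · have h5 : HasDerivAt (fun s => (s - t) ^ 1 • v s) (v t) t := by
              have h6 := ((hasDerivAt_id t).sub_const t).mul hv.differentiableAt.hasDerivAt
              have h7 : (fun s => (s - t) ^ 1 • v s) = fun s => (id s - t) * v s := by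
                funext s
                rw [pow_one, smul_eq_mul, id]
              rw [h7]
              refine h6.congr_deriv ?_
              simp
            have h8 : HasDerivAt (fun s => g s - g t) (v t) t := h5.congr_of_eventuallyEq hgv
            have h9 : HasDerivAt (fun s => g s - g t) (deriv g t) t :=
              han.differentiableAt.hasDerivAt.sub_const (g t)
            rw [hd] at h9
            exact hv0 (h8.unique h9)
        obtain ⟨t₁, t₂, hne, p1, p2, hφ⟩ := luf_two hv hv0 hm2 hgv hP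
        exact hkey t₁ t₂ hne p1 p2 (sub_left_injective hφ)
      · -- pole
        right
        have hgt : g t = 0 := by
          rw [hgu.eq_of_nhds]
          simp [zero_zpow n hn.ne]
        obtain ⟨m, hm⟩ : ∃ m : ℕ, n = -(m : ℤ) := ⟨n.natAbs, by omega⟩
        have hm1 : 1 ≤ m := by omega
        have hiu : AnalyticAt ℂ (fun s => (u s)⁻¹) t := hu.inv hu0
        have hinv : ∀ᶠ s in 𝓝 t, (g s)⁻¹ = (s - t) ^ m * (u s)⁻¹ := by
          filter_upwards [hgu] with s hs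
          rw [hs, hm]
          show ((s - t) ^ (-(m : ℤ)) * u s)⁻¹ = _
          rw [mul_inv, zpow_neg, inv_inv, zpow_natCast]
        have han : AnalyticAt ℂ (fun s => (g s)⁻¹) t := by
          have h1 : (fun s => (g s)⁻¹) =ᶠ[𝓝 t] fun s => (s - t) ^ m * (u s)⁻¹ := hinv
          rw [analyticAt_congr h1]
          exact (by fun_prop : AnalyticAt ℂ (fun s => (s - t) ^ m) t).mul hiu
        refine ⟨hgt, han, ?_⟩
        rcases Nat.lt_or_ge m 2 with hm2 | hm2
        · have hm3 : m = 1 := by omega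
          subst hm3
          have h5 : HasDerivAt (fun s => (s - t) ^ 1 * (u s)⁻¹) ((u t)⁻¹) t := by
            have h6 := ((hasDerivAt_id t).sub_const t).mul hiu.differentiableAt.hasDerivAt
            have h7 : (fun s => (s - t) ^ 1 * (u s)⁻¹) = fun s => (id s - t) * (u s)⁻¹ := by
              funext s
              rw [pow_one, id]
            rw [h7]
            refine h6.congr_deriv ?_
            simp
          have h8 : HasDerivAt (fun s => (g s)⁻¹) ((u t)⁻¹) t := h5.congr_of_eventuallyEq hinv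
          rw [h8.deriv]
          exact inv_ne_zero hu0
        · exfalso
          obtain ⟨t₁, t₂, hne, p1, p2, hφ⟩ := luf_two hiu (inv_ne_zero hu0) hm2 hinv hP
          exact hkey t₁ t₂ hne p1 p2 (inv_injective hφ)
  · intro t
    have h1 : MeromorphicNFAt f (t : ℂ) := (H.an t).meromorphicNFAt
    rw [hg, toMeromorphicNFOn_eq_toMeromorphicNFAt H.mer (hreal t), toMeromorphicNFAt_eq_self.2 h1]

end Pool.Agent.MP_ae5b4e_an_SVC
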