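import Pool.Agent.Lib.MP_ae5b4e_an_SVC.Strip

/-!
# MP_ae5b4e_an, project SV: the maximal height
-/

noncomputable section

namespace Pool.Agent.MP_ae5b4e_an_SVC

open Complex Set Filter Topology Metric
open Pool.Agent.MP_ae5b4e_an_NBT (St isOpen_St convex_St)

private theorem maxE_zero {y : ℝ} (h0 : 0 < y) : (0 : ℂ) ∈ St (-y) y := by
  constructor
  · show -y < (0 : ℂ).im
    simpa using h0
  · show (0 : ℂ).im < y
    simpa using h0

private theorem maxE_real {y : ℝ} (h0 : 0 < y) (t : ℝ) : (t : ℂ) ∈ St (-y) y := by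
  constructor
  · show -y < (t : ℂ).im
    simpa using h0
  · show (t : ℂ).im < y
    simpa using h0

private theorem maxE_mono {y y' : ℝ} (h : y ≤ y') : St (-y) y ⊆ St (-y') y' := fun _ hs =>
  ⟨lt_of_le_of_lt (by linarith) hs.1, lt_of_lt_of_le hs.2 h⟩

private theorem maxE_pos {y : ℝ} {s : ℂ} (hs : s ∈ St (-y) y) : 0 < y := by
  have h1 : -y < s.im := hs.1
  have h2 : s.im < y := hs.2
  linarith

theorem exists_max {f₀ : ℂ → ℂ} {c : ℝ} (H : Crv f₀ c) :
    (∃ (f : ℂ → ℂ) (h : ℝ), c ≤ h ∧ Crv f h ∧ MaxH f h ∧ f =ᶠ[𝓝 (0:ℂ)] f₀) ∨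
      ∃ f : ℂ → ℂ, (∀ h > 0, Crv f h) ∧ f =ᶠ[𝓝 (0:ℂ)] f₀ := by
  classical
  obtain ⟨P, hP⟩ : ∃ P : ℝ → Prop, ∀ y, P y ↔ ∃ g : ℂ → ℂ, MeromorphicOn g (St (-y) y) ∧
    g =ᶠ[𝓝 (0 : ℂ)] f₀ := ⟨_, fun _ => Iff.rfl⟩
  have hPc : P c := (hP c).2 ⟨f₀, H.mer, EventuallyEq.rfl⟩
  have hPmono : ∀ y y', y ≤ y' → P y' → P y := by
    intro y y' hy h1
    obtain ⟨g, hg, hg0⟩ := (hP y').1 h1
    exact (hP y).2 ⟨g, fun s hs => hg s (maxE_mono hy hs), hg0⟩
  -- a choice of extensions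
  have hG : ∀ y, ∃ g : ℂ → ℂ, P y → MeromorphicOn g (St (-y) y) ∧ g =ᶠ[𝓝 (0 : ℂ)] f₀ := by
    intro y
    by_cases hy : P y
    · obtain ⟨g, hg⟩ := (hP y).1 hy
      exact ⟨g, fun _ => hg⟩
    · exact ⟨f₀, fun h => absurd h hy⟩
  choose G hG using hG
  -- two extensions agree
  have hagree : ∀ y y', P y → P y' → ∀ s, s ∈ St (-y) y → s ∈ St (-y') y' →
      G y =ᶠ[𝓝[≠] s] G y' := by
    intro y y' hy hy' s hs hs'
    obtain ⟨m, hm⟩ : ∃ m, m = min y y' := ⟨_, rfl⟩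
    have hm0 : 0 < m := by
      rw [hm]
      exact lt_min (maxE_pos hs) (maxE_pos hs')
    have h1 : MeromorphicOn (G y) (St (-m) m) := fun z hz =>
      (hG y hy).1 z (maxE_mono (by rw [hm]; exact min_le_left _ _) hz)
    have h2 : MeromorphicOn (G y') (St (-m) m) := fun z hz =>
      (hG y' hy').1 z (maxE_mono (by rw [hm]; exact min_le_right _ _) hz)
    have hsm : s ∈ St (-m) m := by
      rw [hm]
      rcases min_choice y y' with h | h
      · rw [h]; exact hs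
      · rw [h]; exact hs'
    refine Pool.Agent.MP_ae5b4e_an_MERO.mero_ident (isOpen_St (-m) m)
      (convex_St (-m) m).isPreconnected h1 h2 (maxE_zero hm0) ?_ hsm
    have h3 : G y =ᶠ[𝓝 (0 : ℂ)] G y' := (hG y hy).2.trans (hG y' hy').2.symm
    exact (h3.filter_mono nhdsWithin_le_nhds).frequently
  -- the glued function
  obtain ⟨f, hf⟩ : ∃ f : ℂ → ℂ, ∀ y, P y → ∀ s ∈ St (-y) y, f s = toMeromorphicNFAt (G y) s s := by
    refine ⟨fun s => if hs : ∃ y, P y ∧ s ∈ St (-y) y then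
      toMeromorphicNFAt (G hs.choose) s s else 0, ?_⟩
    intro y hy s hs
    have hex : ∃ y, P y ∧ s ∈ St (-y) y := ⟨y, hy, hs⟩
    show (if hs : ∃ y, P y ∧ s ∈ St (-y) y then
      toMeromorphicNFAt (G hs.choose) s s else 0) = _
    rw [dif_pos hex]
    have h1 := hagree _ y hex.choose_spec.1 hy s hex.choose_spec.2 hs
    exact (toMeromorphicNFAt_eventuallyEq_nhds_congr h1).self_of_nhds
  have hfG : ∀ y, P y → ∀ s ∈ St (-y) y, f =ᶠ[𝓝[≠] s] G y := by
    intro y hy s hs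
    have h1 : ∀ᶠ z in 𝓝[≠] s, AnalyticAt ℂ (G y) z := ((hG y hy).1 s hs).eventually_analyticAt
    have h2 : ∀ᶠ z in 𝓝[≠] s, z ∈ St (-y) y :=
      nhdsWithin_le_nhds ((isOpen_St (-y) y).mem_nhds hs)
    filter_upwards [h1, h2] with z hz1 hz2
    rw [hf y hy z hz2, toMeromorphicNFAt_eq_self.2 hz1.meromorphicNFAt]
  have hmer : ∀ y, P y → MeromorphicOn f (St (-y) y) := fun y hy s hs =>
    ((hG y hy).1 s hs).congr (hfG y hy s hs).symm
  -- near real points the glued function is the given one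
  have hloc : ∀ t : ℝ, f =ᶠ[𝓝 (t : ℂ)] f₀ := by
    intro t
    have h1 : ∀ᶠ z in 𝓝 (t : ℂ), AnalyticAt ℂ f₀ z := (H.an t).eventually_analyticAt
    have h2 : ∀ᶠ z in 𝓝 (t : ℂ), z ∈ St (-c) c :=
      (isOpen_St (-c) c).mem_nhds (maxE_real H.pos t)
    filter_upwards [h1, h2] with z hz1 hz2
    have h3 : G c =ᶠ[𝓝[≠] z] f₀ :=
      H.ident (hG c hPc).1 (maxE_zero H.pos)
        (((hG c hPc).2.filter_mono nhdsWithin_le_nhds).frequently) hz2
    rw [hf c hPc z hz2, (toMeromorphicNFAt_eventuallyEq_nhds_congr h3).self_of_nhds,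
      toMeromorphicNFAt_eq_self.2 hz1.meromorphicNFAt]
  have hval : ∀ t : ℝ, f t = f₀ t := fun t => (hloc t).self_of_nhds
  have hcrv : ∀ h, 0 < h → MeromorphicOn f (St (-h) h) → Crv f h := by
    intro h h0 hm
    refine ⟨h0, hm, fun t => (H.an t).congr (hloc t).symm, fun t => ?_, fun t => ?_,
      fun s t hst => ?_, fun t => ?_⟩
    · rw [(hloc t).deriv_eq]
      exact H.dr t
    · rw [hval]
      exact H.circ t
    · rw [hval, hval] at hst
      exact H.inj s t hst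
    · have h1 := hval (t + 1)
      push_cast at h1
      rw [h1, hval]
      exact H.per t
  have h00 : f =ᶠ[𝓝 (0 : ℂ)] f₀ := by
    have := hloc 0
    rwa [ofReal_zero] at this
  by_cases hall : ∀ y > 0, P y
  · right
    exact ⟨f, fun h h0 => hcrv h h0 (hmer h (hall h h0)), h00⟩
  · left
    push Not at hall
    obtain ⟨y₀, hy₀, hny⟩ := hall
    have hbdd : BddAbove {y | P y} := by
      refine ⟨y₀, fun y hy => ?_⟩
      by_contra hlt
      exact hny (hPmono y₀ y (not_le.1 hlt).le hy)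
    have hne : {y | P y}.Nonempty := ⟨c, hPc⟩
    obtain ⟨h, hh⟩ : ∃ h, h = sSup {y | P y} := ⟨_, rfl⟩
    have hch : c ≤ h := by
      rw [hh]
      exact le_csSup hbdd hPc
    have h0 : 0 < h := lt_of_lt_of_le H.pos hch
    refine ⟨f, h, hch, hcrv h h0 ?_, ?_, h00⟩
    · intro s hs
      have h1 : |s.im| < h := abs_lt.2 hs
      rw [hh] at h1
      obtain ⟨y, hy, hsy⟩ := exists_lt_of_lt_csSup hne h1
      exact hmer y hy s (abs_lt.1 hsy)
    · intro h' hh' g hg hgf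
      have h1 : P h' := (hP h').2 ⟨g, hg, hgf.trans h00⟩
      have h2 : h' ≤ h := by
        rw [hh]
        exact le_csSup hbdd h1
      linarith

end Pool.Agent.MP_ae5b4e_an_SVC
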