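import Pool.Agent.Lib.MP_ae5b4e_an_SVC.Strip

/-!
# MP_ae5b4e_an, project SV: the differential equation holds on the whole strip
-/

noncomputable section

namespace Pool.Agent.MP_ae5b4e_an_SVC

open Complex Set Filter Topology Metric
open Pool.Agent.MP_ae5b4e_an_NBT (St isOpen_St convex_St)

variable {f K : ℂ → ℂ} {h : ℝ} {Ω : Set ℂ}

/-- analytic local inverse in one variable -/
private theorem ode_inverse {f : ℂ → ℂ} {x : ℂ} (hf : AnalyticAt ℂ f x) (hd0 : deriv f x ≠ 0) :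
    ∃ g : ℂ → ℂ, AnalyticAt ℂ g (f x) ∧ g (f x) = x ∧ (∀ᶠ z in 𝓝 x, g (f z) = z) ∧
      (∀ᶠ w in 𝓝 (f x), f (g w) = w) := by
  have hs : HasStrictDerivAt f (deriv f x) x := hf.hasStrictDerivAt
  have hF := hs.hasStrictFDerivAt_equiv hd0
  refine ⟨hF.localInverse f _ x, ?_, hF.localInverse_apply_image, hF.eventually_left_inverse,
    hF.eventually_right_inverse⟩
  have h1 := (hF.toOpenPartialHomeomorph f).analyticAt_symm' (a := x)
    (i := ContinuousLinearEquiv.unitsEquivAut ℂ (Units.mk0 (deriv f x) hd0))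
    hF.mem_toOpenPartialHomeomorph_source (by
      rw [hF.toOpenPartialHomeomorph_coe]; exact hf) (by
      rw [hF.toOpenPartialHomeomorph_coe]; exact hF.hasFDerivAt.fderiv)
  rw [hF.toOpenPartialHomeomorph_coe] at h1
  exact h1

/-- the local step -/
private theorem ode_step (hK : SVal K Ω) {b : ℂ} (hb : Rg f b) :
    ∃ δ : ℝ, 0 < δ ∧ ∀ t ∈ ball b δ, f t ∈ Ω → Ode K f t → f b ∈ Ω ∧ Ode K f b := by
  obtain ⟨φ, hφa, hφb, hφl, hφr⟩ := ode_inverse hb.1 hb.2
  obtain ⟨g, hgdef⟩ : ∃ g : ℂ → ℂ, g = fun x => -(deriv (deriv f) (φ x)) / (deriv f (φ x)) ^ 2 :=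
    ⟨_, rfl⟩
  have hga : AnalyticAt ℂ g (f b) := by
    have h1 : AnalyticAt ℂ (fun x => deriv f (φ x)) (f b) := by
      have h2 : AnalyticAt ℂ (deriv f) (φ (f b)) := by rw [hφb]; exact hb.1.deriv
      exact h2.fun_comp hφa
    have h3 : AnalyticAt ℂ (fun x => deriv (deriv f) (φ x)) (f b) := by
      have h2 : AnalyticAt ℂ (deriv (deriv f)) (φ (f b)) := by rw [hφb]; exact hb.1.deriv.deriv
      exact h2.fun_comp hφa
    rw [hgdef]
    refine h3.neg.div (h1.pow 2) (pow_ne_zero _ ?_)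
    rw [hφb]
    exact hb.2
  obtain ⟨r, hr, hr'⟩ := Metric.eventually_nhds_iff_ball.1
    (hga.eventually_analyticAt.and (hφa.eventually_analyticAt.and hφr))
  have hcont : ∀ᶠ s in 𝓝 b, f s ∈ ball (f b) r := hb.1.continuousAt (ball_mem_nhds _ hr)
  obtain ⟨δ, hδ, hδ'⟩ := Metric.eventually_nhds_iff_ball.1 (hcont.and hφl)
  refine ⟨δ, hδ, fun t ht htΩ hode => ?_⟩
  obtain ⟨h1, h2⟩ := hδ' t ht
  have hφt : ContinuousAt φ (f t) := (hr' _ h1).2.1.continuousAt
  have hgK : g =ᶠ[𝓝[≠] (f t)] K := by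
    have h3 : Tendsto φ (𝓝[≠] (f t)) (𝓝[≠] t) := by
      refine tendsto_nhdsWithin_of_tendsto_nhds_of_eventually_within _ ?_ ?_
      · have h4 := hφt.tendsto
        rw [h2] at h4
        exact h4.mono_left nhdsWithin_le_nhds
      · filter_upwards [self_mem_nhdsWithin, nhdsWithin_le_nhds (isOpen_ball.mem_nhds h1)]
          with x hx hxr
        intro h5
        apply hx
        rw [mem_singleton_iff] at h5 ⊢
        rw [← (hr' x hxr).2.2, h5]
    filter_upwards [h3.eventually hode, nhdsWithin_le_nhds (isOpen_ball.mem_nhds h1)]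
      with x hx hxr
    rw [(hr' x hxr).2.2] at hx
    rw [hgdef]
    exact hx.symm
  obtain ⟨h4, h5⟩ := hK.max (f b) r g hr (fun x hx => (hr' x hx).1.meromorphicAt)
    ⟨f t, ⟨h1, htΩ⟩, hgK⟩
  refine ⟨h4 (mem_ball_self hr), ?_⟩
  have h6 : Tendsto f (𝓝[≠] b) (𝓝[≠] (f b)) := by
    refine tendsto_nhdsWithin_of_tendsto_nhds_of_eventually_within _
      (hb.1.continuousAt.tendsto.mono_left nhdsWithin_le_nhds) ?_
    filter_upwards [self_mem_nhdsWithin, nhdsWithin_le_nhds hφl] with s hs hsl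
    intro h7
    apply hs
    rw [mem_singleton_iff] at h7 ⊢
    rw [← hsl, h7, hφb]
  filter_upwards [h6.eventually (h5 (f b) (mem_ball_self hr)), nhdsWithin_le_nhds hφl]
    with s hs hsl
  rw [← hs, hgdef]
  simp only [hsl]

/-- the values of the curve at its regular points lie in the domain of existence of the kernel -/
theorem ode_strip (hK : SVal K Ω) (H : Crv f h) {t₀ : ℂ} (ht₀ : t₀ ∈ St (-h) h) (hr : Rg f t₀)
    (h0 : f t₀ ∈ Ω) (hode : Ode K f t₀) {t : ℂ} (ht : t ∈ St (-h) h) (htr : Rg f t) :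
    f t ∈ Ω ∧ Ode K f t := by
  obtain ⟨R, hR⟩ : ∃ R : Set ℂ, R = {t | t ∈ St (-h) h ∧ Rg f t} := ⟨_, rfl⟩
  obtain ⟨A, hA⟩ : ∃ A : Set ℂ, A = {t | t ∈ R ∧ f t ∈ Ω ∧ Ode K f t} := ⟨_, rfl⟩
  have hRo : IsOpen R := by
    rw [hR]
    exact (isOpen_St (-h) h).inter (isOpen_rg f)
  have hRc : IsPreconnected R := by
    rw [hR]
    exact H.isPreconnected_rg
  have hRg : ∀ s ∈ R, Rg f s := by
    intro s hs
    rw [hR] at hs
    exact hs.2
  have hAo : IsOpen A := by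
    rw [isOpen_iff_mem_nhds]
    intro s hs
    rw [hA] at hs
    obtain ⟨hs1, hs2, hs3⟩ := hs
    have h1 : ∀ᶠ x in 𝓝 s, f x ∈ Ω := (hRg s hs1).1.continuousAt (hK.op.mem_nhds hs2)
    have h2 : ∀ᶠ x in 𝓝 s, Ode K f x := by
      have h3 := eventually_eventually_nhdsWithin.2 hs3
      rw [eventually_nhdsWithin_iff] at h3
      filter_upwards [h3] with x hx
      by_cases hxs : x = s
      · rw [hxs]
        exact hs3
      · have h4 := hx hxs
        rw [IsOpen.nhdsWithin_eq isOpen_compl_singleton hxs] at h4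
        exact h4.filter_mono nhdsWithin_le_nhds
    filter_upwards [hRo.mem_nhds hs1, h1, h2] with x hx1 hx2 hx3
    rw [hA]
    exact ⟨hx1, hx2, hx3⟩
  have hcl : closure A ∩ R ⊆ A := by
    rintro b ⟨hb1, hb2⟩
    obtain ⟨δ, hδ, hstep⟩ := ode_step hK (hRg b hb2)
    obtain ⟨s, hs, hsb⟩ := Metric.mem_closure_iff.1 hb1 δ hδ
    rw [hA] at hs ⊢
    have h1 : s ∈ ball b δ := by
      rw [mem_ball, dist_comm]
      exact hsb
    exact ⟨hb2, hstep s h1 hs.2.1 hs.2.2⟩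
  have h0R : t₀ ∈ R := by
    rw [hR]
    exact ⟨ht₀, hr⟩
  have h0A : t₀ ∈ A := by
    rw [hA]
    exact ⟨h0R, h0, hode⟩
  have hfin := hRc.subset_of_closure_inter_subset hAo ⟨t₀, h0R, h0A⟩ hcl
  have h1 : t ∈ R := by
    rw [hR]
    exact ⟨ht, htr⟩
  have h2 := hfin h1
  rw [hA] at h2
  exact h2.2

end Pool.Agent.MP_ae5b4e_an_SVC
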