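import Pool.Agent.Lib.MP_ae5b4e_an_SVC.Defs
import Pool.Agent.Lib.MP_ae5b4e_an_MERO.Casorati

/-!
# MP_ae5b4e_an, project SV: a periodic function of finite valence has a limit at the end of the
cylinder
-/

noncomputable section

namespace Pool.Agent.MP_ae5b4e_an_SVC

open Complex Set Filter Topology Metric

/-- the inverse of `exp (2 π i t)` -/
private def lg (w : ℂ) : ℂ := log w / (2 * Real.pi * I)

private lemma tpi : (2 * Real.pi * I : ℂ) ≠ 0 := two_pi_I_ne_zero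

private lemma exp_lg {w : ℂ} (hw : w ≠ 0) : exp (2 * Real.pi * I * lg w) = w := by
  unfold lg
  rw [mul_div_cancel₀ _ tpi, exp_log hw]

private lemma norm_E (t : ℂ) : ‖exp (2 * Real.pi * I * t)‖ = Real.exp (-(2 * Real.pi * t.im)) := by
  rw [norm_exp]
  congr 1
  simp

/-- the imaginary part is determined by the norm -/
private lemma im_of_E {t w : ℂ} (h : exp (2 * Real.pi * I * t) = w) :
    Real.exp (-(2 * Real.pi * t.im)) = ‖w‖ := by
  rw [← h, norm_E]

private lemma lt_im {t w : ℂ} (h : exp (2 * Real.pi * I * t) = w) {Y : ℝ}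
    (hw : ‖w‖ < Real.exp (-(2 * Real.pi * Y))) : Y < t.im := by
  rw [← im_of_E h, Real.exp_lt_exp] at hw
  have h1 := Real.two_pi_pos
  have h2 : 2 * Real.pi * Y < 2 * Real.pi * t.im := by linarith
  exact lt_of_mul_lt_mul_left h2 h1.le

private lemma norm_lt {t : ℂ} {Y : ℝ} (h : Y < t.im) :
    ‖exp (2 * Real.pi * I * t)‖ < Real.exp (-(2 * Real.pi * Y)) := by
  rw [norm_E, Real.exp_lt_exp]
  have h1 := Real.two_pi_pos
  have := mul_lt_mul_of_pos_left h h1
  linarith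

private lemma isOpen_up (y : ℝ) : IsOpen {t : ℂ | y < t.im} :=
  isOpen_lt continuous_const continuous_im

/-- iterated periodicity -/
private lemma perZ {f : ℂ → ℂ} {y₀ : ℝ}
    (hper : ∀ t : ℂ, y₀ < t.im → (fun s => f (s + 1)) =ᶠ[𝓝[≠] t] f) (n : ℤ) :
    ∀ t : ℂ, y₀ < t.im → ∀ᶠ s in 𝓝[≠] t, f (s + n) = f s := by
  have htr : ∀ (c t : ℂ), Tendsto (fun s => s + c) (𝓝[≠] t) (𝓝[≠] (t + c)) := by
    intro c t
    refine tendsto_nhdsWithin_iff.2 ⟨?_, ?_⟩
    · have h1 : Continuous fun s : ℂ => s + c := by fun_prop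
      exact (h1.tendsto t).mono_left nhdsWithin_le_nhds
    · filter_upwards [self_mem_nhdsWithin] with s hs h
      exact hs (by simpa using h)
  have hnat : ∀ (n : ℕ) (t : ℂ), y₀ < t.im → ∀ᶠ s in 𝓝[≠] t, f (s + n) = f s := by
    intro n
    induction n with
    | zero => intro t _; simp
    | succ n ih =>
      intro t ht
      have h1 := (htr n t).eventually (hper (t + n) (by simpa using ht))
      filter_upwards [h1, ih t ht] with s hs hs'
      have h2 : s + ((n + 1 : ℕ) : ℂ) = s + n + 1 := by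
        push_cast
        ring
      rw [h2, ← hs']
      exact hs
  intro t ht
  obtain ⟨m, rfl | rfl⟩ := n.eq_nat_or_neg
  · exact_mod_cast hnat m t ht
  · have h1 := (htr (-m) t).eventually (hnat m (t + -m) (by simpa using ht))
    filter_upwards [h1] with s hs
    have h2 : s + -(m:ℂ) + m = s := by ring
    rw [h2] at hs
    rw [hs]
    push_cast
    rfl

/-- `f ∘ lg ∘ exp = f` -/
private lemma lgE {f : ℂ → ℂ} {y₀ : ℝ}
    (hper : ∀ t : ℂ, y₀ < t.im → (fun s => f (s + 1)) =ᶠ[𝓝[≠] t] f) {t : ℂ} (ht : y₀ < t.im) :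
    ∀ᶠ s in 𝓝[≠] t, f (lg (exp (2 * Real.pi * I * s))) = f s := by
  obtain ⟨M, hM⟩ := exists_nat_gt (‖t‖ + 2)
  have h1 : ∀ᶠ s in 𝓝[≠] t, ∀ n ∈ Finset.Icc (-(M:ℤ)) M, f (s + n) = f s :=
    (Finset.eventually_all _).2 fun n _ => perZ hper n t ht
  have h2 : ∀ᶠ s in 𝓝[≠] t, ‖s‖ < ‖t‖ + 1 :=
    (continuous_norm.continuousAt.eventually_lt continuousAt_const (by linarith)).filter_mono
      nhdsWithin_le_nhds
  filter_upwards [h1, h2] with s hs hs'
  have h3 : exp (2 * Real.pi * I * lg (exp (2 * Real.pi * I * s))) =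
      exp (2 * Real.pi * I * s) := exp_lg (exp_ne_zero _)
  obtain ⟨n, hn⟩ := exp_eq_exp_iff_exists_int.1 h3
  have h4 : lg (exp (2 * Real.pi * I * s)) = s + n := by
    have h5 : (2 * Real.pi * I : ℂ) * lg (exp (2 * Real.pi * I * s)) =
        2 * Real.pi * I * (s + n) := by
      rw [hn]
      ring
    exact mul_left_cancel₀ tpi h5
  rw [h4]
  apply hs
  -- the bound for n
  have h6 : (lg (exp (2 * Real.pi * I * s))).re =
      arg (exp (2 * Real.pi * I * s)) / (2 * Real.pi) := by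
    have h7 : lg (exp (2 * Real.pi * I * s)) =
        ((1 / (2 * Real.pi) : ℝ) : ℂ) * (-I * log (exp (2 * Real.pi * I * s))) := by
      unfold lg
      have := Real.pi_pos.ne'
      have h8 : (Real.pi : ℂ) ≠ 0 := by exact_mod_cast this
      push_cast
      field_simp
      rw [I_sq]
      ring
    rw [h7, re_ofReal_mul]
    simp [log_im]
    ring
  have h7 : |(lg (exp (2 * Real.pi * I * s))).re| ≤ 1 := by
    rw [h6, abs_div, abs_of_pos Real.two_pi_pos, div_le_one Real.two_pi_pos]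
    have := abs_arg_le_pi (exp (2 * Real.pi * I * s))
    linarith [Real.pi_pos]
  have h8 : |(n:ℝ)| < M := by
    have h9 : (n:ℝ) = (lg (exp (2 * Real.pi * I * s))).re - s.re := by
      rw [h4]
      simp
    rw [h9]
    have := abs_re_le_norm s
    have := abs_sub (lg (exp (2 * Real.pi * I * s))).re s.re
    linarith
  rw [abs_lt] at h8
  rw [Finset.mem_Icc]
  constructor
  · have : -(M:ℝ) < n := h8.1
    have : -(M:ℤ) < n := by exact_mod_cast this
    exact this.le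
  · have : n < (M:ℤ) := by exact_mod_cast h8.2
    exact this.le

/-- the exponential maps punctured neighbourhoods to punctured neighbourhoods -/
private lemma tendsto_E (t : ℂ) : Tendsto (fun s => exp (2 * Real.pi * I * s)) (𝓝[≠] t)
    (𝓝[≠] exp (2 * Real.pi * I * t)) := by
  refine tendsto_nhdsWithin_iff.2 ⟨?_, ?_⟩
  · have h1 : Continuous fun s : ℂ => exp (2 * Real.pi * I * s) := by fun_prop
    exact (h1.tendsto t).mono_left nhdsWithin_le_nhds
  · have h1 : HasDerivAt (fun s : ℂ => exp (2 * Real.pi * I * s))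
        (exp (2 * Real.pi * I * t) * (2 * Real.pi * I * 1)) t :=
      ((hasDerivAt_id t).const_mul (2 * Real.pi * I)).cexp
    exact h1.eventually_ne (mul_ne_zero (exp_ne_zero _) (by rw [mul_one]; exact tpi))

/-- the function `f ∘ lg` is meromorphic -/
private lemma mero_lg {f : ℂ → ℂ} {y₀ : ℝ} (hf : MeromorphicOn f {t | y₀ < t.im})
    (hper : ∀ t : ℂ, y₀ < t.im → (fun s => f (s + 1)) =ᶠ[𝓝[≠] t] f) {w₀ : ℂ} (h0 : w₀ ≠ 0)
    (hw : ‖w₀‖ < Real.exp (-(2 * Real.pi * y₀))) : MeromorphicAt (fun w => f (lg w)) w₀ := by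
  set t₀ := lg w₀ with ht₀
  have hE0 : exp (2 * Real.pi * I * t₀) = w₀ := exp_lg h0
  have him : y₀ < t₀.im := lt_im hE0 hw
  set l : ℂ → ℂ := fun w => t₀ + log (w / w₀) / (2 * Real.pi * I) with hl
  have hla : AnalyticAt ℂ l w₀ := by
    have h1 : w₀ / w₀ ∈ slitPlane := by
      rw [div_self h0]
      exact one_mem_slitPlane
    have h2 : AnalyticAt ℂ (fun w : ℂ => w / w₀) w₀ := by fun_prop
    exact analyticAt_const.fun_add ((AnalyticAt.clog h2 h1).fun_div analyticAt_const tpi)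
  have hl0 : l w₀ = t₀ := by
    simp [hl, div_self h0]
  have hlE : ∀ w : ℂ, w ≠ 0 → exp (2 * Real.pi * I * l w) = w := by
    intro w hw0
    have h1 : 2 * Real.pi * I * l w = 2 * Real.pi * I * t₀ + log (w / w₀) := by
      simp only [hl]
      rw [mul_add, mul_div_cancel₀ _ tpi]
    rw [h1, exp_add, hE0, exp_log (div_ne_zero hw0 h0)]
    field_simp
  have h1 : MeromorphicAt (f ∘ l) w₀ := by
    apply MeromorphicAt.comp_analyticAt _ hla
    rw [hl0]
    exact hf t₀ him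
  refine h1.congr ?_
  have h2 : Tendsto l (𝓝[≠] w₀) (𝓝[≠] t₀) := by
    refine tendsto_nhdsWithin_iff.2 ⟨?_, ?_⟩
    · have h3 := hla.continuousAt.tendsto
      rw [hl0] at h3
      exact h3.mono_left nhdsWithin_le_nhds
    · have h4 : ∀ᶠ w in 𝓝[≠] w₀, w ≠ 0 :=
        (continuousAt_id.eventually_ne h0).filter_mono nhdsWithin_le_nhds
      filter_upwards [self_mem_nhdsWithin, h4] with w hw1 hw2 h5
      apply hw1
      have h6 := hlE w hw2
      rw [show l w = t₀ from h5, hE0] at h6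
      exact h6.symm
  have h4 : ∀ᶠ w in 𝓝[≠] w₀, w ≠ 0 :=
    (continuousAt_id.eventually_ne h0).filter_mono nhdsWithin_le_nhds
  filter_upwards [h2.eventually (lgE hper him), h4] with w hw1 hw2
  rw [hlE w hw2] at hw1
  exact hw1.symm

/-- regular points -/
private lemma ev_reg {f : ℂ → ℂ} {y₀ : ℝ} (hf : MeromorphicOn f {t | y₀ < t.im})
    (hnc : ∀ t : ℂ, y₀ < t.im → ∀ x : ℂ, ¬ ∀ᶠ s in 𝓝[≠] t, f s = x) {t : ℂ} (ht : y₀ < t.im) :
    ∀ᶠ s in 𝓝[≠] t, Rg f s := by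
  have h1 := (hf t ht).eventually_analyticAt
  rcases (hf t ht).deriv.eventually_eq_zero_or_eventually_ne_zero with h2 | h2
  · exfalso
    have h3 : ∀ᶠ s in 𝓝[≠] t, y₀ < s.im :=
      mem_nhdsWithin_of_mem_nhds ((isOpen_up y₀).mem_nhds ht)
    have h4 := (h1.and (h2.and h3))
    rw [eventually_nhdsWithin_iff, eventually_nhds_iff_ball] at h4
    obtain ⟨r, hr, h4⟩ := h4
    have h5 : t + (r / 2 : ℝ) ∈ ball t r := by
      rw [mem_ball, dist_eq_norm, add_sub_cancel_left, norm_real, Real.norm_eq_abs,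
        abs_of_pos (by linarith)]
      linarith
    have h6 : ball (t + (r / 2 : ℝ)) (r / 2) ⊆ ball t r \ {t} := by
      intro s hs
      rw [mem_ball, dist_eq_norm] at hs
      refine ⟨?_, fun h => ?_⟩
      · rw [mem_ball, dist_eq_norm]
        have h7 : s - t = (s - (t + (r / 2 : ℝ))) + (r / 2 : ℝ) := by ring
        rw [h7]
        refine (norm_add_le _ _).trans_lt ?_
        rw [norm_real, Real.norm_eq_abs, abs_of_pos (by linarith : (0:ℝ) < r / 2)]
        linarith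
      · rw [mem_singleton_iff.1 h] at hs
        have h7 : t - (t + (r / 2 : ℝ)) = -((r / 2 : ℝ) : ℂ) := by ring
        rw [h7, norm_neg, norm_real, Real.norm_eq_abs, abs_of_pos (by linarith)] at hs
        exact lt_irrefl _ hs
    have h7 : t + (r / 2 : ℝ) ∈ ball (t + (r / 2 : ℝ)) (r / 2) := mem_ball_self (by linarith)
    have h8 : ∀ s ∈ ball (t + (r / 2 : ℝ)) (r / 2), f s = f (t + (r / 2 : ℝ)) := by
      intro s hs
      refine isOpen_ball.is_const_of_deriv_eq_zero (𝕜 := ℂ)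
        (convex_ball _ _).isPreconnected (f := f)
        (fun u hu => (h4 u (h6 hu).1 (h6 hu).2).1.differentiableAt.differentiableWithinAt)
        (fun u hu => (h4 u (h6 hu).1 (h6 hu).2).2.1) hs h7
    refine hnc _ ((h4 _ (h6 h7).1 (h6 h7).2).2.2) (f (t + (r / 2 : ℝ))) ?_
    exact mem_nhdsWithin_of_mem_nhds (mem_of_superset (isOpen_ball.mem_nhds h7) h8)
  · filter_upwards [h1, h2] with s hs hs' using ⟨hs, hs'⟩

/-- the set of the points which are not regular is countable -/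
private lemma count_nreg {f : ℂ → ℂ} {y₀ : ℝ} (hf : MeromorphicOn f {t | y₀ < t.im})
    (hnc : ∀ t : ℂ, y₀ < t.im → ∀ x : ℂ, ¬ ∀ᶠ s in 𝓝[≠] t, f s = x) :
    ({t | Rg f t}ᶜ ∩ {t : ℂ | y₀ < t.im}).Countable := by
  apply (HereditarilyLindelofSpace.isLindelof _).countable_of_isDiscrete
    (isDiscrete_of_codiscreteWithin _)
  rw [compl_compl, mem_codiscreteWithin]
  intro x hx
  rw [disjoint_principal_right]
  apply Filter.mem_of_superset (ev_reg hf hnc hx)
  intro s hs h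
  exact h.2 hs

/-- the values at the regular points near the end are dense -/
private def Dn (f : ℂ → ℂ) : Prop :=
  ∀ O : Set ℂ, IsOpen O → O.Nonempty → ∀ Y : ℝ, ∃ u : ℂ, Y < u.im ∧ Rg f u ∧ f u ∈ O

/-- preimages at different heights -/
private lemma many {f : ℂ → ℂ} (hD : Dn f) (n : ℕ) : ∀ O : Set ℂ, IsOpen O → O.Nonempty →
    ∀ Y : ℝ, ∃ O' : Set ℂ, IsOpen O' ∧ O'.Nonempty ∧ O' ⊆ O ∧ ∀ x ∈ O', ∃ u : Fin (n + 1) → ℂ,
      (∀ i, Y < (u i).im ∧ Rg f (u i) ∧ f (u i) = x) ∧ StrictMono fun i => (u i).im := by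
  have hstep : ∀ O : Set ℂ, IsOpen O → O.Nonempty → ∀ Y : ℝ, ∃ O₁ : Set ℂ, ∃ Y' : ℝ,
      IsOpen O₁ ∧ O₁.Nonempty ∧ O₁ ⊆ O ∧ ∀ x ∈ O₁, ∃ v : ℂ, Y < v.im ∧ v.im < Y' ∧ Rg f v ∧
        f v = x := by
    intro O hO hne Y
    obtain ⟨u, hu, hreg, hfu⟩ := hD O hO hne Y
    set B : Set ℂ := {v | Y < v.im ∧ v.im < u.im + 1 ∧ Rg f v} with hB
    have hBn : B ∈ 𝓝 u := by
      have h1 : ∀ᶠ v in 𝓝 u, Y < v.im := (isOpen_up Y).mem_nhds hu
      have h2 : ∀ᶠ v in 𝓝 u, v.im < u.im + 1 :=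
        (isOpen_lt continuous_im continuous_const).mem_nhds (show u.im < u.im + 1 by linarith)
      have h3 : ∀ᶠ v in 𝓝 u, Rg f v :=
        hreg.1.eventually_analyticAt.and (hreg.1.deriv.continuousAt.eventually_ne hreg.2)
      filter_upwards [h1, h2, h3] with v a b c using ⟨a, b, c⟩
    have hopen : f '' B ∈ 𝓝 (f u) := by
      have h1 : Filter.map f (𝓝 u) = 𝓝 (f u) :=
        (hreg.1.hasStrictDerivAt).map_nhds_eq hreg.2
      rw [← h1]
      exact image_mem_map hBn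
    refine ⟨interior (f '' B) ∩ O, u.im + 1, isOpen_interior.inter hO,
      ⟨f u, mem_interior_iff_mem_nhds.2 hopen, hfu⟩, inter_subset_right, ?_⟩
    rintro x ⟨hx, -⟩
    obtain ⟨v, hv, rfl⟩ := interior_subset hx
    exact ⟨v, hv.1, hv.2.1, hv.2.2, rfl⟩
  induction n with
  | zero =>
    intro O hO hne Y
    obtain ⟨O₁, Y', h1, h2, h3, h4⟩ := hstep O hO hne Y
    refine ⟨O₁, h1, h2, h3, fun x hx => ?_⟩
    obtain ⟨v, hv1, hv2, hv3, hv4⟩ := h4 x hx
    refine ⟨fun _ => v, fun _ => ⟨hv1, hv3, hv4⟩, ?_⟩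
    intro i j hij
    have h5 : i = j := Subsingleton.elim (α := Fin 1) i j
    rw [h5] at hij
    exact absurd hij (lt_irrefl _)
  | succ n ih =>
    intro O hO hne Y
    obtain ⟨O₁, Y', h1, h2, h3, h4⟩ := hstep O hO hne Y
    obtain ⟨O', g1, g2, g3, g4⟩ := ih O₁ h1 h2 (max Y Y')
    refine ⟨O', g1, g2, g3.trans h3, fun x hx => ?_⟩
    obtain ⟨v, hv1, hv2, hv3, hv4⟩ := h4 x (g3 hx)
    obtain ⟨u, hu1, hu2⟩ := g4 x hx
    have c0 : (Fin.cons v u : Fin (n + 1 + 1) → ℂ) 0 = v := rfl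
    have cs : ∀ i : Fin (n + 1), (Fin.cons v u : Fin (n + 1 + 1) → ℂ) i.succ = u i := fun i => rfl
    refine ⟨(Fin.cons v u : Fin (n + 1 + 1) → ℂ), ?_, ?_⟩
    · intro i
      refine Fin.cases ?_ (fun i => ?_) i
      · exact ⟨hv1, hv3, hv4⟩
      · rw [cs]
        exact ⟨(le_max_left _ _).trans_lt (hu1 i).1, (hu1 i).2⟩
    · rw [Fin.strictMono_iff_lt_succ]
      intro i
      show ((Fin.cons v u : Fin (n + 1 + 1) → ℂ) i.castSucc).im <
        ((Fin.cons v u : Fin (n + 1 + 1) → ℂ) i.succ).im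
      rw [cs]
      refine Fin.cases ?_ (fun i => ?_) i
      · rw [Fin.castSucc_zero, c0]
        exact hv2.trans ((le_max_right _ _).trans_lt (hu1 0).1)
      · rw [← Fin.succ_castSucc, cs]
        exact hu2 (Fin.castSucc_lt_succ)

/-- the function of `exp (2 π i t)` -/
theorem end_mero {f : ℂ → ℂ} {y₀ : ℝ} (hf : MeromorphicOn f {t | y₀ < t.im})
    (hper : ∀ t : ℂ, y₀ < t.im → (fun s => f (s + 1)) =ᶠ[𝓝[≠] t] f)
    (hnc : ∀ t : ℂ, y₀ < t.im → ∀ x : ℂ, ¬ ∀ᶠ s in 𝓝[≠] t, f s = x)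
    {N : ℕ} (hN : Val f {t | y₀ < t.im} N) :
    ∃ φ : ℂ → ℂ, MeromorphicAt φ 0 ∧ ∃ y₁ : ℝ, ∀ t : ℂ, y₁ < t.im →
      f =ᶠ[𝓝[≠] t] fun s => φ (exp (2 * Real.pi * I * s)) := by
  have hφm : ∀ᶠ w in 𝓝[≠] (0:ℂ), MeromorphicAt (fun w => f (lg w)) w := by
    have h1 : ∀ᶠ w in 𝓝[≠] (0:ℂ), ‖w‖ < Real.exp (-(2 * Real.pi * y₀)) := by
      refine Eventually.filter_mono nhdsWithin_le_nhds ?_
      have h2 := ball_mem_nhds (0:ℂ) (Real.exp_pos (-(2 * Real.pi * y₀)))
      filter_upwards [h2] with w hw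
      simpa using hw
    filter_upwards [h1, self_mem_nhdsWithin] with w hw hw0
    exact mero_lg hf hper hw0 hw
  by_cases hg : ∃ g : ℂ → ℂ, MeromorphicAt g 0 ∧ MP_ae5b4e_an_MERO.EqC (fun w => f (lg w)) g 0
  · obtain ⟨g, hg, Z, hZ, hE⟩ := hg
    refine ⟨g, hg, ?_⟩
    have h1 := hE.and (hg.eventually_analyticAt.and hφm)
    rw [eventually_nhdsWithin_iff, eventually_nhds_iff_ball] at h1
    obtain ⟨r, hr, h1⟩ := h1
    have h2 : ∀ w₀ : ℂ, w₀ ≠ 0 → ‖w₀‖ < r → ∀ᶠ w in 𝓝[≠] w₀, f (lg w) = g w := by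
      intro w₀ h0 hw
      obtain ⟨h3, h4, h5⟩ := h1 w₀ (by simpa using hw) h0
      have h6 : MeromorphicAt (fun w => f (lg w) - g w) w₀ := h5.fun_sub h4.meromorphicAt
      rcases h6.eventually_eq_zero_or_eventually_ne_zero with h7 | h7
      · filter_upwards [h7] with w hw using sub_eq_zero.1 hw
      · exfalso
        have h8 : ∀ᶠ w in 𝓝[≠] w₀, w ∈ ball (0:ℂ) r ∧ w ≠ 0 := by
          have ho : IsOpen (ball (0:ℂ) r ∩ {0}ᶜ) := isOpen_ball.inter isOpen_compl_singleton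
          exact mem_nhdsWithin_of_mem_nhds (ho.mem_nhds ⟨by simpa using hw, h0⟩)
        refine (MP_ae5b4e_an_MERO.Casorati.freq_notMem hZ w₀) ?_
        filter_upwards [h7, h8] with w hw hw' hwZ
        exact hw (sub_eq_zero.2 ((h1 w hw'.1 hw'.2).1 hwZ))
    refine ⟨max y₀ (-Real.log r / (2 * Real.pi)), fun t ht => ?_⟩
    have ht0 : y₀ < t.im := (le_max_left _ _).trans_lt ht
    have ht1 : ‖exp (2 * Real.pi * I * t)‖ < r := by
      rw [norm_E]
      have h3 : -Real.log r / (2 * Real.pi) < t.im := (le_max_right _ _).trans_lt ht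
      rw [div_lt_iff₀ Real.two_pi_pos] at h3
      rw [← Real.lt_log_iff_exp_lt hr]
      linarith
    filter_upwards [lgE hper ht0, (tendsto_E t).eventually (h2 _ (exp_ne_zero _) ht1)] with s a b
    rw [← a, b]
  · exfalso
    have hD : Dn f := by
      intro O hO hne Y
      have hZ : ((fun t : ℂ => exp (2 * Real.pi * I * t)) ''
          ({t | Rg f t}ᶜ ∩ {t : ℂ | y₀ < t.im})).Countable := (count_nreg hf hnc).image _
      have h1 := MP_ae5b4e_an_MERO.casorati hφm hg hO hne hZ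
      have h2 : ∀ᶠ w in 𝓝[≠] (0:ℂ), w ≠ 0 ∧ ‖w‖ < Real.exp (-(2 * Real.pi * max y₀ Y)) := by
        have h2 := ball_mem_nhds (0:ℂ) (Real.exp_pos (-(2 * Real.pi * max y₀ Y)))
        filter_upwards [self_mem_nhdsWithin, nhdsWithin_le_nhds h2] with w hw0 hw
        exact ⟨hw0, by simpa using hw⟩
      obtain ⟨w, ⟨h3, h4⟩, h5, h6⟩ := (h1.and_eventually h2).exists
      have h7 := exp_lg h5
      have h8 := lt_im h7 h6
      refine ⟨lg w, (le_max_right _ _).trans_lt h8, ?_, h3⟩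
      by_contra h9
      exact h4 ⟨lg w, ⟨h9, (le_max_left _ _).trans_lt h8⟩, h7⟩
    obtain ⟨O', -, ⟨x, hx⟩, -, h2⟩ := many hD N univ isOpen_univ univ_nonempty y₀
    obtain ⟨u, hu1, hu2⟩ := h2 x hx
    obtain ⟨i, j, hij, n, hn⟩ := hN u fun i => ⟨(hu1 i).1, (hu1 i).2.1,
      (hu1 i).2.2.trans (hu1 0).2.2.symm⟩
    apply hij
    apply hu2.injective
    show (u i).im = (u j).im
    rw [hn]
    simp

/-- limit at the end -/
theorem end_limit {f : ℂ → ℂ} {y₀ : ℝ} (hf : MeromorphicOn f {t | y₀ < t.im})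
    (hper : ∀ t : ℂ, y₀ < t.im → (fun s => f (s + 1)) =ᶠ[𝓝[≠] t] f)
    (hnc : ∀ t : ℂ, y₀ < t.im → ∀ x : ℂ, ¬ ∀ᶠ s in 𝓝[≠] t, f s = x)
    {N : ℕ} (hN : Val f {t | y₀ < t.im} N) :
    (∃ a : ℂ, ∀ ε > 0, ∃ Y : ℝ, ∀ t : ℂ, Y < t.im → ∀ᶠ s in 𝓝[≠] t, ‖f s - a‖ < ε) ∨
      ∀ M : ℝ, ∃ Y : ℝ, ∀ t : ℂ, Y < t.im → ∀ᶠ s in 𝓝[≠] t, M < ‖f s‖ := by
  obtain ⟨φ, hφ, y₁, hE⟩ := end_mero hf hper hnc hN
  -- from punctured neighbourhoods of zero to the end
  have key : ∀ P : ℂ → Prop, (∀ᶠ w in 𝓝[≠] (0:ℂ), P (φ w)) →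
      ∃ Y : ℝ, ∀ t : ℂ, Y < t.im → ∀ᶠ s in 𝓝[≠] t, P (f s) := by
    intro P hP
    rw [eventually_nhdsWithin_iff, eventually_nhds_iff_ball] at hP
    obtain ⟨r, hr, h1⟩ := hP
    refine ⟨max y₁ (-Real.log r / (2 * Real.pi)), fun t ht => ?_⟩
    have ht0 : y₁ < t.im := (le_max_left _ _).trans_lt ht
    have h2 : ∀ᶠ s in 𝓝[≠] t, max y₁ (-Real.log r / (2 * Real.pi)) < s.im :=
      mem_nhdsWithin_of_mem_nhds ((isOpen_up _).mem_nhds ht)
    filter_upwards [hE t ht0, h2] with s hs hs'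
    rw [hs]
    refine h1 _ ?_ (exp_ne_zero _)
    rw [mem_ball_zero_iff, norm_E]
    have h3 : -Real.log r / (2 * Real.pi) < s.im := (le_max_right _ _).trans_lt hs'
    rw [div_lt_iff₀ Real.two_pi_pos] at h3
    rw [← Real.lt_log_iff_exp_lt hr]
    linarith
  rcases le_or_gt 0 (meromorphicOrderAt φ 0) with h | h
  · left
    obtain ⟨a, ha⟩ := tendsto_nhds_of_meromorphicOrderAt_nonneg hφ h
    refine ⟨a, fun ε hε => key (fun z => ‖z - a‖ < ε) ?_⟩
    have h1 := ha.eventually (ball_mem_nhds a hε)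
    filter_upwards [h1] with w hw
    rwa [dist_eq_norm] at hw
  · right
    intro M
    have h1 := tendsto_cobounded_of_meromorphicOrderAt_neg h
    rw [← tendsto_norm_atTop_iff_cobounded] at h1
    exact key (fun z => M < ‖z‖) (h1.eventually (eventually_gt_atTop M))

end Pool.Agent.MP_ae5b4e_an_SVC
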