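import Pool.Agent.Lib.MP_ae5b4e_an_SVC.Sym
import Pool.Agent.Lib.MP_ae5b4e_an_SVC.EndL

/-!
# MP_ae5b4e_an, project SV: curves on the whole plane
-/

noncomputable section

namespace Pool.Agent.MP_ae5b4e_an_SVC

open Complex Set Filter Topology Metric
open Pool.Agent.MP_ae5b4e_an_NBT (St isOpen_St convex_St)
open scoped ComplexConjugate

variable {f : ℂ → ℂ} {A B : ℂ}

namespace RangeAux

theorem mem_st (t : ℂ) : t ∈ St (-(|t.im| + 1)) (|t.im| + 1) := by
  have h1 := neg_abs_le t.im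
  have h2 := le_abs_self t.im
  exact ⟨by linarith, by linarith⟩

theorem mer (H : ∀ h > 0, Crv f h) (t : ℂ) : MeromorphicAt f t :=
  (H (|t.im| + 1) (by positivity)).mer t (mem_st t)

theorem nc (H : ∀ h > 0, Crv f h) (t x : ℂ) : ¬ ∀ᶠ s in 𝓝[≠] t, f s = x :=
  (H (|t.im| + 1) (by positivity)).not_const (mem_st t) x

theorem reg (H : ∀ h > 0, Crv f h) (t : ℂ) : ∀ᶠ s in 𝓝[≠] t, Rg f s :=
  (H (|t.im| + 1) (by positivity)).reg (mem_st t)

theorem per (H : ∀ h > 0, Crv f h) (t : ℂ) : (fun s => f (s + 1)) =ᶠ[𝓝[≠] t] f := by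
  have := (H (|t.im| + 1) (by positivity)).per' 1 (mem_st t)
  simpa using this

/-- an affine bijection maps punctured neighbourhoods to punctured neighbourhoods -/
theorem tendsto_aff {A : ℂ} (hA : A ≠ 0) (B t : ℂ) :
    Tendsto (fun w => A * w + B) (𝓝[≠] t) (𝓝[≠] (A * t + B)) := by
  refine tendsto_nhdsWithin_of_tendsto_nhds_of_eventually_within _ ?_ ?_
  · have : Continuous fun w : ℂ => A * w + B := by fun_prop
    exact this.continuousAt.tendsto.mono_left nhdsWithin_le_nhds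
  · filter_upwards [self_mem_nhdsWithin] with w hw
    intro h
    apply hw
    have h1 : A * w + B = A * t + B := h
    exact mul_left_cancel₀ hA (add_right_cancel h1)

/-- limit values at nonregular points -/
def V0 (f : ℂ → ℂ) : Set ℂ := {x | ∃ t, ¬ Rg f t ∧ Tendsto f (𝓝[≠] t) (𝓝 x)}

theorem countable_V0 (H : ∀ h > 0, Crv f h) : (V0 f).Countable := by
  have h1 : {t : ℂ | ¬ Rg f t}.Countable := by
    refine Pool.Agent.MP_ae5b4e_an_MERO.CN.countable_of_eventually (D := univ) (subset_univ _)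
      (fun t _ => ?_)
    filter_upwards [reg H t] with s hs
    exact fun h => h hs
  refine (h1.image fun t => limUnder (𝓝[≠] t) f).mono ?_
  rintro x ⟨t, ht, hx⟩
  exact ⟨t, ht, hx.limUnder_eq⟩

theorem order_le (H : ∀ h > 0, Crv f h) {x : ℂ} (hx : x ∉ V0 f)
    (hn : ¬ ∃ t : ℂ, Rg f t ∧ f t = x) (t : ℂ) :
    meromorphicOrderAt (fun s => f s - x) t ≤ 0 := by
  by_contra hcon
  rw [not_le] at hcon
  have hm : MeromorphicAt (fun s => f s - x) t := (mer H t).sub (MeromorphicAt.const x t)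
  have h1 : Tendsto (fun s => f s - x) (𝓝[≠] t) (𝓝 0) := tendsto_zero_of_meromorphicOrderAt_pos hcon
  have h2 : Tendsto f (𝓝[≠] t) (𝓝 x) := by
    have := h1.add_const x
    simpa using this
  by_cases hr : Rg f t
  · apply hn
    refine ⟨t, hr, ?_⟩
    have h3 : Tendsto f (𝓝[≠] t) (𝓝 (f t)) :=
      hr.1.continuousAt.tendsto.mono_left nhdsWithin_le_nhds
    exact tendsto_nhds_unique h3 h2
  · exact hx ⟨t, hr, h2⟩

theorem entire_inv (H : ∀ h > 0, Crv f h) {x : ℂ}
    (hx : ∀ t, meromorphicOrderAt (fun s => f s - x) t ≤ 0) :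
    ∃ g : ℂ → ℂ, Differentiable ℂ g ∧ ∀ t, g =ᶠ[𝓝[≠] t] fun s => (f s - x)⁻¹ := by
  have hm : ∀ t, MeromorphicAt (fun s => f s - x) t := fun t =>
    (mer H t).sub (MeromorphicAt.const x t)
  have hmi : MeromorphicOn (fun s => (f s - x)⁻¹) univ := fun t _ => (hm t).inv
  refine ⟨toMeromorphicNFOn (fun s => (f s - x)⁻¹) univ, ?_, ?_⟩
  · intro t
    have h1 : MeromorphicNFAt (toMeromorphicNFOn (fun s => (f s - x)⁻¹) univ) t :=
      meromorphicNFOn_toMeromorphicNFOn (fun s => (f s - x)⁻¹) univ (mem_univ t)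
    refine (h1.meromorphicOrderAt_nonneg_iff_analyticAt.1 ?_).differentiableAt
    have h2 : meromorphicOrderAt (toMeromorphicNFOn (fun s => (f s - x)⁻¹) univ) t =
        meromorphicOrderAt (fun s => (f s - x)⁻¹) t :=
      meromorphicOrderAt_congr (hmi.toMeromorphicNFOn_eq_self_on_nhdsNE (mem_univ t))
    rw [h2]
    have h3 : meromorphicOrderAt (fun s => (f s - x)⁻¹) t =
        - meromorphicOrderAt (fun s => f s - x) t := meromorphicOrderAt_inv (f := fun s => f s - x)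
    rw [h3]
    have h4 := hx t
    cases h5 : meromorphicOrderAt (fun s => f s - x) t with
    | top => simp
    | coe n =>
      rw [h5] at h4
      have h6 : n ≤ 0 := by exact_mod_cast h4
      have h7 : (0 : WithTop ℤ) ≤ ((-n : ℤ) : WithTop ℤ) := by
        exact_mod_cast (by omega : (0 : ℤ) ≤ -n)
      exact h7
  · intro t
    exact hmi.toMeromorphicNFOn_eq_self_on_nhdsNE (mem_univ t)

/-- Liouville -/
theorem not_bdd (H : ∀ h > 0, Crv f h) {x : ℂ} {g : ℂ → ℂ} (hg : Differentiable ℂ g)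
    (hgf : ∀ t, g =ᶠ[𝓝[≠] t] fun s => (f s - x)⁻¹) {C : ℝ} (hC : ∀ t, ‖g t‖ ≤ C) : False := by
  have hb : Bornology.IsBounded (range g) := by
    rw [isBounded_iff_forall_norm_le]
    exact ⟨C, by rintro _ ⟨t, rfl⟩; exact hC t⟩
  apply nc H 0 (x + (g 0)⁻¹)
  filter_upwards [hgf 0] with s hs
  have h1 : g s = g 0 := hg.apply_eq_apply_of_bounded hb s 0
  rw [h1] at hs
  rw [hs, inv_inv]
  ring

/-- periods are inherited -/
theorem per_inv {x : ℂ} {g : ℂ → ℂ} (hg : Differentiable ℂ g)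
    (hgf : ∀ t, g =ᶠ[𝓝[≠] t] fun s => (f s - x)⁻¹) {ω : ℂ}
    (hω : ∀ s : ℂ, (fun w => f (w + ω)) =ᶠ[𝓝[≠] s] f) (t : ℂ) : g (t + ω) = g t := by
  have h1 : Tendsto (fun w => w + ω) (𝓝[≠] t) (𝓝[≠] (t + ω)) := by
    have := tendsto_aff (one_ne_zero) ω t
    simpa using this
  have h2 : (fun w => g (w + ω)) =ᶠ[𝓝[≠] t] g := by
    filter_upwards [h1.eventually (hgf (t + ω)), hgf t, hω t] with s h3 h4 h5
    rw [h3, h4, h5]
  have h3 : Tendsto (fun w => g (w + ω)) (𝓝[≠] t) (𝓝 (g (t + ω))) := by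
    have : Continuous fun w => g (w + ω) := hg.continuous.comp (continuous_add_const ω)
    exact this.continuousAt.tendsto.mono_left nhdsWithin_le_nhds
  have h4 : Tendsto g (𝓝[≠] t) (𝓝 (g t)) :=
    hg.continuous.continuousAt.tendsto.mono_left nhdsWithin_le_nhds
  exact tendsto_nhds_unique (h3.congr' h2) h4

theorem per_int {g : ℂ → ℂ} {ω : ℂ} (h : ∀ t, g (t + ω) = g t) (n : ℤ) (t : ℂ) :
    g (t + n * ω) = g t := by
  have hp : Function.Periodic g ω := h
  have := (hp.int_mul n) t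
  simpa using this

/-- contraction -/
theorem norm_ge (H : ∀ h > 0, Crv f h) {A B : ℂ} (hA : A ≠ 0)
    (hs : ∀ s : ℂ, (fun w => f (A * w + B)) =ᶠ[𝓝[≠] s] f) : ¬ ‖A‖ < 1 := by
  intro h1
  have hA1 : (1 : ℂ) - A ≠ 0 := by
    intro h
    have : A = 1 := by linear_combination -h
    rw [this, norm_one] at h1
    exact lt_irrefl _ h1
  set p : ℂ := B / (1 - A) with hp
  have hfix : A * p + B = p := by
    rw [hp]
    field_simp
    ring
  have hdist : ∀ w, A * w + B - p = A * (w - p) := by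
    intro w
    linear_combination hfix
  obtain ⟨δ, hδ, hδs⟩ := Metric.mem_nhdsWithin_iff.1 (hs p)
  -- iterates
  have hit : ∀ w ∈ ball p δ \ {p}, ∀ n : ℕ, (fun z => A * z + B)^[n] w ∈ ball p δ \ {p} ∧
      f ((fun z => A * z + B)^[n] w) = f w ∧
      (fun z => A * z + B)^[n] w - p = A ^ n * (w - p) := by
    intro w hw n
    induction n with
    | zero => exact ⟨hw, rfl, by simp⟩
    | succ n ih =>
      obtain ⟨i1, i2, i3⟩ := ih
      rw [Function.iterate_succ_apply']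
      set v := (fun z => A * z + B)^[n] w with hv
      have hvp : v - p ≠ 0 := sub_ne_zero.2 i1.2
      refine ⟨⟨?_, ?_⟩, ?_, ?_⟩
      · rw [mem_ball, dist_eq_norm]
        show ‖A * v + B - p‖ < δ
        rw [hdist, norm_mul]
        have h2 : ‖v - p‖ < δ := by
          have := i1.1
          rwa [mem_ball, dist_eq_norm] at this
        calc ‖A‖ * ‖v - p‖ ≤ 1 * ‖v - p‖ := by gcongr
          _ < δ := by linarith
      · intro h
        have h2 : A * v + B - p = 0 := sub_eq_zero.2 h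
        rw [hdist] at h2
        rcases mul_eq_zero.1 h2 with h3 | h3
        · exact hA h3
        · exact hvp h3
      · have h2 : (fun w => f (A * w + B)) v = f v := hδs ⟨i1.1, i1.2⟩
        rw [← i2]
        exact h2
      · show A * v + B - p = _
        rw [hdist, i3]
        ring
  have htend : ∀ w ∈ ball p δ \ {p}, Tendsto (fun n => (fun z => A * z + B)^[n] w) atTop
      (𝓝[≠] p) := by
    intro w hw
    refine tendsto_nhdsWithin_of_tendsto_nhds_of_eventually_within _ ?_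
      (Eventually.of_forall fun n => (hit w hw n).1.2)
    have h2 : Tendsto (fun n : ℕ => A ^ n * (w - p) + p) atTop (𝓝 (0 * (w - p) + p)) :=
      ((tendsto_pow_atTop_nhds_zero_of_norm_lt_one h1).mul_const _).add_const _
    rw [zero_mul, zero_add] at h2
    refine h2.congr fun n => ?_
    rw [← (hit w hw n).2.2]
    ring
  have hmem : ball p δ \ {p} ∈ 𝓝[≠] p := by
    rw [sdiff_eq, inter_comm]
    exact inter_mem self_mem_nhdsWithin (mem_nhdsWithin_of_mem_nhds (ball_mem_nhds p hδ))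
  rcases lt_or_ge (meromorphicOrderAt f p) 0 with h2 | h2
  · have h3 := tendsto_cobounded_of_meromorphicOrderAt_neg h2
    obtain ⟨w, hw⟩ := (Filter.nonempty_of_mem hmem)
    have h4 := h3.comp (htend w hw)
    have h5 : Tendsto (fun _ : ℕ => f w) atTop (Bornology.cobounded ℂ) := by
      refine h4.congr fun n => ?_
      exact (hit w hw n).2.1
    have h6 : Tendsto (fun _ : ℕ => ‖f w‖) atTop atTop := tendsto_norm_cobounded_atTop.comp h5
    have h7 := (h6.eventually_gt_atTop ‖f w‖).exists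
    obtain ⟨_, h8⟩ := h7
    exact lt_irrefl _ h8
  · obtain ⟨c, hc⟩ := tendsto_nhds_of_meromorphicOrderAt_nonneg (mer H p) h2
    apply nc H p c
    filter_upwards [hmem] with w hw
    have h4 := hc.comp (htend w hw)
    have h5 : Tendsto (fun _ : ℕ => f w) atTop (𝓝 c) := by
      refine h4.congr fun n => ?_
      exact (hit w hw n).2.1
    exact tendsto_nhds_unique tendsto_const_nhds h5

end RangeAux

open RangeAux

/-- a nontrivial symmetry of a curve on the whole plane gives a second period -/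
theorem sy_inf (H : ∀ h > 0, Crv f h) (hA : A ≠ 0)
    (hs : ∀ s : ℂ, (fun w => f (A * w + B)) =ᶠ[𝓝[≠] s] f) (hne : ¬ (A = 1 ∧ ∃ n : ℤ, B = n)) :
    ∃ ω : ℂ, ω.im ≠ 0 ∧ ∀ s : ℂ, (fun w => f (w + ω)) =ᶠ[𝓝[≠] s] f := by
  have hS : ∀ h : ℝ, |B.im| < h → Sy f h A B := by
    intro h hh
    have h0 : 0 < h := lt_of_le_of_lt (abs_nonneg _) hh
    refine ⟨hA, ⟨0, ⟨by simpa using h0, by simpa using h0⟩, ?_⟩, fun s _ _ => hs s⟩
    rw [abs_lt] at hh
    exact ⟨by simpa using hh.1, by simpa using hh.2⟩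
  set h₀ : ℝ := |B.im| + 1 with hh₀
  have h0 : 0 < h₀ := by positivity
  have S := hS h₀ (by rw [hh₀]; linarith)
  have hAre : A.im = 0 := Sy.real (H h₀ h0) S
  have hn1 : ¬ ‖A‖ < 1 := norm_ge H hA hs
  have hn2 : ¬ ‖A⁻¹‖ < 1 := by
    refine norm_ge (B := -(B / A)) H (inv_ne_zero hA) fun s => ?_
    have h1 := tendsto_aff (inv_ne_zero hA) (-(B / A)) s
    filter_upwards [h1.eventually (hs (A⁻¹ * s + -(B / A)))] with w hw
    rw [← hw]
    congr 1
    field_simp
    ring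
  have hn3 : ‖A‖ = 1 := by
    rw [norm_inv, not_lt] at hn2
    rw [not_lt] at hn1
    have hpos : 0 < ‖A‖ := norm_pos_iff.2 hA
    have : ‖A‖ ≤ 1 := by
      rw [one_le_inv₀ hpos] at hn2
      exact hn2
    linarith
  have hA2 : A = 1 ∨ A = -1 := by
    have h1 : A = (A.re : ℂ) := by
      apply Complex.ext
      · simp
      · simp [hAre]
    rw [h1, Complex.norm_real, Real.norm_eq_abs] at hn3
    rcases abs_eq (zero_le_one) |>.1 hn3 with h2 | h2
    · left; rw [h1, h2]; simp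
    · right; rw [h1, h2]; simp
  have hBim : B.im ≠ 0 := by
    intro hB
    exact hne (Sy.real_B (H h₀ h0) S hA2 hB)
  rcases hA2 with rfl | rfl
  · refine ⟨B, hBim, fun s => ?_⟩
    filter_upwards [hs s] with w hw
    simpa using hw
  · refine ⟨B - conj B, ?_, fun s => ?_⟩
    · rw [Complex.sub_im, Complex.conj_im]
      intro h
      apply hBim
      linarith
    · set h₁ : ℝ := |B.im| + |s.im| + 1 with hh₁
      have h10 : 0 < h₁ := by positivity
      have S1 := Sy.refl (H h₁ h10) (hS h₁ (by rw [hh₁]; linarith [abs_nonneg s.im])) (by simp)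
      have hs1 : s ∈ St (-h₁) h₁ := by
        have e1 := neg_abs_le s.im
        have e2 := le_abs_self s.im
        have e3 := abs_nonneg B.im
        exact ⟨by rw [hh₁]; linarith, by rw [hh₁]; linarith⟩
      have hs2 : -1 * s + conj B ∈ St (-h₁) h₁ := by
        have e1 := neg_abs_le s.im
        have e2 := le_abs_self s.im
        have e3 := neg_abs_le B.im
        have e4 := le_abs_self B.im
        have e5 : (-1 * s + conj B).im = -s.im - B.im := by
          simp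
          ring
        exact ⟨by rw [e5, hh₁]; linarith, by rw [e5, hh₁]; linarith⟩
      have h2 := S1.eq s hs1 hs2
      have h3 := tendsto_aff (A := -1) (by norm_num) (conj B) s
      filter_upwards [h2, h3.eventually (hs (-1 * s + conj B))] with w h4 h5
      rw [← h4, ← h5]
      congr 1
      ring

/-- a doubly periodic curve takes all values -/
theorem range_ell (H : ∀ h > 0, Crv f h) {ω : ℂ} (hω : ω.im ≠ 0)
    (hs : ∀ s : ℂ, (fun w => f (w + ω)) =ᶠ[𝓝[≠] s] f) :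
    {x : ℂ | ¬ ∃ t : ℂ, Rg f t ∧ f t = x}.Countable := by
  refine (countable_V0 H).mono fun x hx => ?_
  by_contra hxV
  obtain ⟨g, hg, hgf⟩ := entire_inv H (order_le H hxV hx)
  have hp1 : ∀ t, g (t + 1) = g t := per_inv hg hgf (per H)
  have hp2 : ∀ t, g (t + ω) = g t := per_inv hg hgf hs
  have hK : IsCompact ((fun p : ℝ × ℝ => (p.1 : ℂ) + (p.2 : ℂ) * ω) '' (Icc 0 1 ×ˢ Icc 0 1)) := by
    refine (isCompact_Icc.prod isCompact_Icc).image ?_
    fun_prop
  obtain ⟨C, hC⟩ := hK.exists_bound_of_continuousOn hg.continuous.continuousOn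
  refine not_bdd H hg hgf (C := C) fun t => ?_
  set b : ℝ := t.im / ω.im with hb
  set a : ℝ := t.re - b * ω.re with ha
  have ht : t = (a : ℂ) + (b : ℂ) * ω := by
    apply Complex.ext
    · simp [ha]
    · simp [hb, hω]
  have h1 : g t = g (((Int.fract a : ℝ) : ℂ) + ((Int.fract b : ℝ) : ℂ) * ω) := by
    have h2 := per_int hp1 ⌊a⌋ (((Int.fract a : ℝ) : ℂ) + ((Int.fract b : ℝ) : ℂ) * ω)
    have h3 := per_int hp2 ⌊b⌋
      (((Int.fract a : ℝ) : ℂ) + ((Int.fract b : ℝ) : ℂ) * ω + ⌊a⌋ * 1)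
    rw [← h2, ← h3]
    congr 1
    rw [ht]
    have e1 : (a : ℂ) = ((Int.fract a : ℝ) : ℂ) + (⌊a⌋ : ℂ) := by
      have := Int.fract_add_floor a
      exact_mod_cast this.symm
    have e2 : (b : ℂ) = ((Int.fract b : ℝ) : ℂ) + (⌊b⌋ : ℂ) := by
      have := Int.fract_add_floor b
      exact_mod_cast this.symm
    rw [e1, e2]
    simp
    ring
  rw [h1]
  apply hC
  exact ⟨(Int.fract a, Int.fract b), ⟨⟨Int.fract_nonneg _, (Int.fract_lt_one _).le⟩,
    ⟨Int.fract_nonneg _, (Int.fract_lt_one _).le⟩⟩, rfl⟩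

/-- the consequence of a limit at the upper end -/
theorem RangeAux.upper {f g : ℂ → ℂ} {x : ℂ} (hg : Continuous g)
    (hgf : ∀ t, g =ᶠ[𝓝[≠] t] fun s => (f s - x)⁻¹)
    (he : (∃ a : ℂ, a ≠ x ∧ ∀ ε > 0, ∃ Y : ℝ, ∀ t : ℂ, Y < t.im → ∀ᶠ s in 𝓝[≠] t, ‖f s - a‖ < ε) ∨
      ∀ M : ℝ, ∃ Y : ℝ, ∀ t : ℂ, Y < t.im → ∀ᶠ s in 𝓝[≠] t, M < ‖f s‖) :
    ∃ C Y : ℝ, ∀ t : ℂ, Y < t.im → ‖g t‖ ≤ C := by
  have key : ∀ (c : ℝ) (t : ℂ), 0 < c → (∀ᶠ s in 𝓝[≠] t, c ≤ ‖f s - x‖) → ‖g t‖ ≤ c⁻¹ := by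
    intro c t hc h
    have h1 : Tendsto (fun s => ‖g s‖) (𝓝[≠] t) (𝓝 ‖g t‖) :=
      (hg.norm.continuousAt.tendsto).mono_left nhdsWithin_le_nhds
    refine le_of_tendsto h1 ?_
    filter_upwards [h, hgf t] with s h2 h3
    rw [h3, norm_inv]
    exact inv_anti₀ hc h2
  rcases he with ⟨a, hax, h⟩ | h
  · have hpos : 0 < ‖a - x‖ / 2 := by
      have := norm_pos_iff.2 (sub_ne_zero.2 hax)
      positivity
    obtain ⟨Y, hY⟩ := h (‖a - x‖ / 2) hpos
    refine ⟨(‖a - x‖ / 2)⁻¹, Y, fun t ht => key _ t hpos ?_⟩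
    filter_upwards [hY t ht] with s hs
    have h1 : ‖a - x‖ ≤ ‖f s - x‖ + ‖f s - a‖ := by
      calc ‖a - x‖ = ‖(f s - x) - (f s - a)‖ := by congr 1; ring
        _ ≤ _ := norm_sub_le _ _
    linarith
  · obtain ⟨Y, hY⟩ := h (‖x‖ + 1)
    refine ⟨1⁻¹, Y, fun t ht => key 1 t one_pos ?_⟩
    filter_upwards [hY t ht] with s hs
    have := norm_sub_norm_le (f s) x
    linarith

/-- a curve of finite valence on the whole plane takes nearly all values -/
theorem range_val (H : ∀ h > 0, Crv f h) {N : ℕ} (hN : Val f univ N) :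
    {x : ℂ | ¬ ∃ t : ℂ, Rg f t ∧ f t = x}.Countable := by
  -- the upper end
  have hup : (∃ a : ℂ, ∀ ε > 0, ∃ Y : ℝ, ∀ t : ℂ, Y < t.im → ∀ᶠ s in 𝓝[≠] t, ‖f s - a‖ < ε) ∨
      ∀ M : ℝ, ∃ Y : ℝ, ∀ t : ℂ, Y < t.im → ∀ᶠ s in 𝓝[≠] t, M < ‖f s‖ := by
    refine end_limit (y₀ := 0) (N := N) (fun t _ => mer H t) (fun t _ => per H t)
      (fun t _ x => nc H t x) ?_
    intro u hu
    exact hN u fun i => ⟨mem_univ _, (hu i).2⟩
  have hneg : ∀ t : ℂ, Tendsto (fun w : ℂ => -w) (𝓝[≠] t) (𝓝[≠] (-t)) := by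
    intro t
    have := tendsto_aff (A := -1) (by norm_num) 0 t
    simpa using this
  have hlo : (∃ a : ℂ, ∀ ε > 0, ∃ Y : ℝ, ∀ t : ℂ, Y < t.im →
        ∀ᶠ s in 𝓝[≠] t, ‖f (-s) - a‖ < ε) ∨
      ∀ M : ℝ, ∃ Y : ℝ, ∀ t : ℂ, Y < t.im → ∀ᶠ s in 𝓝[≠] t, M < ‖f (-s)‖ := by
    refine end_limit (f := fun s => f (-s)) (y₀ := 0) (N := N) (fun t _ => ?_) (fun t _ => ?_)
      (fun t _ x => ?_) ?_
    · have h1 : MeromorphicAt f (-t) := mer H (-t)
      exact h1.comp_analyticAt (analyticAt_id.neg)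
    · have h1 := (per H (-t - 1))
      have h2 : Tendsto (fun w : ℂ => -w - 1) (𝓝[≠] t) (𝓝[≠] (-t - 1)) := by
        have := tendsto_aff (A := -1) (by norm_num) (-1) t
        simpa [sub_eq_add_neg] using this
      filter_upwards [h2.eventually h1] with w hw
      rw [show -(w + 1) = -w - 1 by ring, ← hw]
      congr 1
      ring
    · intro h
      apply nc H (-t) x
      have := (hneg (-t)).eventually (by simpa using h)
      simpa using this
    · intro u hu
      have hRg : ∀ t : ℂ, Rg (fun s => f (-s)) t → Rg f (-t) := by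
        intro t ht
        have h1 : f = fun s => (fun s => f (-s)) (-s) := by
          funext s
          simp
        have h2 : AnalyticAt ℂ (fun s => (fun s => f (-s)) (-s)) (-t) := by
          have h3 : AnalyticAt ℂ (fun s => f (-s)) (-(-t)) := by simpa using ht.1
          exact h3.comp (analyticAt_id.neg)
        refine ⟨by rw [h1]; exact h2, ?_⟩
        intro h3
        apply ht.2
        have h4 : deriv (fun s => f (-s)) t = -deriv f (-t) := deriv_comp_neg f t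
        rw [h4, h3, neg_zero]
      obtain ⟨i, j, hij, n, hn⟩ := hN (fun i => -u i) fun i =>
        ⟨mem_univ _, hRg _ (hu i).2.1, (hu i).2.2⟩
      refine ⟨i, j, hij, -n, ?_⟩
      push_cast
      linear_combination -hn
  -- excluded values
  set E1 : Set ℂ := {a : ℂ | ∀ ε > 0, ∃ Y : ℝ, ∀ t : ℂ, Y < t.im →
    ∀ᶠ s in 𝓝[≠] t, ‖f s - a‖ < ε} with hE1
  set E2 : Set ℂ := {a : ℂ | ∀ ε > 0, ∃ Y : ℝ, ∀ t : ℂ, Y < t.im →
    ∀ᶠ s in 𝓝[≠] t, ‖f (-s) - a‖ < ε} with hE2
  have hsub : ∀ (φ : ℂ → ℂ), ({a : ℂ | ∀ ε > 0, ∃ Y : ℝ, ∀ t : ℂ, Y < t.im →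
      ∀ᶠ s in 𝓝[≠] t, ‖φ s - a‖ < ε}).Subsingleton := by
    intro φ a ha b hb
    by_contra hab
    have hpos : 0 < ‖a - b‖ / 2 := by
      have := norm_pos_iff.2 (sub_ne_zero.2 hab)
      positivity
    obtain ⟨Y1, h1⟩ := ha _ hpos
    obtain ⟨Y2, h2⟩ := hb _ hpos
    set t : ℂ := ((max Y1 Y2 + 1 : ℝ) : ℂ) * I with ht
    have htim : t.im = max Y1 Y2 + 1 := by simp [ht]
    have h3 := h1 t (by rw [htim]; linarith [le_max_left Y1 Y2])
    have h4 := h2 t (by rw [htim]; linarith [le_max_right Y1 Y2])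
    obtain ⟨s, h5, h6⟩ := (h3.and h4).exists
    have h7 : ‖a - b‖ ≤ ‖φ s - b‖ + ‖φ s - a‖ := by
      calc ‖a - b‖ = ‖(φ s - b) - (φ s - a)‖ := by congr 1; ring
        _ ≤ _ := norm_sub_le _ _
    linarith
  have hc : (V0 f ∪ (E1 ∪ E2)).Countable :=
    (countable_V0 H).union (((hsub f).countable).union ((hsub fun s => f (-s)).countable))
  refine hc.mono fun x hx => ?_
  by_contra hxV
  rw [mem_union, mem_union, not_or, not_or] at hxV
  obtain ⟨hxV, hx1, hx2⟩ := hxV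
  obtain ⟨g, hg, hgf⟩ := entire_inv H (order_le H hxV hx)
  have hp1 : ∀ t, g (t + 1) = g t := per_inv hg hgf (per H)
  obtain ⟨C1, Y1, hC1⟩ := RangeAux.upper hg.continuous hgf (by
    rcases hup with ⟨a, ha⟩ | h
    · left
      refine ⟨a, ?_, ha⟩
      rintro rfl
      exact hx1 ha
    · right
      exact h)
  have hgf2 : ∀ t, (fun s => g (-s)) =ᶠ[𝓝[≠] t] fun s => ((fun s => f (-s)) s - x)⁻¹ := by
    intro t
    filter_upwards [(hneg t).eventually (hgf (-t))] with s hs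
    exact hs
  obtain ⟨C2, Y2, hC2⟩ := RangeAux.upper (hg.continuous.comp continuous_neg) hgf2 (by
    rcases hlo with ⟨a, ha⟩ | h
    · left
      refine ⟨a, ?_, ha⟩
      rintro rfl
      exact hx2 ha
    · right
      exact h)
  have hK : IsCompact ((fun p : ℝ × ℝ => (p.1 : ℂ) + (p.2 : ℂ) * I) ''
      (Icc 0 1 ×ˢ Icc (-Y2) Y1)) := by
    refine (isCompact_Icc.prod isCompact_Icc).image ?_
    fun_prop
  obtain ⟨C, hC⟩ := hK.exists_bound_of_continuousOn hg.continuous.continuousOn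
  refine not_bdd H hg hgf (C := max C (max C1 C2)) fun t => ?_
  by_cases h1 : Y1 < t.im
  · exact (hC1 t h1).trans ((le_max_left _ _).trans (le_max_right _ _))
  by_cases h2 : Y2 < -t.im
  · have h3 := hC2 (-t) (by simpa using h2)
    simp only [Function.comp, neg_neg] at h3
    exact h3.trans ((le_max_right _ _).trans (le_max_right _ _))
  rw [not_lt] at h1 h2
  have h3 : g t = g (((Int.fract t.re : ℝ) : ℂ) + (t.im : ℂ) * I) := by
    have h4 := per_int hp1 ⌊t.re⌋ (((Int.fract t.re : ℝ) : ℂ) + (t.im : ℂ) * I)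
    rw [← h4]
    congr 1
    have e1 : (t.re : ℂ) = ((Int.fract t.re : ℝ) : ℂ) + (⌊t.re⌋ : ℂ) := by
      have := Int.fract_add_floor t.re
      exact_mod_cast this.symm
    have e2 : t = (t.re : ℂ) + (t.im : ℂ) * I := (Complex.re_add_im t).symm
    rw [e2]
    simp only [Complex.add_re, Complex.ofReal_re, Complex.mul_re, Complex.I_re, mul_zero,
      Complex.ofReal_im, Complex.I_im, mul_one, sub_self, add_zero, Complex.add_im,
      Complex.mul_im, zero_add]
    rw [e1]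
    ring_nf
  rw [h3]
  refine (hC _ ?_).trans (le_max_left _ _)
  exact ⟨(Int.fract t.re, t.im), ⟨⟨Int.fract_nonneg _, (Int.fract_lt_one _).le⟩,
    ⟨by show -Y2 ≤ t.im; linarith, h1⟩⟩, rfl⟩

end Pool.Agent.MP_ae5b4e_an_SVC
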