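import Pool.Agent.Lib.MP_ae5b4e_an_SVC.Strip
import Pool.Agent.Lib.MP_ae5b4e_an_SV.Defs

/-!
# MP_ae5b4e_an, project SV: injectivity modulo one gives injectivity on small discs
-/

noncomputable section

namespace Pool.Agent.MP_ae5b4e_an_SVC

open Complex Set Filter Topology Metric
open Pool.Agent.MP_ae5b4e_an_NBT (St isOpen_St convex_St LU)
open Pool.Agent.MP_ae5b4e_an_SV (SEq)

variable {f : ℂ → ℂ} {h : ℝ}

/-- a pole of a locally univalent map is not a point of analyticity -/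
private theorem seq_not_an {z : ℂ} (h0 : f z = 0) (h1 : AnalyticAt ℂ (fun w => (f w)⁻¹) z)
    (h2 : deriv (fun w => (f w)⁻¹) z ≠ 0) : ¬ AnalyticAt ℂ f z := by
  intro h3
  have h4 : ∀ᶠ w in 𝓝[≠] z, (f w)⁻¹ ≠ (f z)⁻¹ :=
    h1.differentiableAt.hasDerivAt.eventually_ne h2
  have h5 : ∀ᶠ w in 𝓝[≠] z, (f w) * (f w)⁻¹ = 1 := by
    filter_upwards [h4] with w hw
    rw [h0, inv_zero] at hw
    exact mul_inv_cancel₀ (fun h6 => hw (by rw [h6, inv_zero]))
  have h6 : Tendsto (fun w => f w * (f w)⁻¹) (𝓝[≠] z) (𝓝 (f z * (f z)⁻¹)) :=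
    (h3.continuousAt.mul h1.continuousAt).tendsto.mono_left nhdsWithin_le_nhds
  have h7 : Tendsto (fun w => f w * (f w)⁻¹) (𝓝[≠] z) (𝓝 1) :=
    tendsto_const_nhds.congr' (by filter_upwards [h5] with w hw; exact hw.symm)
  have h8 := tendsto_nhds_unique h6 h7
  rw [h0, zero_mul] at h8
  exact zero_ne_one h8

theorem seq_inj (hLU : LU f (St (-h) h)) (hi : InjR f h) {w : ℂ} {d : ℝ} (hd : d ≤ 1 / 2)
    (hw : ball w d ⊆ St (-h) h) {u v : ℂ} (hu : u ∈ ball w d) (hv : v ∈ ball w d)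
    (huv : SEq f u v) : u = v := by
  have hsm : ∀ a ∈ ball w d, ∀ b ∈ ball w d, Rg f a → Rg f b → f a = f b → a = b := by
    intro a ha b hb h1 h2 h3
    obtain ⟨n, hn⟩ := hi a (hw ha) b (hw hb) h1 h2 h3
    have h4 : dist a b < 1 := by
      have h5 := dist_triangle_right a b w
      rw [mem_ball] at ha hb
      linarith
    have h5 : dist a b = |(n : ℝ)| := by
      rw [hn, dist_eq_norm, sub_add_cancel_left, norm_neg, Complex.norm_intCast]
    rw [h5] at h4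
    have h6 : n = 0 := by
      have : |n| < 1 := by exact_mod_cast h4
      exact Int.abs_lt_one_iff.1 this
    rw [hn, h6]
    simp
  obtain ⟨huv1, huv2⟩ := huv
  rcases hLU u (hw hu) with h1 | ⟨h1, h2, h3⟩
  · have h4 : AnalyticAt ℂ f v := huv2.1 h1.1
    rcases hLU v (hw hv) with h5 | ⟨h5, h6, h7⟩
    · exact hsm u hu v hv h1 h5 huv1
    · exact absurd h4 (seq_not_an h5 h6 h7)
  · have h4 : ¬ AnalyticAt ℂ f v := fun h5 => seq_not_an h1 h2 h3 (huv2.2 h5)
    rcases hLU v (hw hv) with h5 | ⟨h5, h6, h7⟩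
    · exact absurd h5.1 h4
    · by_contra hne
      have hreg : ∀ a ∈ ball w d, (f a)⁻¹ ≠ 0 → Rg f a := by
        intro a ha h8
        rcases hLU a (hw ha) with h9 | ⟨h9, -, -⟩
        · exact h9
        · exact absurd (by rw [h9, inv_zero]) h8
      obtain ⟨U, V, hU, hV, huU, hvV, hUV⟩ := t2_separation hne
      have h8 : map (fun w => (f w)⁻¹) (𝓝 u) = 𝓝 (f u)⁻¹ := by
        have := h2.hasStrictDerivAt.map_nhds_eq h3
        exact this
      have h9 : map (fun w => (f w)⁻¹) (𝓝 v) = 𝓝 (f v)⁻¹ := by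
        have := h6.hasStrictDerivAt.map_nhds_eq h7
        exact this
      rw [h1, inv_zero] at h8
      rw [h5, inv_zero] at h9
      have h10 : (fun w => (f w)⁻¹) '' (U ∩ ball w d) ∈ 𝓝 (0 : ℂ) := by
        rw [← h8]
        exact image_mem_map ((hU.inter isOpen_ball).mem_nhds ⟨huU, hu⟩)
      have h11 : (fun w => (f w)⁻¹) '' (V ∩ ball w d) ∈ 𝓝 (0 : ℂ) := by
        rw [← h9]
        exact image_mem_map ((hV.inter isOpen_ball).mem_nhds ⟨hvV, hv⟩)
      have h12 : ∀ᶠ e in 𝓝[≠] (0 : ℂ), e ∈ (fun w => (f w)⁻¹) '' (U ∩ ball w d) ∧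
          e ∈ (fun w => (f w)⁻¹) '' (V ∩ ball w d) ∧ e ≠ 0 := by
        filter_upwards [nhdsWithin_le_nhds h10, nhdsWithin_le_nhds h11, self_mem_nhdsWithin]
          with e he1 he2 he3
        exact ⟨he1, he2, he3⟩
      obtain ⟨e, ⟨a, ⟨ha1, ha2⟩, ha3⟩, ⟨b, ⟨hb1, hb2⟩, hb3⟩, he⟩ := h12.exists
      have ha4 : (f a)⁻¹ = e := ha3
      have hb4 : (f b)⁻¹ = e := hb3
      have h13 : f a = f b := by
        rw [← inv_inv (f a), ← inv_inv (f b), ha4, hb4]
      have h14 : a = b := hsm a ha2 b hb2 (hreg a ha2 (by rw [ha4]; exact he))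
        (hreg b hb2 (by rw [hb4]; exact he)) h13
      rw [← h14] at hb1
      exact Set.disjoint_left.1 hUV ha1 hb1

end Pool.Agent.MP_ae5b4e_an_SVC
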