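import Pool.Agent.Lib.MP_ae5b4e_an_SVC.Defs

/-!
# MP_ae5b4e_an, project SV: a curve covers the unit circle
-/

noncomputable section

namespace Pool.Agent.MP_ae5b4e_an_SVC

open Complex Set Filter Topology Metric

variable {f : ℂ → ℂ} {h : ℝ}

theorem Crv.surj (H : Crv f h) (θ : ℝ) : ∃ t : ℝ, f t = exp (θ * I) := by
  by_contra hne
  push Not at hne
  set e : ℂ := exp (-(θ * I)) with he
  have he1 : exp (θ * I) * e = 1 := by
    rw [he, ← Complex.exp_add, add_neg_cancel, Complex.exp_zero]
  have he0 : e ≠ 0 := Complex.exp_ne_zero _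
  have hen : ‖e‖ = 1 := by
    have h1 := Complex.norm_exp_ofReal_mul_I (-θ)
    rw [he]
    rw [← h1]
    congr 2
    push_cast
    ring
  set w : ℝ → ℂ := fun t => -(f t) * e with hw
  have hwn : ∀ t, ‖w t‖ = 1 := by
    intro t
    rw [hw]
    simp only [norm_mul, norm_neg]
    rw [H.circ t, hen, one_mul]
  have hwc : Continuous w := by
    rw [continuous_iff_continuousAt]
    intro t
    have h1 : ContinuousAt (fun t : ℝ => f t) t :=
      ContinuousAt.comp (g := f) (f := fun t : ℝ => (t : ℂ)) (H.an t).continuousAt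
        Complex.continuous_ofReal.continuousAt
    exact h1.neg.mul continuousAt_const
  have hw1 : ∀ t, w t ∈ slitPlane := by
    intro t
    rw [Complex.mem_slitPlane_iff]
    by_contra h0
    push Not at h0
    obtain ⟨h1, h2⟩ := h0
    have h3 : Complex.normSq (w t) = 1 := by
      rw [Complex.normSq_eq_norm_sq, hwn t, one_pow]
    rw [Complex.normSq_apply, h2, mul_zero, add_zero] at h3
    have h4 : (w t).re = -1 := by nlinarith
    have h5 : w t = -1 := Complex.ext (by simpa using h4) (by simpa using h2)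
    apply hne t
    have h6 : -(f t) * e = -1 := h5
    apply mul_right_cancel₀ he0
    rw [he1]
    linear_combination -h6
  set φ : ℝ → ℝ := fun t => arg (w t) with hφ
  have hφc : Continuous φ := by
    rw [continuous_iff_continuousAt]
    intro t
    exact ContinuousAt.comp (g := arg) (f := w) (continuousAt_arg (hw1 t)) hwc.continuousAt
  have hinj : ∀ s t : ℝ, φ s = φ t → ∃ n : ℤ, s = t + n := by
    intro s t hst
    have h1 : w s = w t := Complex.ext_norm_arg (by rw [hwn, hwn]) hst
    have h2 : -(f s) * e = -(f t) * e := h1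
    exact H.inj s t (neg_injective (mul_right_cancel₀ he0 h2))
  have h01 : φ 1 = φ 0 := by
    have h1 := H.per 0
    have h2 : w 1 = w 0 := by
      show -(f ((1 : ℝ) : ℂ)) * e = -(f ((0 : ℝ) : ℂ)) * e
      rw [← h1]
      simp
    show arg (w 1) = arg (w 0)
    rw [h2]
  have h02 : φ 0 ≠ φ (1 / 2) := by
    intro h1
    obtain ⟨n, hn⟩ := hinj _ _ h1
    have h2 : (2 * n + 1 : ℝ) = 0 := by linarith
    have h3 : (2 * n + 1 : ℤ) = 0 := by exact_mod_cast h2
    omega
  have hm1 : (φ 0 + φ (1 / 2)) / 2 ∈ uIcc (φ 0) (φ (1 / 2)) := by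
    rw [mem_uIcc]
    rcases le_total (φ 0) (φ (1 / 2)) with h1 | h1
    · left
      constructor <;> linarith
    · right
      constructor <;> linarith
  have hm2 : (φ 0 + φ (1 / 2)) / 2 ∈ uIcc (φ (1 / 2)) (φ 1) := by
    rw [h01, uIcc_comm]
    exact hm1
  obtain ⟨s, hs, hs1⟩ := intermediate_value_uIcc hφc.continuousOn hm1
  obtain ⟨t, ht, ht1⟩ := intermediate_value_uIcc hφc.continuousOn hm2
  rw [uIcc_of_le (by norm_num)] at hs ht
  obtain ⟨n, hn⟩ := hinj s t (hs1.trans ht1.symm)
  have hn1 : (n : ℝ) ≤ 0 := by linarith [hs.2, ht.1]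
  have hn2 : (-1 : ℝ) ≤ n := by linarith [hs.1, ht.2]
  have hn1' : n ≤ 0 := by exact_mod_cast hn1
  have hn2' : -1 ≤ n := by exact_mod_cast hn2
  have hn3 : n = 0 ∨ n = -1 := by omega
  rcases hn3 with h3 | h3
  · rw [h3, Int.cast_zero, add_zero] at hn
    have h4 : s = 1 / 2 := le_antisymm hs.2 (by rw [hn]; exact ht.1)
    rw [h4] at hs1
    exact h02 (by linarith)
  · rw [h3] at hn
    push_cast at hn
    have h4 : s = 0 := le_antisymm (by linarith [ht.2]) hs.1
    rw [h4] at hs1
    exact h02 (by linarith)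

end Pool.Agent.MP_ae5b4e_an_SVC
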