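import Pool.Agent.Lib.MP_ae5b4e_an_SVC.Strip

/-!
# MP_ae5b4e_an, project SV: extension beyond one of the two boundary lines
-/

noncomputable section

namespace Pool.Agent.MP_ae5b4e_an_SVC

open Complex Set Filter Topology Metric
open Pool.Agent.MP_ae5b4e_an_NBT (St isOpen_St convex_St)
open scoped ComplexConjugate

variable {f : ℂ → ℂ} {h : ℝ}

/-- the reflected function -/
def rf (g : ℂ → ℂ) (s : ℂ) : ℂ := (conj (g (conj s)))⁻¹

private theorem beyond_tc (t : ℂ) : Tendsto (fun s : ℂ => conj s) (𝓝 t) (𝓝 (conj t)) :=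
  Complex.continuous_conj.tendsto t

private theorem beyond_tc' (t : ℂ) : Tendsto (fun s : ℂ => conj s) (𝓝[≠] t) (𝓝[≠] (conj t)) := by
  refine tendsto_nhdsWithin_iff.2 ⟨(beyond_tc t).mono_left nhdsWithin_le_nhds, ?_⟩
  filter_upwards [self_mem_nhdsWithin] with s hs
  intro h0
  exact hs ((starRingEnd ℂ).injective h0)

private theorem beyond_an {g : ℂ → ℂ} {t : ℂ} (hg : AnalyticAt ℂ g (conj t)) :
    AnalyticAt ℂ (fun s => conj (g (conj s))) t := by
  rw [Complex.analyticAt_iff_eventually_differentiableAt] at *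
  filter_upwards [(beyond_tc t).eventually hg] with z hz
  exact differentiableAt_conj_conj_iff.2 hz

theorem meromorphicAt_rf {g : ℂ → ℂ} {t : ℂ} (hg : MeromorphicAt g (conj t)) :
    MeromorphicAt (rf g) t := by
  have h1 : MeromorphicAt (fun s => conj (g (conj s))) t := by
    obtain ⟨n, hn⟩ := hg
    refine ⟨n, ?_⟩
    have h2 := beyond_an hn
    have e : (fun s => conj ((fun z => (z - conj t) ^ n • g z) (conj s))) =
        fun s => (s - t) ^ n • conj (g (conj s)) := by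
      funext s
      simp [smul_eq_mul]
    rw [e] at h2
    exact h2
  exact h1.inv

/-- two meromorphic functions on strips which agree on the common strip glue -/
private theorem beyond_glue {g₁ g₂ : ℂ → ℂ} {a b a' b' : ℝ} (h1 : a ≤ a') (h2 : a' < b)
    (h3 : b ≤ b') (hg₁ : MeromorphicOn g₁ (St a b)) (hg₂ : MeromorphicOn g₂ (St a' b'))
    (he : ∀ t ∈ St a' b, g₁ =ᶠ[𝓝[≠] t] g₂) :
    ∃ g : ℂ → ℂ, MeromorphicOn g (St a b') ∧ (∀ t ∈ St a b, g =ᶠ[𝓝[≠] t] g₁) ∧
      ∀ t ∈ St a' b', g =ᶠ[𝓝[≠] t] g₂ := by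
  have hm1 : a' < (a' + b) / 2 := by linarith
  have hm2 : (a' + b) / 2 < b := by linarith
  set m : ℝ := (a' + b) / 2 with hm
  set g : ℂ → ℂ := fun s => if s.im < m then g₁ s else g₂ s with hgdef
  have k1 : ∀ t ∈ St a b, g =ᶠ[𝓝[≠] t] g₁ := by
    intro t ht
    rcases lt_or_ge t.im m with hlt | hge
    · have h0 : ∀ᶠ s : ℂ in 𝓝 t, s.im < m :=
        (isOpen_lt Complex.continuous_im continuous_const).mem_nhds hlt
      filter_upwards [nhdsWithin_le_nhds h0] with s hs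
      simp only [hgdef, if_pos hs]
    · have ht' : t ∈ St a' b := ⟨lt_of_lt_of_le hm1 hge, ht.2⟩
      filter_upwards [he t ht'] with s hs
      by_cases hsm : s.im < m
      · simp only [hgdef, if_pos hsm]
      · simp only [hgdef, if_neg hsm]
        exact hs.symm
  have k2 : ∀ t ∈ St a' b', g =ᶠ[𝓝[≠] t] g₂ := by
    intro t ht
    rcases lt_or_ge m t.im with hlt | hge
    · have h0 : ∀ᶠ s : ℂ in 𝓝 t, m < s.im :=
        (isOpen_lt continuous_const Complex.continuous_im).mem_nhds hlt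
      filter_upwards [nhdsWithin_le_nhds h0] with s hs
      simp only [hgdef, if_neg (not_lt.2 (le_of_lt hs))]
    · have ht' : t ∈ St a' b := ⟨ht.1, lt_of_le_of_lt hge hm2⟩
      filter_upwards [he t ht'] with s hs
      by_cases hsm : s.im < m
      · simp only [hgdef, if_pos hsm]
        exact hs
      · simp only [hgdef, if_neg hsm]
  refine ⟨g, ?_, k1, k2⟩
  intro t ht
  rcases lt_or_ge t.im b with hlt | hge
  · have ht' : t ∈ St a b := ⟨ht.1, hlt⟩
    exact (hg₁ t ht').congr (k1 t ht').symm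
  · have ht' : t ∈ St a' b' := ⟨lt_of_lt_of_le h2 hge, ht.2⟩
    exact (hg₂ t ht').congr (k2 t ht').symm

/-- an extension beyond the upper line gives one beyond both lines -/
theorem beyond (H : Crv f h) {y : ℝ} (hy : h < y) {g : ℂ → ℂ}
    (hg : MeromorphicOn g (St (-h) y)) (hgf : g =ᶠ[𝓝 (0:ℂ)] f) :
    ∃ g' : ℂ → ℂ, MeromorphicOn g' (St (-y) y) ∧ g' =ᶠ[𝓝 (0:ℂ)] f := by
  have hpos := H.pos
  have h0 : (0:ℂ) ∈ St (-h) h := ⟨by simpa using hpos, by simpa using hpos⟩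
  have hgm : MeromorphicOn g (St (-h) h) := fun t ht => hg t ⟨ht.1, lt_trans ht.2 hy⟩
  have hfr : ∃ᶠ s in 𝓝[≠] (0:ℂ), g s = f s :=
    (hgf.filter_mono nhdsWithin_le_nhds).frequently
  have hid : ∀ t ∈ St (-h) h, g =ᶠ[𝓝[≠] t] f := fun t ht => H.ident hgm h0 hfr ht
  have hr : MeromorphicOn (rf g) (St (-y) h) := by
    intro t ht
    refine meromorphicAt_rf (hg (conj t) ⟨?_, ?_⟩)
    · rw [conj_im]
      linarith [ht.2]
    · rw [conj_im]
      linarith [ht.1]
  have he : ∀ t ∈ St (-h) h, rf g =ᶠ[𝓝[≠] t] g := by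
    intro t ht
    have htc : conj t ∈ St (-h) h := by
      refine ⟨?_, ?_⟩
      · rw [conj_im]
        linarith [ht.2]
      · rw [conj_im]
        linarith [ht.1]
    filter_upwards [(beyond_tc' t).eventually (hid _ htc), H.refl' ht, hid t ht] with s h1 h2 h3
    have h4 : rf g s = (conj (f (conj s)))⁻¹ := by
      unfold rf
      rw [h1]
    rw [h4, h3]
    exact (eq_inv_of_mul_eq_one_right h2).symm
  obtain ⟨g0, hg0, -, hk⟩ := beyond_glue (g₁ := rf g) (g₂ := g) (a := -y) (b := h) (a' := -h)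
    (b' := y) (by linarith) (by linarith) hy.le hr hg he
  have h0y : (0:ℂ) ∈ St (-h) y := ⟨h0.1, lt_trans h0.2 hy⟩
  have hgf0 : g0 =ᶠ[𝓝[≠] (0:ℂ)] f := (hk 0 h0y).trans (hgf.filter_mono nhdsWithin_le_nhds)
  have hup : ∀ t : ℂ, g0 =ᶠ[𝓝[≠] t] Function.update g0 0 (f 0) := by
    intro t
    by_cases ht : t = 0
    · subst ht
      filter_upwards [self_mem_nhdsWithin] with s hs
      rw [Function.update_of_ne hs]
    · filter_upwards [nhdsWithin_le_nhds (isOpen_ne.mem_nhds ht)] with s hs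
      rw [Function.update_of_ne hs]
  refine ⟨Function.update g0 0 (f 0), fun t ht => (hg0 t ht).congr (hup t), ?_⟩
  have h5 : Function.update g0 0 (f 0) =ᶠ[𝓝[≠] (0:ℂ)] f := (hup 0).symm.trans hgf0
  have h6 : ∀ᶠ s in 𝓝[≠] (0:ℂ), Function.update g0 0 (f 0) s = f s := h5
  rw [eventually_nhdsWithin_iff] at h6
  filter_upwards [h6] with s hs
  by_cases hs0 : s = 0
  · subst hs0
    simp
  · exact hs hs0

/-- two meromorphic functions on strips which agree on the common strip glue -/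
theorem glue_strips {g₁ g₂ : ℂ → ℂ} {a b a' b' : ℝ} (h1 : a ≤ a') (h2 : a' < b) (h3 : b ≤ b')
    (hg₁ : MeromorphicOn g₁ (St a b)) (hg₂ : MeromorphicOn g₂ (St a' b'))
    (he : ∀ t ∈ St a' b, g₁ =ᶠ[𝓝[≠] t] g₂) :
    ∃ g : ℂ → ℂ, MeromorphicOn g (St a b') ∧ (∀ t ∈ St a b, g =ᶠ[𝓝[≠] t] g₁) ∧
      ∀ t ∈ St a' b', g =ᶠ[𝓝[≠] t] g₂ :=
  beyond_glue h1 h2 h3 hg₁ hg₂ he

end Pool.Agent.MP_ae5b4e_an_SVC
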