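import Pool.Agent.Lib.MP_ae5b4e_an_SVC.Sym
import Pool.Agent.Lib.MP_ae5b4e_an_SVC.Beyond

/-!
# MP_ae5b4e_an, project SV: symmetries of a curve of finite maximal height
-/

noncomputable section

namespace Pool.Agent.MP_ae5b4e_an_SVC

open Complex Set Filter Topology Metric
open Pool.Agent.MP_ae5b4e_an_NBT (St isOpen_St convex_St)

variable {f : ℂ → ℂ} {h : ℝ} {A B : ℂ}

/-- the imaginary part of an affine image -/
private theorem triv_im (hA : A.im = 0) (s : ℂ) : (A * s + B).im = A.re * s.im + B.im := by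
  rw [add_im, mul_im, hA]
  ring

private theorem triv_inv_im (hA : A.im = 0) (s : ℂ) :
    (A⁻¹ * s + -(B / A)).im = (s.im - B.im) / A.re := by
  have hAr : A = (A.re : ℂ) := by
    apply Complex.ext
    · simp
    · simp [hA]
  have h1 : A⁻¹ * s + -(B / A) = (s - B) / (A.re : ℂ) := by
    rw [← hAr]
    ring
  rw [h1, div_ofReal_im, sub_im]

/-- replace the value at one point -/
private theorem triv_update {g : ℂ → ℂ} {D : Set ℂ} (hg : MeromorphicOn g D) (c : ℂ) :
    MeromorphicOn (Function.update g 0 c) D := by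
  intro t ht
  refine (hg t ht).congr ?_
  have h1 : ∀ᶠ w in 𝓝[≠] t, w ≠ 0 := by
    by_cases h0 : t = 0
    · subst h0
      exact self_mem_nhdsWithin
    · exact nhdsWithin_le_nhds (isOpen_ne.mem_nhds h0)
  filter_upwards [h1] with w hw
  rw [Function.update_of_ne hw]

/-- the normalised case -/
private theorem triv_core (H : Crv f h) (hM : MaxH f h) (S : Sy f h A B) (hA : A.im = 0)
    (h1 : 1 ≤ |A.re|) (hB : 0 ≤ B.im) (hne : 1 < |A.re| ∨ 0 < B.im) : False := by
  have hh := H.pos
  have hre : A.re ≠ 0 := by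
    intro h0
    rw [h0, abs_zero] at h1
    linarith
  have ha0 : 0 < |A.re| := by linarith
  set a : ℝ := |A.re| with ha
  set β : ℝ := B.im with hβ
  -- the image of the strip meets the strip
  have hup : β - a * h < h := by
    obtain ⟨s, hs, hs'⟩ := S.ex
    have e1 : (A * s + B).im < h := hs'.2
    rw [triv_im hA] at e1
    have e2 : |A.re * s.im| < a * h := by
      rw [abs_mul]
      apply mul_lt_mul_of_pos_left _ ha0
      rw [abs_lt]
      exact hs
    have e3 := (abs_lt.1 e2).1
    linarith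
  have hlow : h < β + a * h := by
    rcases hne with h2 | h2
    · nlinarith
    · nlinarith
  -- the shifted function
  set g₂ : ℂ → ℂ := fun w => f (A⁻¹ * w + -(B / A)) with hg₂
  have hmem : ∀ w : ℂ, w ∈ St (β - a * h) (β + a * h) → A⁻¹ * w + -(B / A) ∈ St (-h) h := by
    intro w hw
    have e1 : |(w.im - β) / A.re| < h := by
      rw [abs_div, div_lt_iff₀ ha0, abs_lt]
      constructor
      · have := hw.1
        linarith
      · have := hw.2
        linarith
    show -h < (A⁻¹ * w + -(B / A)).im ∧ (A⁻¹ * w + -(B / A)).im < h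
    rw [triv_inv_im hA]
    exact abs_lt.1 e1
  have hmer : MeromorphicOn g₂ (St (β - a * h) (β + a * h)) := by
    intro w hw
    have e1 : MeromorphicAt f (A⁻¹ * w + -(B / A)) := H.mer _ (hmem w hw)
    have e2 : AnalyticAt ℂ (fun w : ℂ => A⁻¹ * w + -(B / A)) w := by fun_prop
    exact MeromorphicAt.comp_analyticAt (g := fun w : ℂ => A⁻¹ * w + -(B / A)) e1 e2
  set a' : ℝ := max (-h) (β - a * h) with ha'
  have h1' : -h ≤ a' := le_max_left _ _
  have h2' : a' < h := max_lt (by linarith) hup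
  have hsub : ∀ b : ℝ, ∀ t ∈ St a' b, t ∈ St (β - a * h) b := by
    intro b t ht
    exact ⟨lt_of_le_of_lt (le_max_right _ _) ht.1, ht.2⟩
  obtain ⟨g, hg, hg1, -⟩ := glue_strips (g₁ := f) (g₂ := g₂) h1' h2' hlow.le H.mer
    (fun t ht => hmer t (hsub _ t ht)) (fun t ht => by
      have e1 : t ∈ St (-h) h := ⟨lt_of_le_of_lt h1' ht.1, ht.2⟩
      have e2 : t ∈ St (β - a * h) (β + a * h) :=
        ⟨(hsub _ t ht).1, lt_trans ht.2 hlow⟩
      exact (S.inv.eq t e1 (hmem t e2)).symm)
  have h0 : (0 : ℂ) ∈ St (-h) h := ⟨by simpa using hh, by simpa using hh⟩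
  have hg0 := hg1 0 h0
  have hgu : Function.update g 0 (f 0) =ᶠ[𝓝 (0 : ℂ)] f := by
    rw [Filter.EventuallyEq, eventually_nhdsWithin_iff] at hg0
    filter_upwards [hg0] with w hw
    by_cases hw0 : w = 0
    · subst hw0
      rw [Function.update_self]
    · rw [Function.update_of_ne hw0]
      exact hw hw0
  obtain ⟨g', hg', hg'f⟩ := beyond H hlow (triv_update hg (f 0)) hgu
  exact hM _ hlow g' hg' hg'f

/-- a curve of finite maximal height has only the trivial symmetries -/
theorem Sy.triv (H : Crv f h) (hM : MaxH f h) (S : Sy f h A B) : A = 1 ∧ ∃ n : ℤ, B = n := by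
  have hA : A.im = 0 := S.real H
  have hre : A.re ≠ 0 := by
    intro h0
    exact S.ne (Complex.ext h0 hA)
  -- with the sign of the imaginary part
  have key : ∀ A' B' : ℂ, Sy f h A' B' → A'.im = 0 → 1 ≤ |A'.re| →
      (1 < |A'.re| ∨ B'.im ≠ 0) → False := by
    intro A' B' S' hA' h1 hne
    rcases lt_or_ge B'.im 0 with hB | hB
    · refine triv_core H hM (S'.refl H hA') hA' h1 ?_ (Or.inr ?_)
      · rw [conj_im]
        linarith
      · rw [conj_im]
        linarith
    · refine triv_core H hM S' hA' h1 hB ?_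
      rcases hne with h2 | h2
      · exact Or.inl h2
      · exact Or.inr (lt_of_le_of_ne hB (Ne.symm h2))
  have hinv : (A⁻¹).im = 0 ∧ (A⁻¹).re = (A.re)⁻¹ := by
    have hAr : A = (A.re : ℂ) := by
      apply Complex.ext
      · simp
      · simp [hA]
    rw [hAr, ← ofReal_inv]
    exact ⟨ofReal_im _, by simp⟩
  have h1 : ¬ |A.re| < 1 := by
    intro hlt
    have hpos : 0 < |A.re| := abs_pos.2 hre
    have h2 : 1 < |(A⁻¹).re| := by
      rw [hinv.2, abs_inv]
      exact (one_lt_inv₀ hpos).2 hlt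
    exact key _ _ S.inv hinv.1 h2.le (Or.inl h2)
  have h2 : ¬ 1 < |A.re| := fun hlt => key _ _ S hA hlt.le (Or.inl hlt)
  have h3 : |A.re| = 1 := le_antisymm (not_lt.1 h2) (not_lt.1 h1)
  have h4 : B.im = 0 := by
    by_contra hB
    exact key _ _ S hA h3.ge (Or.inr hB)
  refine S.real_B H ?_ h4
  rcases abs_eq (zero_le_one' ℝ) |>.1 h3 with h5 | h5
  · left
    apply Complex.ext
    · rw [h5, one_re]
    · rw [hA, one_im]
  · right
    apply Complex.ext
    · rw [h5, neg_re, one_re]
    · rw [hA, neg_im, one_im, neg_zero]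

end Pool.Agent.MP_ae5b4e_an_SVC
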