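import Pool.Agent.Lib.MP_ae5b4e_an_RG.CFin
import Pool.Agent.Lib.MP_ae5b4e_an_NBT.ConX
import Pool.Agent.Lib.MP_ae5b4e_an_SV.ThmV
import Pool.Agent.Lib.MP_ae5b4e_an_SVC.Ode
import Pool.Agent.Lib.MP_ae5b4e_an_SVC.Aff
import Pool.Agent.Lib.MP_ae5b4e_an_SVC.Triv
import Pool.Agent.Lib.MP_ae5b4e_an_SVC.LUf
import Pool.Agent.Lib.MP_ae5b4e_an_SVC.Range
import Pool.Agent.Lib.MP_ae5b4e_an_SVC.MaxE
import Pool.Agent.Lib.MP_ae5b4e_an_SVC.Circ
import Pool.Agent.Lib.MP_ae5b4e_an_SVC.Link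
import Pool.Agent.Lib.MP_ae5b4e_an_SVC.ExtR
import Pool.Agent.Lib.MP_ae5b4e_an_SVC.Seq
import Pool.Agent.Lib.MP_ae5b4e_an_SVC.Surj

/-!
# MP_ae5b4e_an, project SV: the theorem on single valued kernels
-/

noncomputable section

namespace Pool.Agent.MP_ae5b4e_an_SVC

open Complex Set Filter Topology Metric
open scoped ContDiff
open Pool.Agent.MP_ae5b4e_an_NBT

variable {K f : ℂ → ℂ} {Ω : Set ℂ} {h c : ℝ}

lemma real_mem (hh : 0 < h) (t : ℝ) : (t : ℂ) ∈ St (-h) h := by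
  constructor <;> simp [hh]

/-- a curve of finite maximal height is injective modulo one -/
theorem inj_of_max (hK : SVal K Ω) (H : Crv f h) (hM : MaxH f h) {t₀ : ℝ} (h0 : f t₀ ∈ Ω)
    (ho : Ode K f t₀) : InjR f h := by
  intro t₁ h1 t₂ h2 r1 r2 he
  have R0 : Rg f t₀ := ⟨H.an t₀, H.dr t₀⟩
  obtain ⟨-, o1⟩ := ode_strip hK H (real_mem H.pos t₀) R0 h0 ho h1 r1
  obtain ⟨-, o2⟩ := ode_strip hK H (real_mem H.pos t₀) R0 h0 ho h2 r2
  obtain ⟨A, B, hA, hAB, hev⟩ := aff_local r1 r2 o1 o2 he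
  have S : Sy f h A B := sy_of_germ H hA h1 (by rw [hAB]; exact h2)
    (hev.filter_mono nhdsWithin_le_nhds).frequently
  obtain ⟨hA1, n, hn⟩ := S.triv H hM
  exact ⟨n, by rw [← hAB, hA1, hn]; ring⟩

theorem con_mono {k : ℂ → ℂ} {F : ℂ × ℂ → ℂ} {c c' : ℝ} (hC : Con k F c) (h0 : 0 < c')
    (hc : c' ≤ c) : Con k F c' := by
  have hS : ∀ {t : ℂ}, t ∈ St (-c') c' → t ∈ St (-c) c := fun ht =>
    ⟨by linarith [ht.1], by linarith [ht.2]⟩
  have hP : ∀ p ∈ St (-c') c' ×ˢ ball (0:ℂ) c', p ∈ St (-c) c ×ˢ ball (0:ℂ) c := fun p hp =>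
    ⟨hS hp.1, ball_subset_ball hc hp.2⟩
  exact { pos := h0
          an := fun p hp => hC.an p (hP p hp)
          per := fun p hp => hC.per p (hP p hp)
          inj := hC.inj
          reg := fun p hp => hC.reg p (hP p hp)
          sep := fun p hp h1 h2 => hC.sep p (hP p hp) h1 (hS h2)
          fe := fun p hp h1 h2 h3 => hC.fe p (hP p hp) h1 (hS h2) (hS h3)
          even := fun p hp => hC.even p (hP p hp)
          refl := fun p hp => hC.refl p (hP p hp)
          dt := fun p hp => hC.dt p (hP p hp) }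

/-- transfer of the differential equation -/
lemma ode_congr {g : ℂ → ℂ} {t : ℂ} (h : f =ᶠ[𝓝 t] g) (ho : Ode K f t) : Ode K g t := by
  have h1 : ∀ᶠ s in 𝓝[≠] t, f =ᶠ[𝓝 s] g :=
    (h.eventuallyEq_nhds).filter_mono nhdsWithin_le_nhds
  filter_upwards [ho, h1] with s hs h2
  rw [← h2.eq_of_nhds, ← h2.deriv.deriv_eq, ← h2.deriv_eq]
  exact hs

/-- curves which agree near `0` agree near all real points -/
lemma Crv.real_eq {g : ℂ → ℂ} {h' : ℝ} (H : Crv f h) (H' : Crv g h') (he : f =ᶠ[𝓝 (0:ℂ)] g)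
    (t : ℝ) : f =ᶠ[𝓝 (t:ℂ)] g := by
  have h1 := (H.unique H' he).2 t (real_mem (lt_min H.pos H'.pos) t)
  have h2 : f t = g t := (H.unique H' he).1 t
  rw [EventuallyEq, eventually_nhdsWithin_iff] at h1
  filter_upwards [h1] with s hs
  by_cases hst : s = t
  · rw [hst]; exact h2
  · exact hs hst

theorem compl_countable {k : ℂ → ℂ} {F : ℂ × ℂ → ℂ} (hC : Con k F c) (hK : SVal K Ω) {t₀ : ℝ}
    (h0 : F (t₀, 0) ∈ Ω) (hk : k =ᶠ[𝓝[≠] F (t₀, 0)] K) : Ωᶜ.Countable := by
  have hc : 0 < c := hC.pos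
  set f₀ : ℂ → ℂ := fun t => F (t, 0) with hf₀
  have H₀ : Crv f₀ c := crv_of_con hC
  obtain ⟨-, r0, o0⟩ := ode_of_con hC (t := (t₀:ℂ)) (by simpa using hc)
  have r0' : Rg f₀ t₀ := r0
  have ho0 : Ode K f₀ t₀ := by
    have h1 : Tendsto f₀ (𝓝[≠] (t₀:ℂ)) (𝓝[≠] (f₀ t₀)) :=
      r0'.1.differentiableAt.hasDerivAt.tendsto_nhdsNE r0'.2
    filter_upwards [o0, h1.eventually hk] with s hs1 hs2
    rw [← hs2]
    exact hs1
  rcases exists_max H₀ with ⟨f, h', hch', H, hM, hff⟩ | ⟨f, H, hff⟩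
  · -- finite maximal height
    exfalso
    have hcc : Con k F (c / 2) := con_mono hC (by linarith) (by linarith)
    -- heights
    set S : Set ℝ := {y | ExtM F (c / 2) (c / 2 / 4) y 0} with hS
    have hdown : ∀ y ∈ S, ∀ y' ≤ y, y' ∈ S := by
      rintro y ⟨δ, hδ, hsub, G, hG, hGF⟩ y' hy'
      exact ⟨δ, hδ, hsub, G, hG.mono (prod_mono (fun t ht => ⟨ht.1, by linarith [ht.2]⟩) subset_rfl),
        fun p hp => hGF p ⟨⟨hp.1.1, lt_min (hp.1.2.trans_le (min_le_left _ _))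
          ((hp.1.2.trans_le (min_le_right _ _)).trans_le hy')⟩, hp.2⟩⟩
    have hcS : c ∈ S := by
      refine ⟨c / 2 / 4, by linarith, subset_rfl, F, ?_, fun p _ => EqM.refl F p⟩
      exact Mer.of_analytic fun p hp => hC.an p
        ⟨⟨by linarith [hp.1.1], hp.1.2⟩, ball_subset_ball (by linarith) hp.2⟩
    have hconE : ∀ h : ℝ, c / 2 < h → (∀ y < h, y ∈ S) → ∃ G : ℂ × ℂ → ℂ,
        ConE k F (c / 2) h G ∧ Crv (sl G 0) h ∧ sl G 0 =ᶠ[𝓝 (0:ℂ)] f := by
      intro h hh hy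
      obtain ⟨G, hE⟩ := exists_conE hcc hh hy
      obtain ⟨H1, H2⟩ := crv_of_conE hE
      refine ⟨G, hE, H1, ?_⟩
      have : ∀ᶠ t : ℂ in 𝓝 0, |t.im| < c / 2 := by
        have h1 : ContinuousAt (fun t : ℂ => |t.im|) 0 := by fun_prop
        exact h1.eventually_lt continuousAt_const (by simpa using hc)
      filter_upwards [this, hff] with t ht1 ht2
      rw [H2 t ht1, ht2]
    have hbdd : BddAbove S := by
      refine ⟨h', fun y hy => ?_⟩
      by_contra hlt
      push Not at hlt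
      obtain ⟨G, hE, H1, H2⟩ := hconE y (by linarith) fun y' hy' => hdown y hy y' hy'.le
      exact hM y hlt _ H1.mer H2
    set h := sSup S with hh
    have hch : c ≤ h := le_csSup hbdd hcS
    have hlt : ∀ y < h, y ∈ S := by
      intro y hy
      obtain ⟨y', hy', hyy'⟩ := exists_lt_of_lt_csSup ⟨c, hcS⟩ hy
      exact hdown y' hy' y hyy'.le
    have hgt : ∀ y > h, y ∉ S := fun y hy hyS => absurd (le_csSup hbdd hyS) (not_le.2 hy)
    obtain ⟨G, hE, H1, H2⟩ := hconE h (by linarith) hlt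
    have hh' : h ≤ h' := by
      by_contra hlt'
      push Not at hlt'
      exact hM h hlt' _ H1.mer H2
    -- the equation for both curves
    have e1 : f =ᶠ[𝓝 (t₀:ℂ)] f₀ := H.real_eq H₀ hff t₀
    have e2 : sl G 0 =ᶠ[𝓝 (t₀:ℂ)] f := H1.real_eq H H2 t₀
    have hof : Ode K f t₀ := ode_congr e1.symm ho0
    have h0f : f t₀ ∈ Ω := by rw [e1.eq_of_nhds]; exact h0
    have hi : InjR f h' := inj_of_max hK H hM h0f hof
    obtain ⟨g, hg, hgf, hgr⟩ := lu_of_inj H hi
    have hgG : ∀ t ∈ St (-h) h, g =ᶠ[𝓝[≠] t] sl G 0 := by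
      intro t ht
      have ht' : t ∈ St (-h') h' := ⟨by linarith [ht.1], by linarith [ht.2]⟩
      have h3 := (H1.unique H H2).2 t (by rwa [min_eq_left hh'])
      exact (hgf t ht').trans h3.symm
    have hLU : LU (sl G 0) (St (-h) h) := by
      intro t ht
      have ht' : t ∈ St (-h') h' := ⟨by linarith [ht.1], by linarith [ht.2]⟩
      have htim : |t.im| < h := abs_lt.2 ht
      have h4 : FamAt G t := fam_of_lu hE htim (f := g)
        (fun z hz => by rw [mem_singleton_iff.1 hz]; exact hg t ht') (hgG t ht).symm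
      exact h4.lu t rfl
    rcases hh'.lt_or_eq with hlt' | heq
    · -- the boundary line is regular
      obtain ⟨y, hy, hyS⟩ := ext_of_reg hE fun b hb => by
        have hbim : |b.im| = h := by rw [hb, abs_of_pos (by linarith)]
        refine reg_of_lu hE hbim (δ := h' - h) (by linarith) (g := g) ?_ ?_
        · intro z hz
          refine hg z ?_
          have h5 : |z.im - b.im| < h' - h := by
            rw [← sub_im]
            refine lt_of_le_of_lt (abs_im_le_norm _) ?_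
            rwa [← dist_eq_norm]
          rw [abs_lt] at h5
          rw [hb] at h5
          exact ⟨by linarith [h5.1], by linarith [h5.2]⟩
        · intro z _ hz
          exact hgG z (abs_lt.1 hz)
      exact hgt y hy hyS
    · -- Theorem V
      have hM1 : MaxH (sl G 0) h := by
        intro y hy g' hg' he'
        exact hM y (by linarith) g' hg' (he'.trans H2)
      have ho1 : Ode K (sl G 0) t₀ := ode_congr e2.symm hof
      have h01 : sl G 0 t₀ ∈ Ω := by rw [e2.eq_of_nhds]; exact h0f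
      have hi1 : InjR (sl G 0) h := inj_of_max hK H1 hM1 h01 ho1
      obtain ⟨y, hy, hyS⟩ := Pool.Agent.MP_ae5b4e_an_SV.thmV hE hLU
        (d := min (1 / 2) h) (lt_min (by norm_num) (by linarith)) (min_le_right _ _)
        fun w hw u hu v hv huv => seq_inj hLU hi1 (min_le_left _ _) (by
          intro z hz
          have h5 : |z.im - w.im| < min (1 / 2) h := by
            rw [← sub_im]
            refine lt_of_le_of_lt (abs_im_le_norm _) ?_
            rwa [← dist_eq_norm]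
          have h6 : min (1 / 2) h ≤ h := min_le_right _ _
          rw [abs_lt, hw] at h5
          exact ⟨by linarith [h5.1], by linarith [h5.2]⟩) hu hv huv
      exact hgt y hy hyS
  · -- the curve extends to the plane
    have e1 : f =ᶠ[𝓝 (t₀:ℂ)] f₀ := (H 1 one_pos).real_eq H₀ hff t₀
    have hof : Ode K f t₀ := ode_congr e1.symm ho0
    have h0f : f t₀ ∈ Ω := by rw [e1.eq_of_nhds]; exact h0
    have R0 : Rg f t₀ := ⟨(H 1 one_pos).an t₀, (H 1 one_pos).dr t₀⟩
    have hall : ∀ t, Rg f t → f t ∈ Ω ∧ Ode K f t := by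
      intro t ht
      have hpos : 0 < |t.im| + 1 := by positivity
      exact ode_strip hK (H _ hpos) (real_mem hpos t₀) R0 h0f hof
        (abs_lt.1 (by linarith : |t.im| < |t.im| + 1)) ht
    have hsub : Ωᶜ ⊆ {x : ℂ | ¬ ∃ t : ℂ, Rg f t ∧ f t = x} := by
      rintro x hx ⟨t, ht, rfl⟩
      exact hx (hall t ht).1
    by_cases hV : Val f univ 1
    · exact (range_val H hV).mono hsub
    unfold Val at hV
    push Not at hV
    obtain ⟨u, hu, hne⟩ := hV
    have hu0 := hu 0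
    have hu1 := hu 1
    obtain ⟨A, B, hA, hAB, hev⟩ := aff_local hu0.2.1 hu1.2.1 (hall _ hu0.2.1).2 (hall _ hu1.2.1).2
      hu1.2.2.symm
    have hsym : ∀ h > max |(u 0).im| |(u 1).im|, Sy f h A B := by
      intro h hh
      have h1 : |(u 0).im| < h := (le_max_left _ _).trans_lt hh
      have h2 : |(u 1).im| < h := (le_max_right _ _).trans_lt hh
      have hpos : 0 < h := (abs_nonneg _).trans_lt h1
      exact sy_of_germ (H h hpos) hA (abs_lt.1 h1) (by rw [hAB]; exact abs_lt.1 h2)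
        (hev.filter_mono nhdsWithin_le_nhds).frequently
    have hs : ∀ s : ℂ, (fun w => f (A * w + B)) =ᶠ[𝓝[≠] s] f := by
      intro s
      set h := max (max |(u 0).im| |(u 1).im|) (max |s.im| |(A * s + B).im|) + 1 with hh
      have h1 : max |(u 0).im| |(u 1).im| < h := by
        have := le_max_left (max |(u 0).im| |(u 1).im|) (max |s.im| |(A * s + B).im|)
        linarith
      have h2 : |s.im| < h := by
        have := (le_max_left |s.im| |(A * s + B).im|).trans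
          (le_max_right (max |(u 0).im| |(u 1).im|) (max |s.im| |(A * s + B).im|))
        linarith
      have h3 : |(A * s + B).im| < h := by
        have := (le_max_right |s.im| |(A * s + B).im|).trans
          (le_max_right (max |(u 0).im| |(u 1).im|) (max |s.im| |(A * s + B).im|))
        linarith
      exact (hsym h h1).eq s (abs_lt.1 h2) (abs_lt.1 h3)
    have hnt : ¬ (A = 1 ∧ ∃ n : ℤ, B = n) := by
      rintro ⟨hA1, n, hn⟩
      refine hne 0 1 (by decide) n ?_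
      rw [← hAB, hA1, hn, one_mul]
    obtain ⟨w₀, hw₀, hper⟩ := sy_inf H hA hs hnt
    exact (range_ell H hw₀ hper).mono hsub

open Pool.Agent.MP_ae5b4e_an_hopf in
open Pool.Agent.MP_ae5b4e_an_MET (conic) in
open Pool.Agent.MP_ae5b4e_an_SMG (Fol) in
open Pool.Agent.MP_ae5b4e_an_RG (circ1 CFam smooth_kappa circle_mero) in
/-- Fields whose meromorphic continuation is single valued. -/
theorem circle_sv {U : ℝ → ℝ → ℝ} {κ : ℝ → ℝ} {K : ℂ → ℂ} {Ω : Set ℂ} (hF : Fol circ1 U κ)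
    (hreg : ContDiff ℝ ∞ κ ∨ (ContDiffOn ℝ ∞ (fun z : ℝ × ℝ => U z.1 z.2) (Ioo 0 1 ×ˢ univ) ∧
      ∀ c ∈ Ioo (0:ℝ) 1, ∀ t, deriv (fun r => U r t) c < 0))
    (hK : SVal K Ω) {θ₀ : ℝ} (h0 : exp (θ₀ * I) ∈ Ω)
    (hκ : ∀ᶠ θ : ℝ in 𝓝 θ₀, (κ θ : ℂ) = K (exp (θ * I))) :
    ∃ Q E : QuadraticForm ℝ (Fin 3 → ℝ), E.Nondegenerate ∧ circ1.trace = conic E ∧
      (∀ θ, 0 < Q (circ1.Γ θ)) ∧
      ∀ c ∈ Ioo (0:ℝ) 1, ∃ ρ : ℝ, (Q - ρ • E).Nondegenerate ∧
        circ1.leaf U c = conic (Q - ρ • E) := by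
  have hs := smooth_kappa circ1 hF hreg
  obtain ⟨k, F, c, hC, hk⟩ := exists_con (CFam.of_fol hF hs)
  have H₀ := crv_of_con hC
  have hka : ∀ θ : ℝ, AnalyticAt ℂ k (exp (θ * I)) := by
    intro θ
    obtain ⟨t, ht⟩ := H₀.surj θ
    rw [← ht]
    have hc := hC.pos
    exact hC.reg ((t:ℂ), 0) ⟨real_mem hc t, mem_ball_self hc⟩
  have hK' := hK.kern
  have hall := circle_all hK' hka h0 (θ₀ := θ₀) (by
    refine Eventually.frequently ?_
    filter_upwards [hκ.filter_mono nhdsWithin_le_nhds] with θ hθ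
    rw [hk, hθ])
  obtain ⟨t₀, ht₀⟩ := H₀.surj θ₀
  have h1 := hall θ₀
  rw [← ht₀] at h1
  have hct : Ωᶜ.Countable := compl_countable hC hK' (t₀ := t₀) h1.1 h1.2
  exact circle_mero hF hreg (hK.countable hct) hκ

end Pool.Agent.MP_ae5b4e_an_SVC
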