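import Mathlib
import Pool.Agent.Lib.MP_ae5b4e_an_NBT.Defs

/-!
# MP_ae5b4e_an, project SV: curves on strips and single valued kernels (definitions)

A curve is a meromorphic function `f` of period one on a strip `|Im t| < h` which maps the real line
onto the unit circle.  The kernel `K` is a meromorphic function on an open set `Ω`, its domain of
existence.
-/

noncomputable section

namespace Pool.Agent.MP_ae5b4e_an_SVC

open Complex Set Filter Topology Metric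
open Pool.Agent.MP_ae5b4e_an_NBT (St)

/-- `K` is meromorphic on `Ω`, and `Ω` is its domain of existence: a meromorphic function on a disc
which agrees with `K` near one point of the disc is a restriction of `K`. -/
structure SVal (K : ℂ → ℂ) (Ω : Set ℂ) : Prop where
  op : IsOpen Ω
  mer : MeromorphicOn K Ω
  max : ∀ (z : ℂ) (r : ℝ) (g : ℂ → ℂ), 0 < r → MeromorphicOn g (ball z r) →
    (∃ w ∈ ball z r ∩ Ω, g =ᶠ[𝓝[≠] w] K) → ball z r ⊆ Ω ∧ ∀ w ∈ ball z r, g =ᶠ[𝓝[≠] w] K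

/-- a curve on the strip `|Im t| < h` -/
structure Crv (f : ℂ → ℂ) (h : ℝ) : Prop where
  pos : 0 < h
  mer : MeromorphicOn f (St (-h) h)
  an : ∀ t : ℝ, AnalyticAt ℂ f t
  dr : ∀ t : ℝ, deriv f t ≠ 0
  circ : ∀ t : ℝ, ‖f t‖ = 1
  inj : ∀ s t : ℝ, f s = f t → ∃ n : ℤ, s = t + n
  per : ∀ t : ℝ, f (t + 1) = f t

/-- regular point -/
def Rg (f : ℂ → ℂ) (t : ℂ) : Prop := AnalyticAt ℂ f t ∧ deriv f t ≠ 0

/-- the differential equation of the limit curve -/
def Ode (K f : ℂ → ℂ) (t : ℂ) : Prop :=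
  ∀ᶠ s in 𝓝[≠] t, K (f s) = -(deriv (deriv f) s) / (deriv f s) ^ 2

/-- `h` is the maximal height to which the curve extends -/
def MaxH (f : ℂ → ℂ) (h : ℝ) : Prop :=
  ∀ h' > h, ∀ g : ℂ → ℂ, MeromorphicOn g (St (-h') h') → ¬ g =ᶠ[𝓝 (0:ℂ)] f

/-- an affine symmetry of the curve on the strip `|Im t| < h` -/
structure Sy (f : ℂ → ℂ) (h : ℝ) (A B : ℂ) : Prop where
  ne : A ≠ 0
  ex : ∃ s ∈ St (-h) h, A * s + B ∈ St (-h) h
  eq : ∀ s ∈ St (-h) h, A * s + B ∈ St (-h) h → (fun w => f (A * w + B)) =ᶠ[𝓝[≠] s] f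

/-- the curve takes every value at most once modulo one (at regular points) -/
def InjR (f : ℂ → ℂ) (h : ℝ) : Prop :=
  ∀ t₁ ∈ St (-h) h, ∀ t₂ ∈ St (-h) h, Rg f t₁ → Rg f t₂ → f t₁ = f t₂ → ∃ n : ℤ, t₂ = t₁ + n

/-- the curve takes every value at most `N` times modulo one on the set `D` (at regular points) -/
def Val (f : ℂ → ℂ) (D : Set ℂ) (N : ℕ) : Prop :=
  ∀ u : Fin (N + 1) → ℂ, (∀ i, u i ∈ D ∧ Rg f (u i) ∧ f (u i) = f (u 0)) →
    ∃ i j, i ≠ j ∧ ∃ n : ℤ, u j = u i + n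

end Pool.Agent.MP_ae5b4e_an_SVC
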