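import Pool.Agent.Lib.MP_ae5b4e_an_SVC.Strip

/-!
# MP_ae5b4e_an, project SV: affine symmetries of a curve
-/

noncomputable section

namespace Pool.Agent.MP_ae5b4e_an_SVC

open Complex Set Filter Topology Metric
open Pool.Agent.MP_ae5b4e_an_NBT (St isOpen_St convex_St)
open scoped ComplexConjugate

variable {f : ℂ → ℂ} {h : ℝ} {A B : ℂ}

private lemma sym_tend (hA : A ≠ 0) (s : ℂ) :
    Tendsto (fun w => A * w + B) (𝓝[≠] s) (𝓝[≠] (A * s + B)) := by
  refine tendsto_nhdsWithin_of_tendsto_nhds_of_eventually_within _ ?_ ?_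
  · have hc : Continuous fun w : ℂ => A * w + B := by fun_prop
    exact hc.continuousAt.tendsto.mono_left nhdsWithin_le_nhds
  · filter_upwards [self_mem_nhdsWithin] with w hw
    intro h
    exact hw (mul_left_cancel₀ hA (add_right_cancel h))

private lemma sym_conj (s : ℂ) : Tendsto (fun w : ℂ => conj w) (𝓝[≠] s) (𝓝[≠] (conj s)) := by
  refine tendsto_nhdsWithin_of_tendsto_nhds_of_eventually_within _ ?_ ?_
  · exact Complex.continuous_conj.continuousAt.tendsto.mono_left nhdsWithin_le_nhds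
  · filter_upwards [self_mem_nhdsWithin] with w hw
    intro h
    exact hw (star_injective h)

private lemma sym_mem_conj {s : ℂ} (hs : s ∈ St (-h) h) : conj s ∈ St (-h) h := by
  have h1 : -h < s.im := hs.1
  have h2 : s.im < h := hs.2
  constructor
  · rw [Complex.conj_im]; linarith
  · rw [Complex.conj_im]; linarith

private lemma sym_mem_real (H : Crv f h) (x : ℝ) : (x : ℂ) ∈ St (-h) h := by
  have h0 := H.pos
  constructor
  · rw [Complex.ofReal_im]; linarith
  · rw [Complex.ofReal_im]; linarith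

theorem sy_of_germ (H : Crv f h) (hA : A ≠ 0) {t₁ : ℂ} (h1 : t₁ ∈ St (-h) h)
    (h2 : A * t₁ + B ∈ St (-h) h) (he : ∃ᶠ s in 𝓝[≠] t₁, f (A * s + B) = f s) :
    Sy f h A B := by
  have hc : Continuous fun s : ℂ => A * s + B := by fun_prop
  have hVo : IsOpen (St (-h) h ∩ (fun s => A * s + B) ⁻¹' St (-h) h) :=
    (isOpen_St _ _).inter ((isOpen_St _ _).preimage hc)
  have hVc : Convex ℝ (St (-h) h ∩ (fun s => A * s + B) ⁻¹' St (-h) h) := by
    refine (convex_St _ _).inter ?_
    intro x hx y hy a b ha hb hab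
    have e : A * (a • x + b • y) + B = a • (A * x + B) + b • (A * y + B) := by
      have h3 : (a : ℂ) + (b : ℂ) = 1 := by rw [← Complex.ofReal_add, hab, Complex.ofReal_one]
      simp only [Complex.real_smul]
      linear_combination -B * h3
    show A * (a • x + b • y) + B ∈ St (-h) h
    rw [e]
    exact (convex_St (-h) h) hx hy ha hb hab
  refine ⟨hA, ⟨t₁, h1, h2⟩, fun s hs hs' => ?_⟩
  refine Pool.Agent.MP_ae5b4e_an_MERO.mero_ident hVo hVc.isPreconnected (f := fun w => f (A * w + B))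
    (fun w hw => ?_) (fun w hw => H.mer w hw.1) (t₀ := t₁) ⟨h1, h2⟩ he ⟨hs, hs'⟩
  have ha : AnalyticAt ℂ (fun s : ℂ => A * s + B) w := by fun_prop
  exact MeromorphicAt.comp_analyticAt (f := f) (g := fun s : ℂ => A * s + B) (H.mer _ hw.2) ha

theorem Sy.inv (S : Sy f h A B) : Sy f h A⁻¹ (-(B / A)) := by
  have hA := S.ne
  have e1 : ∀ s : ℂ, A⁻¹ * (A * s + B) + -(B / A) = s := fun s => by field_simp; ring
  have e2 : ∀ w : ℂ, A * (A⁻¹ * w + -(B / A)) + B = w := fun w => by field_simp; ring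
  refine ⟨inv_ne_zero hA, ?_, fun w hw hw' => ?_⟩
  · obtain ⟨s, hs, hs'⟩ := S.ex
    refine ⟨A * s + B, hs', ?_⟩
    rw [e1]
    exact hs
  · have h1 := S.eq _ hw' (by rw [e2]; exact hw)
    have h2 := (sym_tend (B := -(B / A)) (inv_ne_zero hA) w).eventually h1
    filter_upwards [h2] with z hz
    have h3 : f (A * (A⁻¹ * z + -(B / A)) + B) = f (A⁻¹ * z + -(B / A)) := hz
    rw [e2] at h3
    exact h3.symm

theorem Sy.refl (H : Crv f h) (S : Sy f h A B) (hA : A.im = 0) : Sy f h A (conj B) := by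
  have hA' : conj A = A := Complex.conj_eq_iff_im.2 hA
  refine ⟨S.ne, ?_, fun s hs hs' => ?_⟩
  · obtain ⟨s, hs, hs'⟩ := S.ex
    refine ⟨conj s, sym_mem_conj hs, ?_⟩
    have h1 := sym_mem_conj hs'
    rwa [map_add, map_mul, hA'] at h1
  · have h1 : A * conj s + B ∈ St (-h) h := by
      have h2 := sym_mem_conj hs'
      rwa [map_add, map_mul, hA', Complex.conj_conj] at h2
    have h2 := (sym_conj s).eventually (S.eq _ (sym_mem_conj hs) h1)
    have h3 := H.refl' hs
    have h4 := (sym_tend (B := conj B) S.ne s).eventually (H.refl' hs')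
    filter_upwards [h2, h3, h4] with w h2 h3 h4
    have h2' : f (A * conj w + B) = f (conj w) := h2
    have h4' : conj (f (conj (A * w + conj B))) * f (A * w + conj B) = 1 := h4
    rw [map_add, map_mul, hA', Complex.conj_conj, h2'] at h4'
    have h5 : conj (f (conj w)) ≠ 0 := left_ne_zero_of_mul_eq_one h3
    show f (A * w + conj B) = f w
    exact mul_left_cancel₀ h5 (h4'.trans h3.symm)

private lemma sym_val (H : Crv f h) (S : Sy f h A B) {x q : ℝ} (hq : A * x + B = q) :
    (fun w => f (A * w + B)) =ᶠ[𝓝 (x : ℂ)] f := by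
  have h1 := S.eq x (sym_mem_real H x) (by rw [hq]; exact sym_mem_real H q)
  have ha : AnalyticAt ℂ (fun s : ℂ => A * s + B) (x : ℂ) := by fun_prop
  have h2 : AnalyticAt ℂ (fun w => f (A * w + B)) (x : ℂ) := by
    have h3 : AnalyticAt ℂ f (A * (x : ℂ) + B) := by
      rw [hq]
      exact H.an q
    exact AnalyticAt.comp (g := f) (f := fun s : ℂ => A * s + B) h3 ha
  exact (h2.frequently_eq_iff_eventually_eq (H.an x)).1 h1.frequently

private lemma sym_re (H : Crv f h) (x : ℝ) : (deriv f x * conj (f x)).re = 0 := by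
  have h1 : HasDerivAt (fun s : ℝ => f s) (deriv f x) x :=
    (H.an x).differentiableAt.hasDerivAt.comp_ofReal
  have h2 : HasDerivAt (fun s : ℝ => conj (f s)) (conj (deriv f x)) x := h1.star
  have h3 := h1.mul h2
  have h4 : (fun s : ℝ => f s) * (fun s : ℝ => conj (f s)) = fun _ : ℝ => (1 : ℂ) := by
    funext s
    show f s * conj (f s) = 1
    rw [Complex.mul_conj, Complex.normSq_eq_norm_sq, H.circ s]
    simp
  rw [h4] at h3
  have h5 := h3.unique (hasDerivAt_const x (1 : ℂ))
  have h6 := congrArg Complex.re h5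
  simp only [Complex.add_re, Complex.mul_re, Complex.conj_re, Complex.conj_im,
    Complex.zero_re] at h6 ⊢
  linarith

/-- the linear part of a symmetry is real -/
theorem Sy.real (H : Crv f h) (S : Sy f h A B) : A.im = 0 := by
  by_contra hA
  obtain ⟨x, hx⟩ : ∃ x : ℝ, (A * x + B).im = 0 := by
    refine ⟨-B.im / A.im, ?_⟩
    rw [Complex.add_im, Complex.mul_im, Complex.ofReal_re, Complex.ofReal_im]
    field_simp
    ring
  obtain ⟨q, hq⟩ : ∃ q : ℝ, A * x + B = q := ⟨(A * x + B).re, by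
    apply Complex.ext
    · simp
    · rw [hx, Complex.ofReal_im]⟩
  have h1 := sym_val H S hq
  have h2 : f q = f x := by
    have h3 := h1.eq_of_nhds
    have h4 : f (A * x + B) = f x := h3
    rwa [hq] at h4
  have h3 : A * deriv f q = deriv f x := by
    have h4 : HasDerivAt (fun w : ℂ => A * w + B) A (x : ℂ) := by
      simpa using ((hasDerivAt_id (x : ℂ)).const_mul A).add_const B
    have h5 : HasDerivAt f (deriv f q) (A * x + B) := by
      rw [hq]
      exact (H.an q).differentiableAt.hasDerivAt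
    have h6 : HasDerivAt (fun w => f (A * w + B)) (deriv f q * A) (x : ℂ) := h5.comp (x : ℂ) h4
    have h7 := (h6.congr_of_eventuallyEq h1.symm).unique (H.an x).differentiableAt.hasDerivAt
    rw [← h7]
    ring
  have h4 := sym_re H x
  have h5 := sym_re H q
  rw [h2] at h5
  have h6 : A * (deriv f q * conj (f x)) = deriv f x * conj (f x) := by
    rw [← h3]
    ring
  have h7 : deriv f q * conj (f x) ≠ 0 := by
    refine mul_ne_zero (H.dr q) ?_
    intro h0
    have h8 : f x = 0 := by simpa using h0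
    have h9 := H.circ x
    rw [h8, norm_zero] at h9
    exact zero_ne_one h9
  have h8 : (deriv f q * conj (f x)).im ≠ 0 := by
    intro h0
    exact h7 (Complex.ext h5 h0)
  have h9 := congrArg Complex.re h6
  rw [Complex.mul_re, h5, h4, mul_zero, zero_sub, neg_eq_zero] at h9
  rcases mul_eq_zero.1 h9 with h10 | h10
  · exact hA h10
  · exact h8 h10

theorem Sy.real_B (H : Crv f h) (S : Sy f h A B) (hA : A = 1 ∨ A = -1) (hB : B.im = 0) :
    A = 1 ∧ ∃ n : ℤ, B = n := by
  have hB' : ((B.re : ℝ) : ℂ) = B := Complex.ext (by simp) (by simp [hB])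
  rcases hA with rfl | rfl
  · refine ⟨rfl, ?_⟩
    have h1 := (sym_val H S (x := 0) (q := B.re) (by rw [hB']; simp)).eq_of_nhds
    have h2 : f ((B.re : ℝ) : ℂ) = f ((0 : ℝ) : ℂ) := by
      have h3 : f (1 * ((0 : ℝ) : ℂ) + B) = f ((0 : ℝ) : ℂ) := h1
      rw [hB']
      rwa [one_mul, Complex.ofReal_zero, zero_add, ← Complex.ofReal_zero] at h3
    obtain ⟨n, hn⟩ := H.inj _ _ h2
    refine ⟨n, ?_⟩
    rw [← hB', hn]
    simp
  · exfalso
    have key : ∀ s : ℝ, ∃ n : ℤ, B.re - s = s + n := by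
      intro s
      have h1 := (sym_val H S (x := s) (q := B.re - s) (by
        rw [Complex.ofReal_sub, hB']; ring)).eq_of_nhds
      have h3 : f (-1 * (s : ℂ) + B) = f (s : ℂ) := h1
      have h4 : -1 * (s : ℂ) + B = ((B.re - s : ℝ) : ℂ) := by
        rw [Complex.ofReal_sub, hB']; ring
      rw [h4] at h3
      exact H.inj _ _ h3
    obtain ⟨n, hn⟩ := key 0
    obtain ⟨m, hm⟩ := key (1 / 4)
    have h5 : 2 * ((n : ℝ) - m) = 1 := by linarith
    have h6 : (2 * (n - m) : ℤ) = 1 := by exact_mod_cast h5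
    omega

end Pool.Agent.MP_ae5b4e_an_SVC
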